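import Pool.Agent.Lib.MP_ca56d1_nt.C.St
import Pool.Agent.Lib.MP_ca56d1_nt.RM.Basic

/-! Bases of stable lattices and finiteness of the set of values of a given level. -/

namespace Pool.Agent.RM

open Complex

variable {K : Type*} [Field K] [CharZero K] {σ σ' : K →+* ℝ}

omit [CharZero K] in
theorem coset_lat {ε : K} {L : Submodule ℤ K} (hL : ELat ε L) (x : K) : Lat (coset L x) := by
  refine ⟨⟨L ⊔ Submodule.span ℤ {x}, hL.fg.sup (Submodule.fg_span_singleton x), fun y hy => ?_⟩,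
    fun y => ?_⟩
  · have e : y = (y - x) + x := by ring
    rw [e]
    exact Submodule.add_mem_sup hy (Submodule.mem_span_singleton_self x)
  · obtain ⟨n, hn, h⟩ := hL.full y
    refine ⟨n, hn, fun z => ?_⟩
    change z + n * y - x ∈ L ↔ z - x ∈ L
    rw [show z + n * y - x = (z - x) + n * y by ring]
    exact L.add_mem_iff_left h

omit [CharZero K] in
theorem coset_stab {ε : K} {L : Submodule ℤ K} (hL : ELat ε L) {x : K} (hx : (ε - 1) * x ∈ L) :
    Stab ε (coset L x) := fun y => by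
  change ε * y - x ∈ L ↔ y - x ∈ L
  rw [show ε * y - x = ε * (y - x) + (ε - 1) * x by ring, L.add_mem_iff_left hx, hL.stab]

namespace FinAux

theorem exists_basis (h : RQ σ σ') {ε : K} {L : Submodule ℤ K} (hL : ELat ε L) :
    ∃ w₁ w₂ : K, (∀ a b : ℤ, (a : K) * w₁ + b * w₂ = 0 → a = 0 ∧ b = 0) ∧
      ∀ z, z ∈ L ↔ ∃ a b : ℤ, z = a * w₁ + b * w₂ := by
  have : Module.Finite ℤ L := Module.Finite.iff_fg.2 hL.fg
  let b := Module.Free.chooseBasis ℤ L
  have h1 : LinearIndependent ℤ fun i => (b i : K) :=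
    b.linearIndependent.map' L.subtype L.ker_subtype
  have h2 : LinearIndependent ℚ fun i => (b i : K) := (LinearIndependent.iff_fractionRing ℤ ℚ).1 h1
  have h3 : ⊤ ≤ Submodule.span ℚ (Set.range fun i => (b i : K)) := by
    intro y _
    obtain ⟨n, hn, hy⟩ := hL.full y
    have h4 : (n : K) * y ∈ Submodule.span ℚ (Set.range fun i => (b i : K)) := by
      have h5 := congrArg L.subtype (b.sum_repr ⟨_, hy⟩)
      rw [map_sum] at h5
      simp only [map_zsmul, Submodule.subtype_apply] at h5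
      rw [← h5]
      exact Submodule.sum_mem _ fun i _ =>
        zsmul_mem (Submodule.subset_span (Set.mem_range_self i)) _
    have h6 := Submodule.smul_mem _ ((n : ℚ)⁻¹) h4
    have hn' : (n : K) ≠ 0 := by exact_mod_cast hn
    rwa [Rat.smul_def, Rat.cast_inv, Rat.cast_natCast, ← mul_assoc, inv_mul_cancel₀ hn',
      one_mul] at h6
  have h4 : Fintype.card (Module.Free.ChooseBasisIndex ℤ L) = 2 := by
    rw [← h.two, Module.finrank_eq_card_basis (Module.Basis.mk h2 h3)]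
  let c := b.reindex (Fintype.equivFinOfCardEq h4)
  refine ⟨c 0, c 1, fun x y e => ?_, fun z => ⟨fun hz => ?_, ?_⟩⟩
  · have h5 := Fintype.linearIndependent_iff.1 c.linearIndependent ![x, y] (by
      apply Subtype.ext
      simpa [Fin.sum_univ_two] using e)
    exact ⟨h5 0, h5 1⟩
  · refine ⟨c.repr ⟨z, hz⟩ 0, c.repr ⟨z, hz⟩ 1, ?_⟩
    have h5 := congrArg L.subtype (c.sum_repr ⟨z, hz⟩)
    rw [Fin.sum_univ_two, map_add, map_zsmul, map_zsmul, zsmul_eq_mul, zsmul_eq_mul] at h5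
    exact h5.symm
  · rintro ⟨x, y, rfl⟩
    rw [← zsmul_eq_mul, ← zsmul_eq_mul]
    exact L.add_mem (zsmul_mem (c 0).2 _) (zsmul_mem (c 1).2 _)

omit [CharZero K] in
theorem trace_det {ε w₁ w₂ : K} (hε : Eps σ σ' ε) (hw : w₁ ≠ 0) {a b c d : ℤ}
    (h1 : ε * w₁ = a * w₁ + c * w₂) (h2 : ε * w₂ = b * w₁ + d * w₂) :
    ((a + d : ℤ) : ℝ) = σ ε + σ' ε ∧ a * d - b * c = 1 ∧ ε ^ 2 = (a + d : ℤ) * ε - 1 := by
  have h3 : ε ^ 2 - (a + d : ℤ) * ε + (a * d - b * c : ℤ) = 0 := by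
    refine mul_right_cancel₀ hw ?_
    push_cast
    linear_combination (ε - d) * h1 + c * h2
  have h4 := congrArg σ h3
  have h5 := congrArg σ' h3
  simp only [map_add, map_sub, map_mul, map_pow, map_intCast, map_zero] at h4 h5
  have h6 : σ ε - σ' ε ≠ 0 := by linarith [hε.one_lt, hε.lt_one, sub_pos.2 (hε.lt_one.trans hε.one_lt)]
  have h7 : ((a + d : ℤ) : ℝ) = σ ε + σ' ε := by
    refine mul_right_cancel₀ h6 ?_
    linear_combination h5 - h4
  have h8 : a * d - b * c = 1 := by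
    have : ((a * d - b * c : ℤ) : ℝ) = 1 := by
      rw [h7] at h4
      linear_combination h4 + hε.norm
    exact_mod_cast this
  refine ⟨h7, h8, ?_⟩
  rw [h8] at h3
  push_cast at h3 ⊢
  linear_combination h3

theorem small_value (t : ℤ) (ht : 3 ≤ t) (n : ℕ) : ∀ A B C : ℤ, A.natAbs = n →
    B ^ 2 - 4 * A * C = t ^ 2 - 4 → ∃ x y : ℤ, A * x ^ 2 + B * x * y + C * y ^ 2 ≠ 0 ∧
      |A * x ^ 2 + B * x * y + C * y ^ 2| ≤ t := by
  induction n using Nat.strong_induction_on with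
  | _ n ih =>
    intro A B C hn hd
    have hA : A ≠ 0 := by
      rintro rfl
      have h1 : |B| ^ 2 = t ^ 2 - 4 := by rw [sq_abs]; linarith
      have h2 := abs_nonneg B
      rcases le_or_gt t |B| with h | h <;> nlinarith
    by_cases hs : |A| ≤ t
    · exact ⟨1, 0, by simpa using hA, by simpa using hs⟩
    push Not at hs
    obtain ⟨k, hk⟩ : ∃ k : ℤ, |2 * A * k + B| ≤ |A| := by
      have hm : 0 < 2 * |A| := by positivity
      have h1 := Int.emod_nonneg (B + |A|) hm.ne'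
      have h2 := Int.emod_lt_of_pos (B + |A|) hm
      have h3 := Int.emod_add_mul_ediv (B + |A|) (2 * |A|)
      generalize (B + |A|) % (2 * |A|) = r at h1 h2 h3
      generalize (B + |A|) / (2 * |A|) = q at h3
      rcases abs_choice A with e | e <;> rw [e] at h2 h3 ⊢
      · exact ⟨-q, abs_le.2 ⟨by linarith, by linarith⟩⟩
      · exact ⟨q, abs_le.2 ⟨by linarith, by linarith⟩⟩
    have h1 : 4 * A * (A * k ^ 2 + B * k + C) = (2 * A * k + B) ^ 2 - (t ^ 2 - 4) := by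
      linear_combination -hd
    have h2 : (2 * A * k + B) ^ 2 ≤ |A| ^ 2 := by
      rw [← sq_abs]
      exact pow_le_pow_left₀ (abs_nonneg _) hk 2
    have h3 : |4 * A * (A * k ^ 2 + B * k + C)| ≤ |A| ^ 2 := by
      rw [h1]
      refine abs_le.2 ⟨?_, ?_⟩ <;> nlinarith [sq_nonneg (2 * A * k + B)]
    have h4 : |A * k ^ 2 + B * k + C| < |A| := by
      rw [abs_mul, abs_mul, abs_of_pos (show (0 : ℤ) < 4 by norm_num)] at h3
      by_contra hc
      push Not at hc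
      nlinarith
    obtain ⟨x, y, hx, hy⟩ := ih (A * k ^ 2 + B * k + C).natAbs (by
      rw [← hn]; zify; exact h4) _ (2 * A * k + B) A rfl (by linear_combination hd)
    have e : A * (k * x + y) ^ 2 + B * (k * x + y) * x + C * x ^ 2 =
      (A * k ^ 2 + B * k + C) * x ^ 2 + (2 * A * k + B) * x * y + A * y ^ 2 := by ring
    exact ⟨k * x + y, x, by rwa [e], by rwa [e]⟩

/-- The order generated by `ε`. -/
def ord (ε : K) (t : ℤ) (h : ε ^ 2 = t * ε - 1) : Subring K where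
  carrier := {z | ∃ i j : ℤ, z = i + j * ε}
  mul_mem' := by
    rintro _ _ ⟨i, j, rfl⟩ ⟨i', j', rfl⟩
    exact ⟨i * i' - j * j', i * j' + j * i' + j * j' * t, by
      push_cast; linear_combination (j * j' : K) * h⟩
  one_mem' := ⟨1, 0, by simp⟩
  add_mem' := by
    rintro _ _ ⟨i, j, rfl⟩ ⟨i', j', rfl⟩
    exact ⟨i + i', j + j', by push_cast; ring⟩
  zero_mem' := ⟨0, 0, by simp⟩
  neg_mem' := by
    rintro _ ⟨i, j, rfl⟩
    exact ⟨-i, -j, by push_cast; ring⟩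

theorem finite_sets (ε : K) (M : ℕ) (hM : M ≠ 0) :
    {Λ : Set K | (∀ y ∈ Λ, ∃ i j : ℤ, (M : K) * y = i + j * ε) ∧
      ∀ (i j : ℤ) (y : K), y + (i + j * ε) ∈ Λ ↔ y ∈ Λ}.Finite := by
  have hM' : (M : K) ≠ 0 := by exact_mod_cast hM
  have hM0 : (0 : ℤ) < M := by exact_mod_cast Nat.pos_of_ne_zero hM
  let F : Set K := (fun p : ℤ × ℤ => ((p.1 : K) + p.2 * ε) / M) ''
    (Set.Ico (0 : ℤ) M ×ˢ Set.Ico (0 : ℤ) M)
  have hF : F.Finite := ((Set.finite_Ico _ _).prod (Set.finite_Ico _ _)).image _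
  refine Set.Finite.of_finite_image (f := fun Λ => Λ ∩ F)
    (hF.finite_subsets.subset (by rintro _ ⟨Λ, -, rfl⟩; exact Set.inter_subset_right)) ?_
  have key : ∀ Λ Λ' : Set K, (∀ y ∈ Λ, ∃ i j : ℤ, (M : K) * y = i + j * ε) →
      (∀ (i j : ℤ) (y : K), y + (i + j * ε) ∈ Λ ↔ y ∈ Λ) →
      (∀ (i j : ℤ) (y : K), y + (i + j * ε) ∈ Λ' ↔ y ∈ Λ') → Λ ∩ F = Λ' ∩ F → Λ ⊆ Λ' := by
    intro Λ Λ' h1 h2 h3 h4 y hy
    obtain ⟨i, j, e⟩ := h1 y hy
    have e1 : (i : K) = (i % M : ℤ) + M * (i / M : ℤ) := by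
      exact_mod_cast congrArg (Int.cast : ℤ → K) (Int.emod_add_mul_ediv i M).symm
    have e2 : (j : K) = (j % M : ℤ) + M * (j / M : ℤ) := by
      exact_mod_cast congrArg (Int.cast : ℤ → K) (Int.emod_add_mul_ediv j M).symm
    have e3 : y = (((i % M : ℤ) : K) + (j % M : ℤ) * ε) / M + ((i / M : ℤ) + (j / M : ℤ) * ε) := by
      field_simp
      linear_combination e + e1 + ε * e2
    rw [e3] at hy ⊢
    have h5 : (((i % M : ℤ) : K) + (j % M : ℤ) * ε) / M ∈ Λ ∩ F :=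
      ⟨(h2 _ _ _).1 hy, (i % M, j % M), ⟨⟨Int.emod_nonneg _ hM0.ne', Int.emod_lt_of_pos _ hM0⟩,
        ⟨Int.emod_nonneg _ hM0.ne', Int.emod_lt_of_pos _ hM0⟩⟩, rfl⟩
    rw [h4] at h5
    exact (h3 _ _ _).2 h5.1
  intro Λ hΛ Λ' hΛ' e
  exact Set.Subset.antisymm (key Λ Λ' hΛ.1 hΛ.2 hΛ'.2 e) (key Λ' Λ hΛ'.1 hΛ'.2 hΛ.2 e.symm)

omit [CharZero K] in
theorem exists_pos {ε w : K} (hε : Eps σ σ' ε) (hw : w ≠ 0) : ∃ u : K, 0 < σ u ∧ 0 < σ' u ∧
    (u = w ∨ u = -w ∨ u = (ε - 1) * w ∨ u = -((ε - 1) * w)) := by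
  have h1 : 0 < σ ε - 1 := sub_pos.2 hε.one_lt
  have h2 : σ' ε - 1 < 0 := sub_neg.2 hε.lt_one
  rcases lt_or_gt_of_ne (emb_ne σ hw) with a | a <;> rcases lt_or_gt_of_ne (emb_ne σ' hw) with b | b
  · exact ⟨-w, by simpa using a, by simpa using b, by simp⟩
  · refine ⟨-((ε - 1) * w), ?_, ?_, by simp⟩ <;>
      simp only [map_neg, map_mul, map_sub, map_one] <;> nlinarith
  · refine ⟨(ε - 1) * w, ?_, ?_, by simp⟩ <;>
      simp only [map_mul, map_sub, map_one] <;> nlinarith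
  · exact ⟨w, a, b, by simp⟩

end FinAux

open FinAux

theorem basSt (h : RQ σ σ') : BasSt σ σ' := by
  intro ε L hε hL
  obtain ⟨w₁, w₂, hi, hm⟩ := exists_basis h hL
  have hw : w₁ ≠ 0 := fun e => one_ne_zero (hi 1 0 (by simp [e])).1
  obtain ⟨a, c, h1⟩ := (hm _).1 ((hL.stab w₁).2 ((hm _).2 ⟨1, 0, by simp⟩))
  obtain ⟨b, d, h2⟩ := (hm _).1 ((hL.stab w₂).2 ((hm _).2 ⟨0, 1, by simp⟩))
  obtain ⟨h3, -, h5⟩ := trace_det hε hw h1 h2
  have h6 : 0 < a + d - 2 := by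
    have : (0 : ℝ) < ((a + d : ℤ) : ℝ) - 2 := by
      rw [h3]
      nlinarith [hε.norm, hε.one_lt, hε.lt_one, mul_pos (sub_pos.2 hε.one_lt) (sub_pos.2 hε.lt_one)]
    exact_mod_cast this
  obtain ⟨N, hN⟩ := Int.eq_ofNat_of_zero_le h6.le
  refine ⟨w₁, w₂, N, hi, hm, by omega, ?_, ?_⟩
  · rw [← h3, show a + d = N + 2 by omega]
    push_cast
    ring
  · rw [show a + d = N + 2 by omega] at h5
    push_cast at h5
    linear_combination h5

theorem FinAux.gen (h : RQ σ σ') {ε : K} {L : Submodule ℤ K} (hε : Eps σ σ' ε) (hL : ELat ε L)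
    {N : ℕ} (hN : σ ε + σ' ε - 2 = N) : ∃ u : K, 0 < σ u ∧ 0 < σ' u ∧ u ∈ L ∧
      ∀ z ∈ L, ∃ i j : ℤ, (((N + 2).factorial * N : ℕ) : K) * z = u * (i + j * ε) := by
  obtain ⟨w₁, w₂, N', hi, hm, hN0, hN', hsq⟩ := basSt h ε L hε hL
  obtain rfl : N' = N := by exact_mod_cast hN'.symm.trans hN
  have hw : w₁ ≠ 0 := fun e => one_ne_zero (hi 1 0 (by simp [e])).1
  obtain ⟨a, c, h1⟩ := (hm _).1 ((hL.stab w₁).2 ((hm _).2 ⟨1, 0, by simp⟩))
  obtain ⟨b, d, h2⟩ := (hm _).1 ((hL.stab w₂).2 ((hm _).2 ⟨0, 1, by simp⟩))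
  obtain ⟨h3, h4, h5⟩ := trace_det hε hw h1 h2
  have ht : a + d = N' + 2 := by
    have : ((a + d : ℤ) : ℝ) = N' + 2 := by rw [h3]; linarith
    exact_mod_cast this
  obtain ⟨x, y, hQ0, hQ⟩ := small_value (a + d) (by omega) _ c (d - a) (-b) rfl
    (by linear_combination -4 * h4)
  set Q := c * x ^ 2 + (d - a) * x * y + -b * y ^ 2 with hQe
  obtain ⟨m, hmQ⟩ : Q ∣ ((N' + 2).factorial : ℕ) := by
    rw [← Int.natAbs_dvd, Int.natCast_dvd_natCast]
    refine Nat.dvd_factorial (Int.natAbs_pos.2 hQ0) ?_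
    zify
    omega
  set w : K := x * w₁ + y * w₂ with hwe
  have hwL : w ∈ L := (hm _).2 ⟨x, y, rfl⟩
  have hw0 : w ≠ 0 := fun e => by
    obtain ⟨rfl, rfl⟩ := hi x y e
    exact hQ0 (by simp [hQe])
  let R := ord ε (a + d) h5
  have hεR : ε ∈ R := ⟨0, 1, by simp⟩
  have e1 : (Q : K) * w₁ = w * ((c * x + d * y : ℤ) + (-y : ℤ) * ε) := by
    rw [hQe, hwe]
    push_cast
    linear_combination (x * y : K) * h1 + (y ^ 2 : K) * h2
  have e2 : (Q : K) * w₂ = w * ((-(a * x + b * y) : ℤ) + (x : ℤ) * ε) := by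
    rw [hQe, hwe]
    push_cast
    linear_combination -(x ^ 2 : K) * h1 - (x * y : K) * h2
  have hεw : (ε - 1) * w ∈ L := by
    rw [sub_mul, one_mul]
    exact L.sub_mem ((hL.stab w).2 hwL) hwL
  have hinv : ε * ((a + d : ℤ) - ε) = 1 := by linear_combination -h5
  obtain ⟨u, hu1, hu2, hu⟩ := exists_pos hε hw0
  have huL : u ∈ L ∧ ∃ r ∈ R, (N' : K) * w = u * r := by
    have hr : (ε - 1) * ((a + d : ℤ) - ε) ∈ R :=
      R.mul_mem (R.sub_mem hεR R.one_mem) (R.sub_mem (intCast_mem R _) hεR)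
    rcases hu with rfl | rfl | rfl | rfl
    · exact ⟨hwL, N', natCast_mem R _, by ring⟩
    · exact ⟨L.neg_mem hwL, -N', R.neg_mem (natCast_mem R _), by ring⟩
    · exact ⟨hεw, _, hr, by
        linear_combination -(w * ((a + d : ℤ) - ε)) * hsq - (N' : K) * w * hinv⟩
    · exact ⟨L.neg_mem hεw, _, R.neg_mem hr, by
        linear_combination -(w * ((a + d : ℤ) - ε)) * hsq - (N' : K) * w * hinv⟩
  obtain ⟨huL, r, hr, hur⟩ := huL
  refine ⟨u, hu1, hu2, huL, fun z hz => ?_⟩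
  obtain ⟨p, q, rfl⟩ := (hm z).1 hz
  have hmem : r * ((m : K) * (p * ((c * x + d * y : ℤ) + (-y : ℤ) * ε) +
      q * ((-(a * x + b * y) : ℤ) + (x : ℤ) * ε))) ∈ R :=
    R.mul_mem hr (R.mul_mem (intCast_mem R _) (R.add_mem
      (R.mul_mem (intCast_mem R _) ⟨_, _, rfl⟩) (R.mul_mem (intCast_mem R _) ⟨_, _, rfl⟩)))
  obtain ⟨i, j, e⟩ := hmem
  refine ⟨i, j, ?_⟩
  have e3 : (((N' + 2).factorial : ℕ) : K) = Q * m := by exact_mod_cast congrArg (Int.cast : ℤ → K) hmQ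
  rw [← e, Nat.cast_mul, e3]
  generalize ((c * x + d * y : ℤ) : K) + (-y : ℤ) * ε = s1 at e1
  generalize ((-(a * x + b * y) : ℤ) : K) + (x : ℤ) * ε = s2 at e2
  linear_combination (m * N' * p : K) * e1 + (m * N' * q : K) * e2 +
    (m * (p * s1 + q * s2) : K) * hur

theorem finSt (h : RQ σ σ') (hA : PartA σ σ') : FinSt σ σ' := by
  intro ε hε
  rcases Set.eq_empty_or_nonempty
    {z | ∃ L x, ELat ε L ∧ (ε - 1) * x ∈ L ∧ z = Fm σ σ' ε L x} with e | ⟨_, L0, -, hL0, -⟩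
  · rw [e]
    exact Set.finite_empty
  obtain ⟨-, -, N, -, -, hN0, hN, hsq⟩ := basSt h ε L0 hε hL0
  refine ((finite_sets ε ((N + 2).factorial * N * N) (by positivity)).image
    fun Λ => cexp (LX σ σ' ε Λ)).subset ?_
  rintro _ ⟨L, x, hL, hx, rfl⟩
  obtain ⟨u, hu1, hu2, huL, hu⟩ := FinAux.gen h hε hL hN
  have hu0 : u ≠ 0 := fun e => by simp [e] at hu1
  have hNx : (N : K) * x ∈ L := by
    rw [← hL.stab, show ε * (N * x) = ε * ((ε - 1) * x) - (ε - 1) * x by linear_combination -x * hsq]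
    exact L.sub_mem ((hL.stab _).2 hx) hx
  refine ⟨{y | u * y ∈ coset L x}, ⟨fun y hy => ?_, fun i j y => ?_⟩, ?_⟩
  · have h1 : (N : K) * (u * y) ∈ L := by
      rw [show (N : K) * (u * y) = N * (u * y - x) + N * x by ring, ← nsmul_eq_mul]
      exact L.add_mem (nsmul_mem hy _) hNx
    obtain ⟨i, j, e⟩ := hu _ h1
    refine ⟨i, j, mul_left_cancel₀ hu0 ?_⟩
    rw [← e]
    push_cast
    ring
  · change u * (y + (i + j * ε)) - x ∈ L ↔ u * y - x ∈ L
    rw [show u * (y + (i + j * ε)) - x = (u * y - x) + (i * u + j * (ε * u)) by ring]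
    refine L.add_mem_iff_left ?_
    rw [← zsmul_eq_mul, ← zsmul_eq_mul]
    exact L.add_mem (zsmul_mem huL _) (zsmul_mem ((hL.stab u).2 huL) _)
  · simp only [Fm]
    rw [hA.smul ε _ hε (coset_lat hL x) (coset_stab hL hx) u hu1 hu2]

end Pool.Agent.RM
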