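import Pool.Agent.Lib.MP_ca56d1_nt.C.Fin

/-! A lattice with two distinct eigenlines at `p` is balanced. -/

namespace Pool.Agent.RM

variable {K : Type*} [Field K] [CharZero K] {σ σ' : K →+* ℝ}

namespace BalAux

omit [CharZero K] in
theorem zmul {L : Submodule ℤ K} (a : ℤ) {y : K} (h : y ∈ L) : (a : K) * y ∈ L := by
  simpa [zsmul_eq_mul] using L.smul_mem a h

omit [CharZero K] in
theorem dvd_mem {L : Submodule ℤ K} {p : ℕ} {s : K} (hs : (p : K) * s ∈ L) {a : ℤ}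
    (h : (p : ℤ) ∣ a) : (a : K) * s ∈ L := by
  obtain ⟨k, rfl⟩ := h
  have := zmul k hs
  convert this using 1
  push_cast; ring

omit [CharZero K] in
theorem elat_pow {ε : K} {L : Submodule ℤ K} (hL : ELat ε L) (n : ℕ) : ELat (ε ^ n) L := by
  refine ⟨hL.fg, hL.full, fun y => ?_⟩
  induction n with
  | zero => simp
  | succ k ih => rw [pow_succ', mul_assoc, hL.stab, ih]

omit [CharZero K] in
theorem eig_pow {ε s : K} {L : Submodule ℤ K} (hL : ELat ε L) {η : ℤ}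
    (h : ε * s - η * s ∈ L) (n : ℕ) : ε ^ n * s - ((η ^ n : ℤ) : K) * s ∈ L := by
  induction n with
  | zero => simp
  | succ k ih =>
    have h1 := (hL.stab _).2 ih
    have h2 := zmul (η ^ k) h
    convert L.add_mem h1 h2 using 1
    push_cast; ring

/-- The classes of `s` and `t` generate `p⁻¹ L / L`. -/
theorem span {L : Submodule ℤ K} {w₁ w₂ : K}
    (hw : ∀ z, z ∈ L ↔ ∃ a b : ℤ, z = a * w₁ + b * w₂) {p : ℕ} (hp : p.Prime) {s t : K}
    (hs : (p : K) * s ∈ L) (ht : (p : K) * t ∈ L)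
    (hi : ∀ a b : ℤ, (a : K) * s + b * t ∈ L → (p : ℤ) ∣ a ∧ (p : ℤ) ∣ b) {z : K} (hz : z ∈ L) :
    ∃ x y : ℤ, z / p - (x * s + y * t) ∈ L := by
  have hp0 : (p : K) ≠ 0 := Nat.cast_ne_zero.2 hp.ne_zero
  have hpz : Prime (p : ℤ) := Nat.prime_iff_prime_int.1 hp
  obtain ⟨a₁, b₁, h₁⟩ := (hw _).1 hs
  obtain ⟨a₂, b₂, h₂⟩ := (hw _).1 ht
  have hs' : s = (a₁ * w₁ + b₁ * w₂) / p := by rw [← h₁]; field_simp
  have ht' : t = (a₂ * w₁ + b₂ * w₂) / p := by rw [← h₂]; field_simp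
  have hD : ¬ (p : ℤ) ∣ a₁ * b₂ - a₂ * b₁ := by
    rintro ⟨k, hk⟩
    have hk' : (a₁ : K) * b₂ - a₂ * b₁ = p * k := by exact_mod_cast hk
    have e1 := hi b₂ (-b₁) ((hw _).2 ⟨k, 0, by
      rw [hs', ht']; push_cast; field_simp; linear_combination w₁ * hk'⟩)
    have e2 := hi (-a₂) a₁ ((hw _).2 ⟨0, k, by
      rw [hs', ht']; push_cast; field_simp; linear_combination w₂ * hk'⟩)
    obtain ⟨c, hc⟩ := e2.2
    obtain ⟨d, hd⟩ := (dvd_neg.1 e1.2)
    have e3 := hi 1 0 ((hw _).2 ⟨c, d, by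
      rw [hs', hc, hd]; push_cast; field_simp; ring⟩)
    exact hpz.not_dvd_one e3.1
  obtain ⟨α, β, hαβ⟩ := (hpz.irreducible.coprime_iff_not_dvd.2 hD)
  have hK : (α : K) * p + β * (a₁ * b₂ - a₂ * b₁) = 1 := by exact_mod_cast hαβ
  obtain ⟨a, b, rfl⟩ := (hw _).1 hz
  refine ⟨β * (a * b₂ - b * a₂), β * (b * a₁ - a * b₁), (hw _).2 ⟨a * α, b * α, ?_⟩⟩
  rw [hs', ht']; push_cast; field_simp
  linear_combination (-(a * w₁ + b * w₂)) * hK

omit [CharZero K] in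
/-- A nilpotent endomorphism commuting with `ε` kills an eigenline. -/
theorem kill {L : Submodule ℤ K} {ε b : K} (hL : ELat ε L) {p : ℕ} (hp : p.Prime) {s t : K}
    {η η' : ℤ} (hs : (p : K) * s ∈ L) (ht : (p : K) * t ∈ L)
    (hi : ∀ a b : ℤ, (a : K) * s + b * t ∈ L → (p : ℤ) ∣ a ∧ (p : ℤ) ∣ b)
    (es : ε * s - η * s ∈ L) (et : ε * t - η' * t ∈ L) (hη : ¬ (p : ℤ) ∣ η' - η)
    (hb : ∀ y ∈ L, b * y ∈ L) (hb2 : b * (b * s) ∈ L)
    (hx : ∃ x y : ℤ, b * s - (x * s + y * t) ∈ L) : b * s ∈ L := by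
  have hpz : Prime (p : ℤ) := Nat.prime_iff_prime_int.1 hp
  obtain ⟨x, y, h⟩ := hx
  have h1 : ((0 : ℤ) : K) * s + ((y * (η' - η) : ℤ) : K) * t ∈ L := by
    have := L.sub_mem (L.sub_mem (L.sub_mem (hb _ es)
      (L.sub_mem ((hL.stab _).2 h) (zmul η h))) (zmul x es)) (zmul y et)
    convert this using 1
    push_cast; ring
  have hy : (p : ℤ) ∣ y := (hpz.dvd_or_dvd (hi _ _ h1).2).resolve_right hη
  have h2 : b * s - x * s ∈ L := by
    convert L.add_mem h (dvd_mem ht hy) using 1; ring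
  have h3 : ((x * x : ℤ) : K) * s + ((0 : ℤ) : K) * t ∈ L := by
    convert L.sub_mem (L.sub_mem hb2 (hb _ h2)) (zmul x h2) using 1
    push_cast; ring
  have hx : (p : ℤ) ∣ x := by simpa using hpz.dvd_or_dvd (hi _ _ h3).1
  convert L.add_mem h2 (dvd_mem hs hx) using 1; ring

end BalAux

open BalAux in
theorem balSt (h : RQ σ σ') : BalSt σ σ' := by
  intro ε L hε hL p hp s t η η' hs ht hi es et hηη hη2 n hn hηn
  have hp0 : (p : K) ≠ 0 := Nat.cast_ne_zero.2 hp.ne_zero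
  have hpz : Prime (p : ℤ) := Nat.prime_iff_prime_int.1 hp
  have hLn := elat_pow hL n
  obtain ⟨w₁, w₂, N, hind, hw, hN, htr, hsq⟩ := basSt h (ε ^ n) L (hε.pow hn) hLn
  have hη'n : (p : ℤ) ∣ η' ^ n - 1 := by
    have h1 : (p : ℤ) ∣ (η * η') ^ n - 1 := by
      have := hηη.trans (sub_dvd_pow_sub_pow (η * η') 1 n)
      simpa using this
    have h2 : η' ^ n - 1 = ((η * η') ^ n - 1) - (η ^ n - 1) * η' ^ n := by rw [mul_pow]; ring
    rw [h2]
    exact dvd_sub h1 (hηn.mul_right _)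
  have hne : ¬ (p : ℤ) ∣ η' - η := fun hd => hη2 (by
    have h2 : η ^ 2 - 1 = (η * η' - 1) - η * (η' - η) := by ring
    rw [h2]
    exact dvd_sub hηη (hd.mul_left _))
  have hne' : ¬ (p : ℤ) ∣ η - η' := fun hd => hne (by simpa using dvd_neg.2 hd)
  have hi' : ∀ a b : ℤ, (a : K) * t + b * s ∈ L → (p : ℤ) ∣ a ∧ (p : ℤ) ∣ b := fun a b hab =>
    (hi b a (by rwa [add_comm])).symm
  -- an endomorphism killing `s` and `t` is divisible by `p`
  have div : ∀ b : K, (∀ y ∈ L, b * y ∈ L) → b * s ∈ L → b * t ∈ L → ∀ y ∈ L, b * y / p ∈ L := by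
    intro b hb h1 h2 y hy
    obtain ⟨x, z, hxz⟩ := span hw hp hs ht hi hy
    convert L.add_mem (hb _ hxz) (L.add_mem (zmul x h1) (zmul z h2)) using 1
    ring
  have P1 : ∀ y ∈ L, (ε ^ n - 1) * y / p ^ (0 + 1) ∈ L := by
    intro y hy
    rw [zero_add, pow_one]
    refine div _ (fun z hz => ?_) ?_ ?_ y hy
    · convert L.sub_mem ((hLn.stab _).2 hz) hz using 1; ring
    · convert L.add_mem (eig_pow hL es n) (dvd_mem hs hηn) using 1
      push_cast; ring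
    · convert L.add_mem (eig_pow hL et n) (dvd_mem ht hη'n) using 1
      push_cast; ring
  have bd : ∀ a : ℕ, (∀ y ∈ L, (ε ^ n - 1) * y / p ^ a ∈ L) → p ^ (2 * a) ∣ N := by
    intro a ha
    have h1 : w₁ ∈ L := (hw _).2 ⟨1, 0, by simp⟩
    have h2 := ha _ (ha _ h1)
    have h3 : (ε ^ n - 1) * ((ε ^ n - 1) * w₁ / p ^ a) / p ^ a
        = ε ^ n * (N * w₁ / p ^ (2 * a)) := by
      rw [two_mul, pow_add]
      field_simp
      linear_combination w₁ * hsq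
    rw [h3, hLn.stab, hw] at h2
    obtain ⟨α, β, hαβ⟩ := h2
    have h4 := (hind (N - p ^ (2 * a) * α) (-(p ^ (2 * a) * β)) (by
      push_cast
      field_simp at hαβ
      linear_combination hαβ)).1
    exact Int.natCast_dvd_natCast.1 ⟨α, by push_cast; linarith⟩
  have ex : ∃ c : ℕ, ¬ ∀ y ∈ L, (ε ^ n - 1) * y / p ^ (c + 1 + 1) ∈ L := by
    refine ⟨N, fun hc => ?_⟩
    have h1 := Nat.le_of_dvd hN (bd _ hc)
    have h2 := Nat.lt_pow_self (n := 2 * (N + 1 + 1)) hp.one_lt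
    omega
  classical
  obtain ⟨c, hc, hc1⟩ : ∃ c : ℕ, (¬ ∀ y ∈ L, (ε ^ n - 1) * y / p ^ (c + 1 + 1) ∈ L) ∧
      ∀ y ∈ L, (ε ^ n - 1) * y / p ^ (c + 1) ∈ L := by
    refine ⟨Nat.find ex, Nat.find_spec ex, ?_⟩
    rcases Nat.eq_zero_or_eq_succ_pred (Nat.find ex) with h0 | h0
    · rw [h0]; exact P1
    · have := Nat.find_min ex (m := (Nat.find ex).pred) (by omega)
      rw [h0]
      exact not_not.1 this
  obtain ⟨N', hN'⟩ := bd _ hc1
  refine ⟨c, N', fun hd => hc ?_, by rw [htr, hN'], hc1⟩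
  obtain ⟨k, rfl⟩ := hd
  set b : K := (ε ^ n - 1) / p ^ (c + 1) with hbdef
  have hb : ∀ y ∈ L, b * y ∈ L := fun y hy => by
    convert hc1 y hy using 1; rw [hbdef]; ring
  have hbb : ∀ u : K, (p : K) * u ∈ L → b * (b * u) ∈ L := fun u hu => by
    have h1 := (hLn.stab _).2 (zmul (k : ℤ) hu)
    convert h1 using 1
    have h2 : (N : K) = (p ^ (c + 1)) ^ 2 * (p * k) := by
      rw [hN']; push_cast; ring
    rw [hbdef]
    rw [h2] at hsq
    push_cast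
    field_simp
    linear_combination u * hsq
  have hsp : ∀ u : K, (p : K) * u ∈ L → ∃ x y : ℤ, b * u - (x * s + y * t) ∈ L := fun u hu => by
    obtain ⟨x, y, hxy⟩ := span hw hp hs ht hi (hb _ hu)
    refine ⟨x, y, ?_⟩
    convert hxy using 2
    field_simp
  have k1 := kill hL hp hs ht hi es et hne hb (hbb s hs) (hsp s hs)
  have k2 := kill hL hp ht hs hi' et es hne' hb (hbb t ht) (by
    obtain ⟨x, y, hxy⟩ := hsp t ht
    exact ⟨y, x, by rwa [add_comm]⟩)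
  intro y hy
  convert div b hb k1 k2 y hy using 1
  rw [hbdef, pow_succ (p : K) (c + 1)]
  field_simp

end Pool.Agent.RM
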