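import Pool.Agent.Lib.MP_ca56d1_nt.C.Model

set_option linter.unusedSectionVars false
set_option linter.style.haveILetI false

namespace Pool.Agent.StarkC

open Finset

variable {A : Type*} [AddCommGroup A] {p : ℕ}

theorem conv_deg [Fintype A] (O : ValuationSubring ℂ) (hp : p.Prime) (hO : O.valuation p < 1)
    {c : ℕ} (hcard : O.valuation p ^ (c + 1) ≤ O.valuation (Fintype.card A)) (g : A)
    (hg : p ^ (c + 1) • g = 0) (h : A → ℂ) (hle : ∀ x, O.valuation (h x) ≤ 1)
    (hZ : ∀ Z, O.valuation (∑ x, h x * h (Z - x)) ≤ O.valuation p ^ (c + 1)) :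
    (dl (IsLocalRing.ResidueField O) (p ^ c • g) ^ ((p - 1) / 2 + 1)) (fun x => red O (h x)) = 0 := by
  classical
  obtain ⟨d, hd⟩ := IsAlgClosed.exists_pow_nat_eq ((p : ℂ) ^ (c + 1)) two_pos
  have hd' : O.valuation d ^ 2 = O.valuation p ^ (c + 1) := by rw [← map_pow, hd, map_pow]
  have hN : (Fintype.card A : ℂ) ≠ 0 := by exact_mod_cast Fintype.card_ne_zero
  have hψ : ∀ (ψ : AddChar A ℂ) x, O.valuation (ψ x) = 1 := fun ψ x =>
    val_root O (n := Fintype.card A) Fintype.card_ne_zero (by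
      rw [← AddChar.map_nsmul_eq_pow, card_nsmul_eq_zero, AddChar.map_zero_eq_one])
  have hat : ∀ ψ : AddChar A ℂ, O.valuation (∑ x, h x * ψ x) ≤ O.valuation d := fun ψ => by
    refine (pow_le_pow_iff_left₀ zero_le zero_le two_ne_zero).1 ?_
    have e : (∑ x, h x * ψ x) ^ 2 = ∑ Z, ψ Z * ∑ x, h x * h (Z - x) := by
      rw [sq, sum_mul_sum]
      simp only [mul_sum]
      rw [sum_comm (s := univ) (t := univ) (f := fun Z x => ψ Z * (h x * h (Z - x)))]
      refine sum_congr rfl fun x _ => Eq.symm ?_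
      refine Fintype.sum_equiv (Equiv.subRight x) _ _ fun Z => ?_
      have : ψ Z = ψ x * ψ (Z - x) := by rw [← AddChar.map_add_eq_mul]; simp
      rw [this, Equiv.subRight_apply]; ring
    rw [← map_pow, e, hd']
    exact Valuation.map_sum_le _ fun Z _ => by rw [map_mul, hψ, one_mul]; exact hZ Z
  have hw : (c + 1) * (p * (p - 1)) <
      2 * (0 * (p + c * (p - 1)) + ((p - 1) / 2 + 1) * (p + c * (p - 1))) := by
    have h2 := hp.two_le
    obtain ⟨q, rfl⟩ : ∃ q, p = q + 1 := ⟨p - 1, by omega⟩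
    have h3 : q + 1 ≤ 2 * (q / 2 + 1) := by omega
    rw [Nat.add_sub_cancel, zero_mul, zero_add, ← mul_assoc 2]
    refine lt_of_lt_of_le ?_ (Nat.mul_le_mul_right _ h3)
    nlinarith
  have hc : ∀ ψ : AddChar A ℂ, ψ (-g) ^ p ^ (c + 1) = 1 := fun ψ => by
    rw [← AddChar.map_nsmul_eq_pow, smul_neg, hg, neg_zero, AddChar.map_zero_eq_one]
  have := weight O hp hO (fun x => ⟨_, (O.valuation_le_one_iff _).1 (hle x)⟩) univ
    (fun ψ : AddChar A ℂ => d * (∑ x, h x * ψ x) / Fintype.card A) (fun ψ y => ψ (-y)) d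
    (fun y => ?_) (fun ψ _ => ?_) (fun ψ _ x y => by rw [neg_add, AddChar.map_add_eq_mul])
    (fun ψ _ x => (hψ ψ _).le) hd' g g c c (fun ψ _ => hc ψ) (fun ψ _ => hc ψ) 0 _ hw
  · rw [dd, pow_zero, one_mul] at this
    rw [← this]
    congr 1
    ext x
    exact red_of (hle x)
  · have e : ∑ ψ : AddChar A ℂ, (∑ x, h x * ψ x) * ψ (-y) = Fintype.card A * h y := by
      simp only [sum_mul]
      rw [sum_comm]
      simp only [mul_assoc, ← AddChar.map_add_eq_mul, ← mul_sum, AddChar.sum_apply_eq_ite,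
        ← sub_eq_add_neg, sub_eq_zero]
      simp [mul_comm]
    simp only [div_mul_eq_mul_div, mul_assoc, ← sum_div, ← mul_sum, e]
    field_simp
  · rw [map_div₀, map_mul, div_le_one₀ (zero_lt_iff.2 (by simp))]
    refine le_trans ?_ hcard
    rw [← hd', sq]
    exact mul_le_mul_right (hat ψ) _

theorem const_of_deg {k : Type*} [Field k] [Fact p.Prime] [CharP k p] {u : A} (hu : p • u = 0)
    {f g : A → k} (hfg : f * g = 1) {m : ℕ} (hm : 2 * m < p) (hf : (dl k u ^ (m + 1)) f = 0)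
    (hg : (dl k u ^ (m + 1)) g = 0) (x : A) : f (x + u) = f x := by
  set j : Pl p →+ A := (zhom p u hu).comp (AddMonoidHom.fst _ _) with hj
  have j1 : j (1, 0) = u := by simpa [hj] using zhom_int p u hu 1
  have j2 : j (0, 1) = 0 := by simp [hj]
  have key : ∀ {f : A → k} {i l}, (dl k u ^ (m + 1)) f = 0 →
      D i l (fun z => f (x + j z)) ≠ 0 → i ≤ m ∧ l = 0 := by
    intro f i l hf h
    by_contra hc
    rcases not_and_or.1 hc with hc | hc
    · refine D_mono h (show m + 1 ≤ i by omega) (Nat.zero_le _) ?_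
      rw [D, dd_comp j x _ _ _ _ f, j1]
      ext z; simp [dd, hf]
    · refine D_mono h (Nat.zero_le _) (show 1 ≤ l by omega) ?_
      rw [D, dd_comp j x _ _ _ _ f, j2]
      ext z; simp [dd, dl_apply]
  have e : (fun z => f (x + j z)) * (fun z => g (x + j z)) = 1 := by
    ext z; exact congrFun hfg _
  have hs := sep1 (p := p)
  obtain ⟨i, l, t⟩ := exists_top hs (left_ne_zero_of_mul_eq_one e)
  obtain ⟨i', l', t'⟩ := exists_top hs (right_ne_zero_of_mul_eq_one e)
  have k1 := key hf t.1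
  have k2 := key hg t'.1
  have k3 := corner hs.1 hs.2.1 t t' (by omega) (by omega)
  rw [e] at k3
  have k4 := D_one k3
  obtain ⟨rfl, rfl⟩ : i = 0 ∧ l = 0 := by omega
  have := congrFun (t.max1 hs.1) 0
  simpa [D, dd, dl_apply, j1, sub_eq_zero] using this

theorem line_lt {Γ : Type*} [AddCommGroup Γ] [LinearOrder Γ] [IsOrderedAddMonoid Γ]
    [hp : Fact p.Prime] (h2 : p ≠ 2) (ψ : ZMod p → Γ) {N : Γ} (hN : 0 < N) (h1 : ∀ y, -N ≤ ψ y)
    (c1 : p ≤ (p - 1) / 2 + (univ.filter fun y => ψ y = N).card)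
    (c2 : (∃ y, ψ y = -N) → p ≤ (p - 1) / 2 + (univ.filter fun y => ψ y = -N).card) :
    N < ∑ y, ψ y := by
  obtain ⟨m, hm⟩ := hp.out.odd_of_ne_two h2
  have hp1 := hp.out.one_lt
  have h3 : ∀ y, 0 < ψ y + N := fun y => by
    refine neg_lt_iff_pos_add.1 (lt_of_le_of_ne (h1 y) fun e => ?_)
    have d : Disjoint (univ.filter fun y => ψ y = N) (univ.filter fun y => ψ y = -N) :=
      disjoint_filter.2 fun z _ a b => absurd (a.symm.trans b) (neg_lt_self hN).ne'
    have := card_le_univ ((univ.filter fun y => ψ y = N).disjUnion _ d)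
    rw [card_disjUnion, ZMod.card] at this
    have := c2 ⟨y, e.symm⟩
    omega
  have e : ∑ y, (ψ y + N) = ∑ y, ψ y + p • N := by simp [sum_add_distrib]
  have e2 : ∑ y ∈ univ.filter fun y => ψ y = N, (ψ y + N) =
      (2 * (univ.filter fun y => ψ y = N).card) • N := by
    rw [sum_congr rfl fun y hy => by rw [(mem_filter.1 hy).2], sum_const, ← two_nsmul, smul_smul,
      mul_comm]
  have k : (p + 1) • N < ∑ y, (ψ y + N) := by
    by_cases ha : (univ.filter fun y => ψ y = N) = univ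
    · rw [ha, card_univ, ZMod.card] at e2
      rw [e2]
      exact nsmul_lt_nsmul_left hN (by omega)
    · obtain ⟨y, hy⟩ : ∃ y, y ∉ univ.filter fun y => ψ y = N := by
        by_contra hc
        exact ha (eq_univ_of_forall (by simpa using hc))
      refine lt_of_le_of_lt ?_ (sum_lt_sum_of_subset (subset_univ _) (mem_univ y) hy (h3 y)
        fun z _ _ => (h3 z).le)
      rw [e2]
      exact nsmul_le_nsmul_left hN.le (by omega)
  rw [e, succ_nsmul, add_comm] at k
  exact lt_of_add_lt_add_right k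

end Pool.Agent.StarkC
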