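import Pool.Agent.Lib.MP_ca56d1_nt.C.Ops

set_option linter.unusedSectionVars false

namespace Pool.Agent.StarkC

open Finset

variable {k : Type*} [Field k] {p : ℕ} [Fact p.Prime] [CharP k p]

abbrev Pl (p : ℕ) := ZMod p × ZMod p

def D (i j : ℕ) (u : Pl p → k) : Pl p → k := dd k ((1, 0) : Pl p) (0, 1) i j u

theorem D_D (i j i' j' : ℕ) (u : Pl p → k) : D i j (D i' j' u) = D (i + i') (j + j') u :=
  dd_dd _ _ _ _ _ _ _

theorem D_zero (u : Pl p → k) : D 0 0 u = u := dd_zero _ _ _

theorem D_mono {i j i' j' : ℕ} {u : Pl p → k} (h : D i' j' u ≠ 0) (hi : i ≤ i') (hj : j ≤ j') :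
    D i j u ≠ 0 := fun h' => h (dd_mono h' hi hj)

theorem dl_pow_p (h : Pl p) : dl k h ^ p = 0 := by
  have := dl_pow_char (k := k) p h 1
  rw [pow_one] at this
  have h0 : p • h = 0 := by ext <;> simp
  rw [this, h0, dl, sh_zero, sub_self]

theorem D_lt {i j : ℕ} {u : Pl p → k} (h : D i j u ≠ 0) : i < p ∧ j < p := by
  by_contra hc
  apply h
  rcases not_and_or.1 hc with hc | hc
  · refine dd_mono (i := p) (j := 0) ?_ (not_lt.1 hc) (Nat.zero_le _)
    simp [dd, dl_pow_p]
  · refine dd_mono (i := 0) (j := p) ?_ (Nat.zero_le _) (not_lt.1 hc)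
    simp [dd, dl_pow_p]

theorem sh_fix2 {u : Pl p → k} (h1 : D 1 0 u = 0) (h2 : D 0 1 u = 0) (a : Pl p) :
    sh k a u = u := by
  have e : a = a.1.val • ((1, 0) : Pl p) + a.2.val • ((0, 1) : Pl p) := by ext <;> simp
  have h1' : dl k ((1, 0) : Pl p) u = 0 := by simpa [D, dd] using h1
  have h2' : dl k ((0, 1) : Pl p) u = 0 := by simpa [D, dd] using h2
  rw [e, sh_add, Module.End.mul_apply, sh_fix h2', sh_fix h1']

theorem const_ne {u : Pl p → k} (h1 : D 1 0 u = 0) (h2 : D 0 1 u = 0) (h : u ≠ 0) : u 0 ≠ 0 := by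
  intro h0
  apply h
  ext a
  have := congrFun (sh_fix2 h1 h2 a) 0
  simpa [h0] using this

def IsTop (α β : ℕ) (u : Pl p → k) (i j : ℕ) : Prop :=
  D i j u ≠ 0 ∧ ∀ r t, D r t u ≠ 0 → (r = i ∧ t = j) ∨ α * r + β * t < α * i + β * j

def Sep (p α β : ℕ) : Prop :=
  0 < α ∧ 0 < β ∧ ∀ r t i j, r < p → t < p → i < p → j < p → α * r + β * t = α * i + β * j →
    r = i ∧ t = j

theorem exists_top {α β : ℕ} (hs : Sep p α β) {u : Pl p → k} (hu : u ≠ 0) :
    ∃ i j, IsTop α β u i j := by
  classical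
  obtain ⟨m, hm, hmax⟩ := exists_max_image
    ((range p ×ˢ range p).filter fun m => D m.1 m.2 u ≠ 0) (fun m => α * m.1 + β * m.2)
    ⟨(0, 0), by simpa [D_zero, (Fact.out : p.Prime).pos] using hu⟩
  have hm' := (mem_filter.1 hm).2
  refine ⟨m.1, m.2, hm', fun r t h => ?_⟩
  have := hmax (r, t) (by simpa [D_lt h] using h)
  rcases this.eq_or_lt with e | e
  · exact Or.inl (hs.2.2 _ _ _ _ (D_lt h).1 (D_lt h).2 (D_lt hm').1 (D_lt hm').2 e)
  · exact Or.inr e

theorem IsTop.shift {α β : ℕ} {u : Pl p → k} {i j : ℕ} (s t : ℕ)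
    (h : IsTop α β u (i + s) (j + t)) : IsTop α β (D s t u) i j := by
  refine ⟨by rw [D_D]; exact h.1, fun r q hq => ?_⟩
  rw [D_D] at hq
  rcases h.2 _ _ hq with e | e
  · left; omega
  · right; rw [mul_add, mul_add, mul_add, mul_add] at e; omega

theorem IsTop.max1 {α β : ℕ} (hα : 0 < α) {u : Pl p → k} {i j : ℕ} (h : IsTop α β u i j) :
    D (i + 1) j u = 0 := by
  by_contra hc
  rcases h.2 _ _ hc with e | e
  · omega
  · rw [mul_add] at e; omega

theorem IsTop.max2 {α β : ℕ} (hβ : 0 < β) {u : Pl p → k} {i j : ℕ} (h : IsTop α β u i j) :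
    D i (j + 1) u = 0 := by
  by_contra hc
  rcases h.2 _ _ hc with e | e
  · omega
  · rw [mul_add] at e; omega

theorem corner {α β : ℕ} (hα : 0 < α) (hβ : 0 < β) {u w : Pl p → k} {i j i' j' : ℕ}
    (hu : IsTop α β u i j) (hw : IsTop α β w i' j') (hi : i + i' < p) (hj : j + j' < p) :
    D (i + i') (j + j') (u * w) ≠ 0 := by
  have key : D (i + i') (j + j') (u * w) = ((j + j').choose j * (i + i').choose i) •
      (D i j u * sh k (i • ((1, 0) : Pl p) + j • ((0, 1) : Pl p)) (D i' j' w)) := by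
    rw [D, dd_mul_fun, sum_eq_single (j, j'), sum_eq_single (i, i')]
    · rfl
    · intro a ha hne
      have ha' := mem_antidiagonal.1 ha
      by_cases h1 : D a.1 j u = 0
      · rw [D] at h1; simp [h1]
      by_cases h2 : D a.2 j' w = 0
      · rw [D] at h2; simp [h2]
      exfalso
      have e : α * a.1 + α * a.2 = α * i + α * i' := by rw [← mul_add, ← mul_add, ha']
      rcases hu.2 _ _ h1 with e1 | e1 <;> rcases hw.2 _ _ h2 with e2 | e2
      · exact hne (Prod.ext e1.1 e2.1)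
      · rw [e1.1] at e; omega
      · rw [e2.1] at e; omega
      · omega
    · simp
    · intro b hb hne
      refine sum_eq_zero fun a ha => ?_
      have ha' := mem_antidiagonal.1 ha
      have hb' := mem_antidiagonal.1 hb
      by_cases h1 : D a.1 b.1 u = 0
      · rw [D] at h1; simp [h1]
      by_cases h2 : D a.2 b.2 w = 0
      · rw [D] at h2; simp [h2]
      exfalso
      have e : α * a.1 + α * a.2 = α * i + α * i' := by rw [← mul_add, ← mul_add, ha']
      have e' : β * b.1 + β * b.2 = β * j + β * j' := by rw [← mul_add, ← mul_add, hb']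
      rcases hu.2 _ _ h1 with e1 | e1 <;> rcases hw.2 _ _ h2 with e2 | e2
      · exact hne (Prod.ext e1.2 e2.2)
      · rw [e1.1] at e; rw [e1.2] at e'; omega
      · rw [e2.1] at e; rw [e2.2] at e'; omega
      · omega
    · simp
  have c1 : D i j u 0 ≠ 0 := const_ne (by rw [D_D, add_comm, zero_add]; exact hu.max1 hα)
    (by rw [D_D, add_comm 1, zero_add]; exact hu.max2 hβ) hu.1
  have d1 : D 1 0 (D i' j' w) = 0 := by rw [D_D, add_comm, zero_add]; exact hw.max1 hα
  have d2 : D 0 1 (D i' j' w) = 0 := by rw [D_D, add_comm 1, zero_add]; exact hw.max2 hβ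
  have c2 := const_ne d1 d2 hw.1
  have c3 : ∀ a b : ℕ, a + b < p → (((a + b).choose a : ℕ) : k) ≠ 0 := by
    intro a b h
    rw [Ne, CharP.cast_eq_zero_iff k p]
    intro hd
    have := Nat.add_choose_mul_factorial_mul_factorial b a
    rw [add_comm b a] at this
    have h2 : p ∣ (a + b).factorial := by
      rw [← this, mul_assoc]; exact hd.mul_right _
    rw [(Fact.out : p.Prime).dvd_factorial] at h2; omega
  rw [key, sh_fix2 d1 d2]
  intro h
  have := congrFun h 0
  simp only [Pi.smul_apply, Pi.mul_apply, nsmul_eq_mul, Nat.cast_mul, Pi.zero_apply,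
    mul_eq_zero] at this
  rcases this with (h | h) | h | h
  exacts [c3 _ _ hj h, c3 _ _ hi h, c1 h, c2 h]

def Low (u w : Pl p → k) : Prop :=
  ∀ a b : Pl p, ∀ i j, i + j = p → D i j (sh k a u * sh k b w) = 0

theorem Low.symm {u w : Pl p → k} (h : Low u w) : Low w u := fun a b i j hij => by
  rw [mul_comm]; exact h b a i j hij

theorem Low.dl {u w : Pl p → k} (h : Low u w) (s : Pl p) : Low (dl k s u) w := by
  intro a b i j hij
  have : sh k a (StarkC.dl k s u) = sh k (a + s) u - sh k a u := by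
    ext x; simp [dl_apply, add_assoc]
  have h1 := h (a + s) b i j hij
  have h2 := h a b i j hij
  rw [this, sub_mul, D, map_sub]
  rw [D] at h1 h2
  rw [h1, h2, sub_zero]

theorem Low.D {u w : Pl p → k} (h : Low u w) (s t : ℕ) : Low (D s t u) w := by
  have key : ∀ (e : Pl p) (n : ℕ) (u : Pl p → k), Low u w → Low ((StarkC.dl k e ^ n) u) w := by
    intro e n
    induction n with
    | zero => intro u h; simpa using h
    | succ n ih => intro u h; rw [pow_succ', Module.End.mul_apply]; exact (ih u h).dl e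
  exact key _ _ _ (key _ _ _ h)

theorem Low.top {α β : ℕ} (hα : 0 < α) (hβ : 0 < β) {u w : Pl p → k} (h : Low u w)
    {i j i' j' : ℕ} (hu : IsTop α β u i j) (hw : IsTop α β w i' j') :
    min (p - 1) (i + i') + min (p - 1) (j + j') < p := by
  by_contra hc
  have hp := (Fact.out : p.Prime).two_le
  obtain ⟨I, J, hIJ, hI, hJ, hI', hJ'⟩ : ∃ I J, I + J = p ∧ I < p ∧ J < p ∧ I ≤ i + i' ∧
      J ≤ j + j' := ⟨min (p - 1) (i + i'), p - min (p - 1) (i + i'), by omega, by omega, by omega,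
        by omega, by omega⟩
  obtain ⟨a, a', s, s', rfl, rfl, rfl⟩ : ∃ a a' s s', i = a + s ∧ i' = a' + s' ∧ I = a + a' :=
    ⟨min i I, I - min i I, i - min i I, i' - (I - min i I), by omega, by omega, by omega⟩
  obtain ⟨b, b', t, t', rfl, rfl, rfl⟩ : ∃ b b' t t', j = b + t ∧ j' = b' + t' ∧ J = b + b' :=
    ⟨min j J, J - min j J, j - min j J, j' - (J - min j J), by omega, by omega, by omega⟩
  have := ((h.D s t).symm.D s' t').symm 0 0 _ _ hIJ
  rw [sh_zero] at this
  exact corner hα hβ (hu.shift s t) (hw.shift s' t') hI hJ this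

theorem top_eta {α β : ℕ} (hα : 0 < α) (hβ : 0 < β) {u : Pl p → k} {η η' : ZMod p}
    (hs : ∀ z : Pl p, u (η * z.1, η' * z.2) = u z) {s t i j : ℕ}
    (h : IsTop α β (D s t u) i j) : η ^ (i + s) * η' ^ (j + t) = 1 := by
  have h0 := h.1
  have h1 := h.max1 hα
  have h2 := h.max2 hβ
  rw [D_D] at h0 h1 h2
  rw [show i + 1 + s = i + s + 1 by ring] at h1
  rw [show j + 1 + t = j + t + 1 by ring] at h2
  generalize i + s = m at *
  generalize j + t = n at *
  let g : Pl p →+ Pl p := (AddMonoidHom.mulLeft η).prodMap (AddMonoidHom.mulLeft η')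
  have e1 := dd_comp (k := k) g 0 (1, 0) (0, 1) m n u
  have e2 : (fun y => u (0 + g y)) = u := by ext y; rw [zero_add]; exact hs y
  have e3 : g (1, 0) = η.val • ((1, 0) : Pl p) := by ext <;> simp [g]
  have e4 : g (0, 1) = η'.val • ((0, 1) : Pl p) := by ext <;> simp [g]
  rw [e2, e3, e4, dd_nsmul h1 h2] at e1
  have c : D m n u 0 ≠ 0 := const_ne (by rw [D_D, add_comm, zero_add]; exact h1)
    (by rw [D_D, add_comm 1, zero_add]; exact h2) h0
  have e5 := congrFun e1 0
  simp only [map_zero, add_zero, Pi.smul_apply, smul_eq_mul] at e5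
  have e6 : ((η.val : k)) ^ m * (η'.val : k) ^ n = 1 := by
    refine mul_right_cancel₀ c ?_
    rw [one_mul]; exact e5.symm
  refine (ZMod.castHom (dvd_refl p) k).injective ?_
  simpa [ZMod.castHom_apply] using e6

end Pool.Agent.StarkC
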