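import Pool.Agent.Lib.MP_ca56d1_nt.C.Corner

namespace Pool.Agent.StarkC

def TopS (α β : ℕ) (R : ℕ → ℕ → Prop) (s t i j : ℕ) : Prop :=
  R (i + s) (j + t) ∧ ∀ r q, R (r + s) (q + t) → (r = i ∧ q = j) ∨ α * r + β * q < α * i + β * j

theorem wt_le {p a b c d : ℕ} (h : (p + 1) * a + p * b ≤ (p + 1) * c + p * d) (hc : c < p) :
    a + b ≤ c + d := by
  by_contra hn
  have : p * (c + d + 1) ≤ p * (a + b) := Nat.mul_le_mul_left _ (by omega)
  nlinarith

theorem pure_step {p : ℕ} {R R' : ℕ → ℕ → Prop} (hb : ∀ i j, R i j → i < p ∧ j < p)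
    (hex : ∀ s, R s 0 → ∃ i j, TopS (p + 1) p R s 0 i j) {d d' I I' s : ℕ}
    (H : ∀ i j, TopS (p + 1) p R s 0 i j → min (p - 1) (i + 0) + min (p - 1) (j + d') < p)
    (hI : R I 0) (hs : R s 0) (hsI : s + 1 ≤ I) (hp : p ≤ I + I') (h1 : I' + s ≤ d')
    (ih : ∀ r q, R r q → s ≤ r → r + q + s ≤ d) :
    ∀ r q, R r q → s + 1 ≤ r → r + q + (s + 1) ≤ d := by
  obtain ⟨i, j, ht⟩ := hex s hs
  have hi := (hb _ _ ht.1).1
  have h2 : I - s + 0 ≤ i + j := by
    refine wt_le (p := p) ?_ (by omega)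
    rcases ht.2 (I - s) 0 (by rw [Nat.sub_add_cancel (by omega)]; exact hI) with e | e
    · rw [e.1, e.2]
    · exact e.le
  have h3 := H i j ht
  have hi0 : i = 0 := by omega
  subst hi0
  intro r q hr hsr
  have h4 := ih _ _ ht.1 (by omega)
  rcases ht.2 (r - s) q (by rw [Nat.sub_add_cancel (by omega)]; exact hr) with e | e
  · omega
  · have : r - s + q < j := by
      by_contra hn
      have : p * j ≤ p * (r - s + q) := Nat.mul_le_mul_left _ (by omega)
      nlinarith
    omega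

theorem pure_false {p : ℕ} {R R' : ℕ → ℕ → Prop} (hb : ∀ i j, R i j → i < p ∧ j < p)
    (hb' : ∀ i j, R' i j → i < p ∧ j < p)
    (hd : ∀ s i, R i 0 → s ≤ i → R s 0) (hd' : ∀ s i, R' i 0 → s ≤ i → R' s 0)
    (hex : ∀ s, R s 0 → ∃ i j, TopS (p + 1) p R s 0 i j)
    (hex' : ∀ s, R' s 0 → ∃ i j, TopS (p + 1) p R' s 0 i j)
    (H : ∀ s s' i j i' j', TopS (p + 1) p R s 0 i j → TopS (p + 1) p R' s' 0 i' j' →
      min (p - 1) (i + i') + min (p - 1) (j + j') < p)
    {d d' I I' : ℕ} (hI : R I 0) (hI' : R' I' 0) (hp : p ≤ I + I')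
    (ht : TopS (p + 1) p R 0 0 0 d) (ht' : TopS (p + 1) p R' 0 0 0 d') : False := by
  have base : ∀ {R : ℕ → ℕ → Prop} {d : ℕ}, TopS (p + 1) p R 0 0 0 d → 0 < p →
      ∀ r q, R r q → 0 ≤ r → r + q + 0 ≤ d := by
    intro R d ht hp r q hr _
    have : r + q ≤ 0 + d := by
      refine wt_le (p := p) ?_ hp
      rcases ht.2 r q hr with e | e
      · rw [e.1, e.2]
      · exact e.le
    omega
  have hp0 : 0 < p := by have := hb _ _ hI; omega
  have key : ∀ s, s ≤ I → s ≤ I' → (∀ r q, R r q → s ≤ r → r + q + s ≤ d) ∧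
      ∀ r q, R' r q → s ≤ r → r + q + s ≤ d' := by
    intro s
    induction s with
    | zero => intro _ _; exact ⟨base ht hp0, base ht' hp0⟩
    | succ s ih =>
      intro h1 h2
      obtain ⟨a, a'⟩ := ih (by omega) (by omega)
      have b := a I 0 hI (by omega)
      have b' := a' I' 0 hI' (by omega)
      refine ⟨pure_step (R' := R') hb hex (d' := d') (I' := I') (fun i j h => H _ _ _ _ _ _ h ht')
        hI (hd _ _ hI (by omega)) h1 hp (by omega) a,
        pure_step (R' := R) hb' hex' (d' := d) (I' := I) (fun i j h => ?_)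
        hI' (hd' _ _ hI' (by omega)) h2 (by omega) (by omega) a'⟩
      have := H _ _ _ _ _ _ ht h
      omega
  have e := (hb _ _ ht.1).2
  have e' := (hb' _ _ ht'.1).2
  rcases le_total I I' with h | h
  · have := (key I le_rfl h).2 I' 0 hI' h; omega
  · have := (key I' h le_rfl).1 I 0 hI h; omega

variable {k : Type*} [Field k] {p : ℕ} [Fact p.Prime] [CharP k p]

theorem top_iff {α β : ℕ} {u : Pl p → k} {s t i j : ℕ} :
    IsTop α β (D s t u) i j ↔ TopS α β (fun r q => D r q u ≠ 0) s t i j := by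
  simp only [IsTop, TopS, D_D]

theorem top_iff' {α β : ℕ} {u : Pl p → k} {s t i j : ℕ} :
    IsTop α β (D s t u) i j ↔ TopS β α (fun r q => D q r u ≠ 0) t s j i := by
  simp only [IsTop, TopS, D_D]
  refine and_congr Iff.rfl ⟨fun h r q hq => ?_, fun h r q hq => ?_⟩
  · have := h q r hq; omega
  · have := h q r hq; omega

theorem sep1 : Sep p (p + 1) p := by
  have hp := (Fact.out : p.Prime).pos
  refine ⟨by omega, hp, fun r t i j h1 _ h3 _ e => ?_⟩
  have a := wt_le e.le h3
  have b := wt_le e.ge h1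
  have c : r + t = i + j := by omega
  have : p * (r + t) + r = p * (i + j) + i := by nlinarith
  rw [c] at this
  omega

theorem Sep.swap {p α β : ℕ} (h : Sep p α β) : Sep p β α :=
  ⟨h.2.1, h.1, fun r t i j h1 h2 h3 h4 e => (h.2.2 t r j i h2 h1 h4 h3 (by omega)).symm⟩

theorem sep3 : Sep p p 1 := by
  have hp := (Fact.out : p.Prime).pos
  refine ⟨hp, one_pos, fun r t i j _ h2 _ h4 e => ?_⟩
  have : r = i := by
    rcases lt_trichotomy r i with h | h | h
    · have : p * (r + 1) ≤ p * i := Nat.mul_le_mul_left _ h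
      nlinarith
    · exact h
    · have : p * (i + 1) ≤ p * r := Nat.mul_le_mul_left _ h
      nlinarith
  subst this
  omega

theorem D_one {i j : ℕ} (h : D i j (1 : Pl p → k) ≠ 0) : i = 0 ∧ j = 0 := by
  by_contra hc
  apply h
  rcases not_and_or.1 hc with hc | hc
  · refine dd_mono (i := 1) (j := 0) ?_ (by omega) (Nat.zero_le _)
    ext x; simp [dd, dl_apply]
  · refine dd_mono (i := 0) (j := 1) ?_ (Nat.zero_le _) (by omega)
    ext x; simp [dd, dl_apply]

theorem top_type {α β : ℕ} (hα : 0 < α) (hβ : 0 < β) {f g : Pl p → k} (hfg : f * g = 1)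
    (hL : Low f g) {i j i' j' : ℕ} (hf : IsTop α β f i j) (hg : IsTop α β g i' j')
    (hne : D 1 0 f ≠ 0 ∨ D 0 1 f ≠ 0) :
    (p ≤ i + i' ∧ j = 0 ∧ j' = 0) ∨ (p ≤ j + j' ∧ i = 0 ∧ i' = 0) := by
  have hp := (Fact.out : p.Prime).two_le
  have h1 := hL.top hα hβ hf hg
  by_cases a : i + i' < p
  · by_cases b : j + j' < p
    · have := corner hα hβ hf hg a b
      rw [hfg] at this
      have := D_one this
      obtain ⟨rfl, rfl⟩ : i = 0 ∧ j = 0 := by omega
      rcases hne with h | h <;> have := hf.2 _ _ h <;> omega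
    · omega
  · omega

theorem IsTop.ge {α β : ℕ} {u : Pl p → k} {i j r t : ℕ} (h : IsTop α β u i j)
    (hr : D r t u ≠ 0) : α * r + β * t ≤ α * i + β * j := by
  rcases h.2 _ _ hr with e | e
  · rw [e.1, e.2]
  · exact e.le

theorem dichotomy {f g : Pl p → k} (hfg : f * g = 1) (hL : Low f g) {η η' : ZMod p}
    (hη : η * η' = 1) (h2 : η ^ 2 ≠ 1) (hf : ∀ z : Pl p, f (η * z.1, η' * z.2) = f z) :
    D 1 0 f = 0 ∨ D 0 1 f = 0 := by
  by_contra hc
  rw [not_or] at hc
  obtain ⟨hx, hy⟩ := hc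
  have hp := (Fact.out : p.Prime).two_le
  have hfg' : ∀ z, f z * g z = 1 := fun z => congrFun hfg z
  have hg : ∀ z : Pl p, g (η * z.1, η' * z.2) = g z := fun z => by
    have a := hfg' (η * z.1, η' * z.2)
    rw [hf z, ← hfg' z] at a
    exact mul_left_cancel₀ (left_ne_zero_of_mul_eq_one (hfg' z)) a
  have f0 : f ≠ 0 := fun h => by simpa [h] using hfg' 0
  have g0 : g ≠ 0 := fun h => by simpa [h] using hfg' 0
  have typ : ∀ {α β : ℕ}, Sep p α β → ∃ i j i' j', IsTop α β f i j ∧ IsTop α β g i' j' ∧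
      ((p ≤ i + i' ∧ j = 0 ∧ j' = 0) ∨ (p ≤ j + j' ∧ i = 0 ∧ i' = 0)) := by
    intro α β hs
    obtain ⟨i, j, h⟩ := exists_top hs f0
    obtain ⟨i', j', h'⟩ := exists_top hs g0
    exact ⟨i, j, i', j', h, h', top_type hs.1 hs.2.1 hfg hL h h' (Or.inl hx)⟩
  obtain ⟨I, I', hI, hI', hII⟩ : ∃ I I', D I 0 f ≠ 0 ∧ D I' 0 g ≠ 0 ∧ p ≤ I + I' := by
    obtain ⟨i, j, i', j', h, h', e | e⟩ := typ (sep3 (p := p))
    · obtain ⟨e, rfl, rfl⟩ := e
      exact ⟨i, i', h.1, h'.1, e⟩
    · obtain ⟨-, rfl, rfl⟩ := e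
      have := h.ge hx
      have := (D_lt h.1).2
      omega
  obtain ⟨J, J', hJ, hJ', hJJ⟩ : ∃ J J', D 0 J f ≠ 0 ∧ D 0 J' g ≠ 0 ∧ p ≤ J + J' := by
    obtain ⟨i, j, i', j', h, h', e | e⟩ := typ (sep3 (p := p)).swap
    · obtain ⟨-, rfl, rfl⟩ := e
      have := h.ge hy
      have := (D_lt h.1).1
      omega
    · obtain ⟨e, rfl, rfl⟩ := e
      exact ⟨j, j', h.1, h'.1, e⟩
  obtain ⟨d, j, d', j', t1, t1', e | e⟩ := typ (sep1 (p := p))
  · obtain ⟨e, rfl, rfl⟩ := e
    obtain ⟨i, c, i', c', t2, t2', e' | e'⟩ := typ (sep1 (p := p)).swap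
    · obtain ⟨e', rfl, rfl⟩ := e'
      refine pure_false (p := p) (R := fun r q => D q r f ≠ 0) (R' := fun r q => D q r g ≠ 0)
        (fun i j h => (D_lt h).symm) (fun i j h => (D_lt h).symm)
        (fun s i h hs => D_mono h le_rfl hs) (fun s i h hs => D_mono h le_rfl hs)
        (fun s h => ?_) (fun s h => ?_) (fun s s' a b a' b' h h' => ?_) hJ hJ' hJJ
        (top_iff'.1 (by rwa [D_zero])) (top_iff'.1 (by rwa [D_zero]))
      · obtain ⟨a, b, h⟩ := exists_top (sep1 (p := p)).swap h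
        exact ⟨b, a, top_iff'.1 h⟩
      · obtain ⟨a, b, h⟩ := exists_top (sep1 (p := p)).swap h
        exact ⟨b, a, top_iff'.1 h⟩
      · have := (((hL.D 0 s).symm.D 0 s').symm).top (by omega) (by omega) (top_iff'.2 h)
          (top_iff'.2 h')
        omega
    · obtain ⟨e', rfl, rfl⟩ := e'
      have hd := D_lt t1.1
      have hd' := D_lt t1'.1
      have hc := D_lt t2.1
      have hc' := D_lt t2'.1
      have c1 : c = d := by
        have a := wt_le (t1.ge t2.1) hd.1
        have b := wt_le (p := p) (a := 0) (b := d) (c := c) (d := 0)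
          (by have := t2.ge t1.1; omega) hc.2
        omega
      have c2 : c' = d' := by
        have a := wt_le (t1'.ge t2'.1) hd'.1
        have b := wt_le (p := p) (a := 0) (b := d') (c := c') (d := 0)
          (by have := t2'.ge t1'.1; omega) hc'.2
        omega
      subst c1 c2
      have n1 : η ^ c = 1 := by
        simpa using top_eta (s := 0) (t := 0) (α := p + 1) (β := p) (i := c) (j := 0)
          (by omega) (by omega) hf (by rwa [D_zero])
      have n2 : η ^ c' = 1 := by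
        simpa using top_eta (s := 0) (t := 0) (α := p + 1) (β := p) (i := c') (j := 0)
          (by omega) (by omega) hg (by rwa [D_zero])
      obtain ⟨r, q, t3⟩ := exists_top (sep1 (p := p)).swap hx
      have n3 := top_eta (by omega) (by omega) hf t3
      have h3 : D (r + 1) q f ≠ 0 := by have := t3.1; rwa [D_D] at this
      have hr := D_lt h3
      have s1 : r + 1 + q = c := by
        have a := wt_le (t1.ge h3) hd.1
        have b0 : D (c - 1) 0 (D 1 0 f) ≠ 0 := by
          rw [D_D, Nat.sub_add_cancel (by omega)]; exact t1.1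
        have b := wt_le (p := p) (a := 0) (b := c - 1) (c := q) (d := r)
          (by have := t3.ge b0; omega) hr.2
        omega
      have h4 := (hL.D 1 0).top (by omega) (by omega) t3 t2'
      by_cases hr0 : r = 0
      · subst hr0
        apply h2
        have : η ^ 2 * η ^ c * η' ^ c = η ^ c * (η ^ (0 + 1) * η' ^ (q + 0)) * (η * η') := by
          rw [← s1]; ring
        rw [mul_assoc, ← mul_pow, hη, n1, n3] at this
        simpa using this
      · have s2 : c + c' = p := by omega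
        apply h2
        have : η ^ (c + c') = 1 := by rw [pow_add, n1, n2, one_mul]
        rw [s2, ZMod.pow_card] at this
        simp [this]
  · obtain ⟨e, rfl, rfl⟩ := e
    refine pure_false (p := p) (R := fun r q => D r q f ≠ 0) (R' := fun r q => D r q g ≠ 0)
      (fun i j h => D_lt h) (fun i j h => D_lt h)
      (fun s i h hs => D_mono h hs le_rfl) (fun s i h hs => D_mono h hs le_rfl)
      (fun s h => ?_) (fun s h => ?_) (fun s s' a b a' b' h h' => ?_) hI hI' hII
      (top_iff.1 (by rwa [D_zero])) (top_iff.1 (by rwa [D_zero]))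
    · obtain ⟨a, b, h⟩ := exists_top (sep1 (p := p)) h
      exact ⟨a, b, top_iff.1 h⟩
    · obtain ⟨a, b, h⟩ := exists_top (sep1 (p := p)) h
      exact ⟨a, b, top_iff.1 h⟩
    · exact (((hL.D s 0).symm.D s' 0).symm).top (by omega) (by omega) (top_iff.2 h) (top_iff.2 h')

theorem uniform {f g f' g' : Pl p → k} (hfg : f * g = 1) (hfg' : f' * g' = 1)
    (h00 : Low f g) (h11 : Low f' g') (h01 : Low f g') (h10 : Low f' g)
    (hx : D 1 0 f = 0) (hy : D 0 1 f' = 0) : D 0 1 f = 0 ∨ D 1 0 f' = 0 := by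
  by_contra hc
  rw [not_or] at hc
  have hp := (Fact.out : p.Prime).two_le
  have nz : ∀ {u w : Pl p → k}, u * w = 1 → u ≠ 0 ∧ w ≠ 0 := fun h =>
    ⟨fun e => by simpa [e] using congrFun h 0, fun e => by simpa [e] using congrFun h 0⟩
  have hs := sep1 (p := p)
  obtain ⟨i, j, t⟩ := exists_top hs (nz hfg).1
  obtain ⟨i', j', t'⟩ := exists_top hs (nz hfg).2
  obtain ⟨a, b, u⟩ := exists_top hs (nz hfg').1
  obtain ⟨a', b', u'⟩ := exists_top hs (nz hfg').2
  have e1 := top_type hs.1 hs.2.1 hfg h00 t t' (Or.inr hc.1)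
  have e2 := top_type hs.1 hs.2.1 hfg' h11 u u' (Or.inl hc.2)
  have i0 : i = 0 := by
    by_contra h
    exact D_mono t.1 (show 1 ≤ i by omega) (Nat.zero_le _) hx
  have b0 : b = 0 := by
    by_contra h
    exact D_mono u.1 (Nat.zero_le _) (show 1 ≤ b by omega) hy
  have e3 := h01.top hs.1 hs.2.1 t u'
  have e4 := h10.top hs.1 hs.2.1 u t'
  have := D_lt t.1
  have := D_lt t'.1
  have := D_lt u.1
  have := D_lt u'.1
  omega

end Pool.Agent.StarkC
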