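import Pool.Agent.Lib.MP_ca56d1_nt.C.Model
import Pool.Agent.Lib.MP_ca56d1_nt.C.Fin
import Pool.Agent.Lib.MP_ca56d1_nt.B.St

set_option linter.unusedSectionVars false
set_option linter.style.haveILetI false

namespace Pool.Agent.RM

open Finset StarkC

variable {K : Type*} [Field K] [CharZero K] {σ σ' : K →+* ℝ} {ε : K} {L : Submodule ℤ K}

def sharp (ε : K) (L : Submodule ℤ K) : Submodule ℤ K := L.comap (LinearMap.mulLeft ℤ (ε - 1))

theorem mem_sharp {x : K} : x ∈ sharp ε L ↔ (ε - 1) * x ∈ L := Iff.rfl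

abbrev GG (ε : K) (L : Submodule ℤ K) := sharp ε L ⧸ L.submoduleOf (sharp ε L)

def cl (x : K) (hx : (ε - 1) * x ∈ L) : GG ε L := Submodule.Quotient.mk ⟨x, hx⟩

noncomputable def lf {α : Type*} (φ : K → α) (a : GG ε L) : α := φ (Quotient.out a : sharp ε L)

theorem cl_surj (a : GG ε L) : ∃ x hx, a = cl x hx := by
  obtain ⟨⟨x, hx⟩, rfl⟩ := Submodule.Quotient.mk_surjective _ a
  exact ⟨x, hx, rfl⟩

theorem cl_eq {x y : K} {hx : (ε - 1) * x ∈ L} {hy : (ε - 1) * y ∈ L} :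
    cl x hx = cl y hy ↔ x - y ∈ L := Submodule.Quotient.eq _

theorem cl_eq_zero {x : K} {hx : (ε - 1) * x ∈ L} : cl x hx = 0 ↔ x ∈ L :=
  Submodule.Quotient.mk_eq_zero _

theorem shp_add {x y : K} (hx : (ε - 1) * x ∈ L) (hy : (ε - 1) * y ∈ L) :
    (ε - 1) * (x + y) ∈ L := by rw [mul_add]; exact L.add_mem hx hy

theorem shp_neg {x : K} (hx : (ε - 1) * x ∈ L) : (ε - 1) * (-x) ∈ L := by
  rw [mul_neg]; exact L.neg_mem hx

theorem shp_int {x : K} (hx : (ε - 1) * x ∈ L) (n : ℤ) : (ε - 1) * (n * x) ∈ L := by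
  rw [mul_left_comm, ← zsmul_eq_mul]; exact L.smul_mem n hx

theorem shp_nat {x : K} (hx : (ε - 1) * x ∈ L) (n : ℕ) : (ε - 1) * (n * x) ∈ L := by
  simpa using shp_int hx n

theorem cl_add {x y : K} (hx : (ε - 1) * x ∈ L) (hy : (ε - 1) * y ∈ L) :
    cl x hx + cl y hy = cl (x + y) (shp_add hx hy) := rfl

theorem cl_neg {x : K} (hx : (ε - 1) * x ∈ L) : -cl x hx = cl (-x) (shp_neg hx) := rfl

theorem cl_zsmul {x : K} (hx : (ε - 1) * x ∈ L) (n : ℤ) :
    n • cl x hx = cl (n * x) (shp_int hx n) := by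
  rw [cl, ← Submodule.Quotient.mk_smul]; congr 1; ext; simp

theorem cl_nsmul {x : K} (hx : (ε - 1) * x ∈ L) (n : ℕ) :
    n • cl x hx = cl (n * x) (shp_nat hx n) := by
  rw [← natCast_zsmul, cl_zsmul]; simp

theorem lf_cl {α : Type*} {φ : K → α}
    (h : ∀ x y, (ε - 1) * x ∈ L → (ε - 1) * y ∈ L → x - y ∈ L → φ x = φ y) {x : K}
    (hx : (ε - 1) * x ∈ L) : lf φ (cl x hx) = φ x := by
  refine h _ _ (Quotient.out (cl x hx) : sharp ε L).2 hx ?_
  have : Submodule.Quotient.mk (Quotient.out (cl x hx) : sharp ε L) = cl x hx := Quotient.out_eq _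
  exact (Submodule.Quotient.eq (L.submoduleOf (sharp ε L))).1 this

theorem Fm_per {x y : K} (h : x - y ∈ L) : Fm σ σ' ε L x = Fm σ σ' ε L y := by
  have : coset L x = coset L y := by
    ext z
    change z - x ∈ L ↔ z - y ∈ L
    rw [show z - y = z - x + (x - y) by ring, L.add_mem_iff_left h]
  rw [Fm, Fm, this]

theorem Fp_per {x y : K} (h : x - y ∈ L) : Fp σ σ' ε L x = Fp σ σ' ε L y := by
  have : x ∈ L ↔ y ∈ L := by rw [show x = y + (x - y) by ring, L.add_mem_iff_left h]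
  rw [Fp, Fp, Fm_per h]
  by_cases e : y ∈ L
  · rw [if_pos e, if_pos (this.2 e)]
  · rw [if_neg e, if_neg fun c => e (this.1 c)]

theorem Fm_ne (x : K) : Fm σ σ' ε L x ≠ 0 := Complex.exp_ne_zero _

theorem lf_Fm {x : K} (hx : (ε - 1) * x ∈ L) : lf (Fm σ σ' ε L) (cl x hx) = Fm σ σ' ε L x :=
  lf_cl (fun _ _ _ _ h => Fm_per h) hx

theorem lf_Fp {x : K} (hx : (ε - 1) * x ∈ L) : lf (Fp σ σ' ε L) (cl x hx) = Fp σ σ' ε L x :=
  lf_cl (fun _ _ _ _ h => Fp_per h) hx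

theorem ELat.pow_mem (hL : ELat ε L) (n : ℕ) (y : K) : ε ^ n * y ∈ L ↔ y ∈ L := by
  induction n with
  | zero => simp
  | succ n ih => rw [pow_succ', mul_assoc, hL.stab, ih]

theorem ELat.pow (hL : ELat ε L) (n : ℕ) : ELat (ε ^ n) L := ⟨hL.fg, hL.full, hL.pow_mem n⟩

theorem ELat.sharp_of_mem (hL : ELat ε L) {y : K} (hy : y ∈ L) : (ε - 1) * y ∈ L := by
  rw [sub_mul, one_mul]; exact L.sub_mem ((hL.stab y).2 hy) hy

theorem ELat.sharp_pow (hL : ELat ε L) {x : K} (hx : (ε - 1) * x ∈ L) (n : ℕ) :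
    (ε ^ n - 1) * x ∈ L := by
  rw [← geom_sum_mul, mul_assoc, sum_mul]
  exact L.sum_mem fun i _ => (hL.pow_mem i _).2 hx

theorem Fm_pow (hA : PartA σ σ') (hε : Eps σ σ' ε) (hL : ELat ε L) {x : K}
    (hx : (ε - 1) * x ∈ L) {n : ℕ} (hn : n ≠ 0) : Fm σ σ' (ε ^ n) L x = Fm σ σ' ε L x ^ n := by
  rw [Fm, Fm, hA.pow ε _ hε (coset_lat hL x) (coset_stab hL hx) n hn, Complex.exp_nat_mul]

theorem val_quad (O : ValuationSubring ℂ) {x : ℂ} {a : ℕ} (h : x ^ 2 = a * x - 1) :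
    O.valuation x ≤ 1 := by
  by_contra hc
  rw [not_le] at hc
  have h1 : O.valuation (a * x - 1) ≤ O.valuation x :=
    Valuation.map_sub_le _ (by rw [map_mul]; exact mul_le_of_le_one_left' (val_nat O a))
      (by simpa using hc.le)
  rw [← h, map_pow, sq] at h1
  exact absurd h1 (not_le.2 (lt_mul_of_one_lt_left (one_pos.trans hc) hc))

theorem emb_sq {N : ℕ} (h : (ε - 1) ^ 2 = N * ε) :
    (((σ ε : ℝ) : ℂ) - 1) ^ 2 = N * ((σ ε : ℝ) : ℂ) := by
  have := congrArg σ h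
  simp only [map_pow, map_sub, map_one, map_mul, map_natCast] at this
  exact_mod_cast this

theorem val_eps (O : ValuationSubring ℂ) {N : ℕ} (h : (ε - 1) ^ 2 = N * ε) :
    O.valuation ((σ ε : ℝ) : ℂ) = 1 := by
  have e := emb_sq (σ := σ) h
  generalize ((σ ε : ℝ) : ℂ) = x at e
  have h1 := val_quad O (x := x) (a := N + 2) (by push_cast; linear_combination e)
  have h2 := val_quad O (x := N + 2 - x) (a := N + 2) (by push_cast; linear_combination e)
  have h3 : O.valuation x * O.valuation (N + 2 - x) = 1 := by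
    rw [← map_mul, show x * (N + 2 - x) = 1 by linear_combination -e, map_one]
  exact le_antisymm h1 (h3 ▸ mul_le_of_le_one_right' h2)

theorem val_Fp (O : ValuationSubring ℂ) {N : ℕ} (h : (ε - 1) ^ 2 = N * ε) (x : K) :
    O.valuation (Fp σ σ' ε L x) = O.valuation (Fm σ σ' ε L x) := by
  rw [Fp]; split_ifs
  · rw [map_mul, val_eps O h, one_mul]
  · rfl

theorem pent (O : ValuationSubring ℂ) (hL : ELat ε L) {N : ℕ} (hN : 0 < N)
    (hN' : σ ε + σ' ε - 2 = N) (h : (ε - 1) ^ 2 = N * ε) (hF : FourierP σ σ' ε L) :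
    ∃ d : ℂ, d ^ 2 = N ∧ Pent (A := GG ε L) O K (lf (Fp σ σ' ε L)) (lf (Fm σ σ' ε L)) d := by
  obtain ⟨d, μ, s, B, h1, ⟨n, hn, h2⟩, h3, h4, h5, h7, h8⟩ := hF
  have hp0 : ∀ x, Fp σ σ' ε L x ≠ 0 := fun x e => by
    have := val_Fp (σ := σ) (σ' := σ') (L := L) O h x
    rw [e, map_zero] at this
    exact Fm_ne x (by simpa using this.symm)
  refine ⟨d, by rw [h1, hN']; simp, ⟨N, hN.ne', fun a => ?_⟩, fun a => Fm_ne _,
    fun a => val_Fp O h _, fun a => ?_, fun a ha => ?_⟩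
  · obtain ⟨x, hx, rfl⟩ := cl_surj a
    rw [cl_nsmul, cl_eq_zero, ← hL.stab, ← mul_assoc, mul_comm ε, ← h, sq, mul_assoc]
    exact hL.sharp_of_mem hx
  · obtain ⟨x, hx, rfl⟩ := cl_surj a
    obtain ⟨n, hn, e⟩ := h8 x hx
    rw [cl_neg, lf_Fm, lf_Fm, map_mul, ← val_Fp O h, ← map_mul]
    exact val_root O hn e
  · obtain ⟨a, ha', rfl⟩ := cl_surj a
    have hB : ∀ g ∈ s, ∀ {x : K} (hx : (ε - 1) * x ∈ L), lf (B g) (cl x hx) = B g x := by
      intro g hg x hx
      refine lf_cl (fun x y _ hy hxy => ?_) hx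
      rw [show x = y + (x - y) by ring, h4 g hg _ _ hy (hL.sharp_of_mem hxy), h5 g hg _ hxy, mul_one]
    refine ⟨s, fun g => lf (B g), fun g => μ * (Fp σ σ' ε L (g + a) / Fm σ σ' ε L g) /
      Fp σ σ' ε L a, fun g hg x y => ?_, fun g hg => ?_, fun g hg => ⟨cl g (h3 g hg), ?_⟩,
      fun x => ?_⟩
    · obtain ⟨x, hx, rfl⟩ := cl_surj x
      obtain ⟨y, hy, rfl⟩ := cl_surj y
      simp only
      rw [cl_add, hB g hg, hB g hg, hB g hg, h4 g hg _ _ hx hy]
    · have : (0 : GG ε L) = cl 0 (by simp) := rfl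
      simp only
      rw [this, hB g hg, h5 g hg 0 L.zero_mem]
    · rw [cl_add, lf_Fm, lf_Fm, lf_Fm]
      simp only [map_div₀, map_mul, val_root O hn h2, val_Fp O h, one_mul, div_div]
    · obtain ⟨x, hx, rfl⟩ := cl_surj x
      rw [cl_add, lf_Fm, lf_Fp]
      refine mul_left_cancel₀ (hp0 a) ?_
      have := h7 a ha' (fun e => ha (cl_eq_zero.2 e)) x hx
      rw [mul_sum, mul_left_comm, ← mul_div_assoc, this]
      refine sum_congr rfl fun g hg => ?_
      simp only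
      rw [hB g hg]
      field_simp [hp0 a]

theorem dvd_of_mem {p : ℕ} (hp : p.Prime) {s : K} (hs : (p : K) * s ∈ L) (hs' : s ∉ L) {k : ℤ}
    (hk : (k : K) * s ∈ L) : (p : ℤ) ∣ k := by
  by_contra hc
  obtain ⟨a, b, e⟩ := ((Nat.prime_iff_prime_int.1 hp).irreducible.coprime_iff_not_dvd).2 hc
  apply hs'
  have e' : (a : K) * p + b * k = 1 := by exact_mod_cast e
  have : s = a • ((p : K) * s) + b • ((k : K) * s) := by
    simp only [zsmul_eq_mul]; linear_combination -s * e'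
  rw [this]
  exact L.add_mem (L.smul_mem _ hs) (L.smul_mem _ hk)

theorem Fm_dist (hA : PartA σ σ') (hε : Eps σ σ' ε) (hL : ELat ε L) {p : ℕ} [hp : Fact p.Prime]
    {s z : K} (hs : (p : K) * s ∈ L) (hs' : s ∉ L) (hs2 : (ε - 1) * s ∈ L)
    (hz : (ε - 1) * z ∈ L) :
    Fm σ σ' ε (L ⊔ Submodule.span ℤ {s}) z = ∏ y : ZMod p, Fm σ σ' ε L (z + (y.val : K) * s) := by
  have e : coset (L ⊔ Submodule.span ℤ {s}) z =
      ⋃ y ∈ (univ : Finset (ZMod p)), coset L (z + (y.val : K) * s) := by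
    ext w
    simp only [coset, Set.mem_ofPred_eq, mem_univ, Set.iUnion_true, Set.mem_iUnion,
      Submodule.mem_sup, Submodule.mem_span_singleton]
    constructor
    · rintro ⟨l, hl, _, ⟨k, rfl⟩, e⟩
      refine ⟨(k : ZMod p), ?_⟩
      obtain ⟨c, hc⟩ : (p : ℤ) ∣ k - ((k : ZMod p).val : ℤ) := by
        rw [← ZMod.intCast_zmod_eq_zero_iff_dvd]; simp
      have hc' : (k : K) - ((k : ZMod p).val : K) = p * c := by exact_mod_cast hc
      have : w - (z + ((k : ZMod p).val : K) * s) = l + c • ((p : K) * s) := by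
        rw [zsmul_eq_mul] at e ⊢
        linear_combination -e + s * hc'
      rw [this]
      exact L.add_mem hl (L.smul_mem _ hs)
    · rintro ⟨y, hy⟩
      exact ⟨_, hy, _, ⟨y.val, rfl⟩, by simp; ring⟩
  rw [Fm, e, hA.union ε hε univ _ (fun y _ => coset_lat hL _)
    (fun y _ => coset_stab hL (shp_add hz (shp_nat hs2 _))) fun a _ b _ hab => ?_, Complex.exp_sum]
  · rfl
  · refine Set.disjoint_left.2 fun w ha hb => hab ?_
    have h1 := L.sub_mem hb ha
    have h2 : (((a.val : ℤ) - (b.val : ℤ) : ℤ) : K) * s ∈ L := by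
      convert h1 using 1; push_cast; ring
    have h3 := dvd_of_mem hp.out hs hs' h2
    rw [← ZMod.intCast_zmod_eq_zero_iff_dvd] at h3
    simpa [sub_eq_zero] using h3

theorem val_coprime (O : ValuationSubring ℂ) {p n : ℕ} (hp : p.Prime) (hO : O.valuation p < 1)
    (hn : ¬ p ∣ n) : O.valuation n = 1 := by
  refine le_antisymm (val_nat O n) (not_lt.1 fun h => ?_)
  obtain ⟨a, b, e⟩ := (Nat.isCoprime_iff_coprime.2 ((Nat.Prime.coprime_iff_not_dvd hp).2 hn))
  have e' : (a : ℂ) * p + b * n = 1 := by exact_mod_cast e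
  have : O.valuation ((a : ℂ) * p + b * n) < 1 :=
    Valuation.map_add_lt _ (by rw [map_mul]; exact (mul_le_of_le_one_left' (val_int O a)).trans_lt hO)
      (by rw [map_mul]; exact (mul_le_of_le_one_left' (val_int O b)).trans_lt h)
  simp [e'] at this

theorem exists_level {N : ℕ} (h : (ε - 1) ^ 2 = N * ε) (hL : ELat ε L) (p : ℕ) [NeZero p] :
    ∃ n : ℕ, n ≠ 0 ∧ ∀ y ∈ L, (ε ^ n - 1) * y / p ∈ L := by
  have hp : (p : K) ≠ 0 := by exact_mod_cast NeZero.ne p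
  have ex : ∀ n : ℕ, ∃ a b : ℤ, ε ^ n = a + b * ε := by
    intro n
    induction n with
    | zero => exact ⟨1, 0, by simp⟩
    | succ n ih =>
      obtain ⟨a, b, e⟩ := ih
      exact ⟨-b, a + b * (N + 2), by rw [pow_succ, e]; push_cast; linear_combination b * h⟩
  choose a b hab using ex
  have key : ∀ i j : ℕ, i < j → ((a i : ZMod p), (b i : ZMod p)) = ((a j : ZMod p), (b j : ZMod p)) →
      ∃ n : ℕ, n ≠ 0 ∧ ∀ y ∈ L, (ε ^ n - 1) * y / p ∈ L := by
    intro i j hij e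
    obtain ⟨n, rfl⟩ := Nat.exists_eq_add_of_lt hij
    obtain ⟨c, hc⟩ := (ZMod.intCast_eq_intCast_iff_dvd_sub _ _ _).1 (congrArg Prod.fst e)
    obtain ⟨d, hd⟩ := (ZMod.intCast_eq_intCast_iff_dvd_sub _ _ _).1 (congrArg Prod.snd e)
    have hc' : (a (i + n + 1) : K) - a i = p * c := by exact_mod_cast hc
    have hd' : (b (i + n + 1) : K) - b i = p * d := by exact_mod_cast hd
    refine ⟨n + 1, by omega, fun y hy => ?_⟩
    rw [← hL.pow_mem i]
    have : ε ^ i * ((ε ^ (n + 1) - 1) * y / p) = c • y + d • (ε * y) := by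
      simp only [zsmul_eq_mul]
      field_simp
      have e1 := hab i
      have e2 := hab (i + n + 1)
      rw [add_assoc, pow_add] at e2
      linear_combination y * (e2 - e1 + hc' + ε * hd')
    rw [this]
    exact L.add_mem (L.smul_mem _ hy) (L.smul_mem _ ((hL.stab y).2 hy))
  obtain ⟨i, j, hij, e⟩ := Finite.exists_ne_map_eq_of_infinite
    fun n : ℕ => ((a n : ZMod p), (b n : ZMod p))
  rcases lt_or_gt_of_ne hij with h | h
  exacts [key i j h e, key j i h e.symm]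

end Pool.Agent.RM
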