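import Pool.Agent.Lib.MP_ca56d1_nt.C.St

/-! A valuative criterion for algebraic integers. -/

namespace Pool.Agent.RM

open Polynomial

theorem intSt : IntSt := by
  intro z hz
  by_contra hn
  have hz0 : z ≠ 0 := by
    rintro rfl
    exact hn isIntegral_zero
  let _ := invertibleOfNonzero hz0
  let B := Algebra.adjoin ℤ {z⁻¹}
  let y : B.toSubring := ⟨z⁻¹, Algebra.subset_adjoin rfl⟩
  have h1 : Ideal.span {y} ≠ ⊤ := fun e => by
    obtain ⟨p, hp, hpx⟩ := Algebra.exists_aeval_invOf_eq_zero_of_idealMap_adjoin_sup_span_eq_top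
      (⅟z) (⊥ : Ideal ℤ) bot_ne_top (top_unique <| e.ge.trans le_sup_right)
    exact hn ⟨p, by simpa [Monic, sub_eq_zero] using hp, hpx⟩
  obtain ⟨M, hM, hle⟩ := Ideal.exists_le_maximal _ h1
  have hy : y ∈ M := hle (Ideal.subset_span rfl)
  obtain ⟨V, -, hV⟩ := Ideal.image_subset_nonunits_valuationSubring M hM.ne_top
  have key : ∀ {u v : B.toSubring}, u ∈ M → (u : ℂ) = v → v ∈ M := fun hu h => Subtype.ext h ▸ hu
  have h2 : ∀ x (hx : x ∈ B), ∃ n : ℤ, (⟨x, hx⟩ : B.toSubring) - n ∈ M := by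
    intro x hx
    induction hx using Algebra.adjoin_induction with
    | mem x h =>
      obtain rfl : x = z⁻¹ := h
      exact ⟨0, by simpa using hy⟩
    | algebraMap n => exact ⟨n, key M.zero_mem (by simp)⟩
    | add x x' hx hx' a b =>
      obtain ⟨n, a⟩ := a
      obtain ⟨m, b⟩ := b
      exact ⟨n + m, key (M.add_mem a b) (by simp; ring)⟩
    | mul x x' hx hx' a b =>
      obtain ⟨n, a⟩ := a
      obtain ⟨m, b⟩ := b
      exact ⟨n * m, key (M.add_mem (M.mul_mem_right ⟨x', hx'⟩ a) (M.mul_mem_left n b))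
        (by simp; ring)⟩
  let f : ℤ →+* B.toSubring ⧸ M := Int.castRingHom _
  have h3 : Function.Surjective f := fun u => by
    obtain ⟨x, rfl⟩ := Ideal.Quotient.mk_surjective u
    obtain ⟨n, h⟩ := h2 x.1 x.2
    exact ⟨n, ((Ideal.Quotient.eq.2 h).trans (map_intCast _ n)).symm⟩
  let _ := Ideal.Quotient.field M
  have h4 : (RingHom.ker f).IsMaximal := RingHom.ker_isMaximal_of_surjective f h3
  obtain ⟨p, hp, e⟩ := (Ideal.isPrime_int_iff.1 h4.isPrime).resolve_left
    (Ring.ne_bot_of_isMaximal_of_not_isField h4 Int.not_isField)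
  have h5 : (p : B.toSubring) ∈ M := by
    have h6 : (p : ℤ) ∈ RingHom.ker f := e ▸ Ideal.subset_span rfl
    rw [← Ideal.Quotient.eq_zero_iff_mem, map_natCast, ← map_natCast f]
    exact h6
  have h6 := hz p hp V (by simpa using V.mem_nonunits_iff.1 (hV ⟨_, h5, rfl⟩))
  exact (V.inv_mem_nonunits_iff.1 (hV ⟨_, hy, rfl⟩)).resolve_left hz0
    ((V.valuation_le_one_iff z).1 h6)

end Pool.Agent.RM
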