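import Pool.Agent.Lib.MP_ca56d1_nt.C.Ops

namespace Pool.Agent.StarkC

open Finset

variable {A G : Type*} [AddCommGroup A] [AddCommGroup G] [LinearOrder G] [IsOrderedAddMonoid G]
  {p : ℕ} [Fact p.Prime]

theorem cyc_sum (ψ : ZMod p → G) : ∑ y, (ψ (y + 1) - ψ y) = 0 := by
  rw [sum_sub_distrib, sub_eq_zero]
  exact Fintype.sum_equiv (Equiv.addRight 1) _ _ fun _ => rfl

theorem cyc_lt {ψ : ZMod p → G} {μ ν : G} (hν : 0 < ν) (h : ∀ y, ψ y - ψ (y + 1) ≤ ν)
    (hc : p ≤ (p - 1) / 2 + #{y | ψ (y + 1) - ψ y = μ}) : μ < ν := by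
  by_contra hn
  rw [not_lt] at hn
  have h1 : ∑ y, (ψ (y + 1) - ψ y + ν) = p • ν := by
    rw [sum_add_distrib, cyc_sum]; simp
  have h2 : #{y | ψ (y + 1) - ψ y = μ} • (2 • ν) ≤ ∑ y, (ψ (y + 1) - ψ y + ν) := by
    refine le_trans ?_ (sum_le_sum_of_subset_of_nonneg
      (filter_subset (fun y => ψ (y + 1) - ψ y = μ) _) fun y _ _ => by have := h y; grind)
    refine card_nsmul_le_sum _ _ _ fun y hy => ?_
    have := (mem_filter.1 hy).2
    grind
  rw [h1, ← mul_nsmul'] at h2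
  have hp := (Fact.out : p.Prime).two_le
  exact absurd h2 (not_le.2 (nsmul_lt_nsmul_left hν (by omega)))

theorem cyc_adj (hp : p ≠ 2) {Y : Finset (ZMod p)} (hc : p ≤ (p - 1) / 2 + #Y) :
    ∃ y ∈ Y, y + 1 ∈ Y := by
  by_contra hn
  push Not at hn
  have h1 : Disjoint Y (Y.map (Equiv.addRight (1 : ZMod p)).toEmbedding) := by
    rw [disjoint_right]
    intro a ha
    obtain ⟨y, hy, rfl⟩ := mem_map.1 ha
    exact hn y hy
  have h2 := card_le_univ (Y.disjUnion _ h1)
  rw [card_disjUnion, card_map, ZMod.card] at h2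
  have := (Fact.out : p.Prime).eq_two_or_odd
  omega

theorem leaf_abs (m : A → G) (hodd : ∀ x, m (-x) = -m x) (hfin : (Set.range m).Finite)
    (g : ZMod p →+ A)
    (H : ∀ i : ZMod p, g i ≠ 0 → ∀ μ : G, (∀ x, m (x + g i) - m x ≤ μ) →
      (∀ x, m (g i) + (m (x - g i) - m x) ≤ μ) → (∃ x, m (x + g i) - m x = μ) →
      ∃ x, p ≤ (p - 1) / 2 + #{y : ZMod p | m (x + g (y * i) + g i) - m (x + g (y * i)) = μ}) :
    ∀ x, m (x + g 1) = m x := by
  have ex : ∀ a : A, ∃ μ : G, (∀ x, m (x + a) - m x ≤ μ) ∧ ∃ x, m (x + a) - m x = μ := by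
    intro a
    have : (Set.range fun x => m (x + a) - m x).Finite := by
      refine (hfin.image2 (fun u w => u - w) hfin).subset ?_
      rintro _ ⟨x, rfl⟩
      exact ⟨_, ⟨_, rfl⟩, _, ⟨_, rfl⟩, rfl⟩
    obtain ⟨μ, ⟨x, hx⟩, h⟩ := Set.exists_max_image _ id this ⟨_, 0, rfl⟩
    exact ⟨μ, fun y => h _ ⟨y, rfl⟩, x, hx⟩
  choose μ hμ hμ' using ex
  by_contra hc
  have g0 : ∀ i : ZMod p, i ≠ 0 → ∀ x : A, (∀ x, m (x + g i) = m x) → False := by
    intro i hi x h
    apply hc
    have e : g 1 = (i⁻¹).val • g i := by rw [← map_nsmul]; simp [hi]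
    intro x
    rw [e]
    induction (i⁻¹).val with
    | zero => simp
    | succ n ih => rw [succ_nsmul, ← add_assoc, h, ih]
  have e1 : ∀ (i y : ZMod p) (x : A), x + g ((y + 1) * i) = x + g (y * i) + g i := by
    intro i y x; rw [add_mul, one_mul, map_add, add_assoc]
  have pos : ∀ i : ZMod p, i ≠ 0 → 0 < μ (g i) := by
    intro i hi
    by_contra hn
    refine g0 i hi 0 fun x => ?_
    have h1 := cyc_sum fun y => m (x + g (y * i))
    rw [sum_eq_zero_iff_of_nonpos fun y _ => by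
      rw [e1]; exact (hμ _ _).trans (not_lt.1 hn)] at h1
    have := h1 0 (mem_univ _)
    simpa [sub_eq_zero] using this
  have gne : ∀ i : ZMod p, i ≠ 0 → g i ≠ 0 := fun i hi h =>
    g0 i hi 0 fun x => by rw [h, add_zero]
  have key : ∀ i : ZMod p, i ≠ 0 → m (g i) + μ (g (-i)) ≤ μ (g i) →
      μ (g i) < μ (g (-i)) ∧ (p ≠ 2 → μ (g i) + μ (g i) ≤ μ (g (i + i))) := by
    intro i hi h
    obtain ⟨x, hx⟩ := H i (gne i hi) _ (hμ _) (fun x => by
      have := hμ (g (-i)) x
      rw [map_neg, ← sub_eq_add_neg] at this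
      rw [map_neg] at h
      grind) (hμ' _)
    constructor
    · refine cyc_lt (ψ := fun y => m (x + g (y * i))) (pos _ (neg_ne_zero.2 hi)) (fun y => ?_)
        (by simpa only [e1] using hx)
      have := hμ (g (-i)) (x + g ((y + 1) * i))
      rw [e1, map_neg, add_neg_cancel_right] at this
      rw [map_neg]; simpa only [e1] using this
    · intro hp
      obtain ⟨y, h1, h2⟩ := cyc_adj hp hx
      have h1' := (mem_filter.1 h1).2
      have h2' := (mem_filter.1 h2).2
      rw [e1] at h2'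
      have := hμ (g (i + i)) (x + g (y * i))
      rw [map_add g i i, ← add_assoc] at this
      rw [map_add g i i]
      grind
  have alt : ∀ i : ZMod p, m (g i) + μ (g (-i)) ≤ μ (g i) ∨
      m (g (-i)) + μ (g (- -i)) ≤ μ (g (-i)) := by
    intro i
    have := hodd (g i)
    rw [← map_neg] at this
    rw [neg_neg]
    grind
  have ne : ∀ i : ZMod p, i ≠ 0 → μ (g i) ≠ μ (g (-i)) := by
    intro i hi
    rcases alt i with h | h
    · exact (key i hi h).1.ne
    · have := (key (-i) (neg_ne_zero.2 hi) h).1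
      rw [neg_neg] at this
      exact this.ne'
  by_cases hp : p = 2
  · subst hp
    exact ne 1 one_ne_zero rfl
  obtain ⟨j, hj, hmax⟩ := exists_max_image (univ.erase (0 : ZMod p)) (fun i => μ (g (-i)))
    ⟨1, by simp⟩
  have hj0 := (mem_erase.1 hj).1
  have hm : ∀ i : ZMod p, i ≠ 0 → μ (g i) ≤ μ (g (-j)) := fun i hi => by
    simpa using hmax (-i) (by simpa using hi)
  have h2 : j + j ≠ 0 := by
    rw [← two_mul]
    refine mul_ne_zero (fun h => hp ?_) hj0
    have : ((2 : ℕ) : ZMod p) = 0 := by exact_mod_cast h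
    rw [ZMod.natCast_eq_zero_iff] at this
    exact (Nat.prime_dvd_prime_iff_eq Fact.out Nat.prime_two).1 this
  rcases alt j with h | h
  · have a := (key j hj0 h).2 hp
    have b := hm _ h2
    have c := hm _ (neg_ne_zero.2 h2)
    have d := ne _ h2
    have e := hμ (g (-(j + j))) (g j)
    have f : g j + g (-(j + j)) = -g j := by simp
    rw [f, hodd] at e
    grind
  · have a := (key (-j) (neg_ne_zero.2 hj0) h).1
    rw [neg_neg] at a
    exact absurd (hm j hj0) (not_le.2 a)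

end Pool.Agent.StarkC
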