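import Pool.Agent.Lib.MP_ca56d1_nt.C.St

/-! A rational logarithm of a valuation on algebraic numbers. -/

namespace Pool.Agent.RM

namespace LgAux

variable (O : ValuationSubring ℂ) {p : ℕ}

theorem val_nat (hp : p.Prime) (h : O.valuation p < 1) {n : ℕ} (hn : n ≠ 0) :
    ∃ k : ℕ, O.valuation n = O.valuation p ^ k := by
  obtain ⟨e, m, hm, rfl⟩ := Nat.exists_eq_pow_mul_and_not_dvd hn p hp.ne_one
  refine ⟨e, ?_⟩
  have hi : ∀ a : ℤ, O.valuation a ≤ 1 := fun a =>
    (O.valuation_le_one_iff _).2 (intCast_mem O a)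
  have h1 : O.valuation m = 1 := by
    refine le_antisymm ((O.valuation_le_one_iff _).2 (natCast_mem O m)) (not_lt.1 fun h2 => ?_)
    obtain ⟨a, b, hab⟩ := Nat.isCoprime_iff_coprime.2 ((Nat.Prime.coprime_iff_not_dvd hp).2 hm)
    have h3 : (a : ℂ) * p + b * m = 1 := by exact_mod_cast hab
    have h4 : O.valuation ((a : ℂ) * p + b * m) < 1 := by
      refine Valuation.map_add_lt _ ?_ ?_
      · rw [map_mul]
        exact (mul_le_of_le_one_left' (hi a)).trans_lt h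
      · rw [map_mul]
        exact (mul_le_of_le_one_left' (hi b)).trans_lt h2
    rw [h3, map_one] at h4
    exact lt_irrefl _ h4
  rw [Nat.cast_mul, Nat.cast_pow, map_mul, map_pow, h1, mul_one]

theorem val_ne (hp : p.Prime) : O.valuation p ≠ 0 :=
  (Valuation.ne_zero_iff _).2 (Nat.cast_ne_zero.2 hp.ne_zero)

theorem val_rat (hp : p.Prime) (h : O.valuation p < 1) {q : ℚ} (hq : q ≠ 0) :
    ∃ k : ℤ, O.valuation q = O.valuation p ^ k := by
  obtain ⟨a, ha⟩ := val_nat O hp h (Int.natAbs_ne_zero.2 (Rat.num_ne_zero.2 hq))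
  obtain ⟨b, hb⟩ := val_nat O hp h q.den_ne_zero
  have h1 : O.valuation (q.num : ℂ) = O.valuation (q.num.natAbs : ℂ) := by
    rcases Int.natAbs_eq q.num with h2 | h2
    · rw [← Int.cast_natCast, ← h2]
    · rw [← Int.cast_natCast, ← Valuation.map_neg _ ((q.num.natAbs : ℤ) : ℂ), ← Int.cast_neg, ← h2]
  refine ⟨a - b, ?_⟩
  rw [Rat.cast_def, map_div₀, h1, ha, hb, zpow_sub₀ (val_ne O hp), zpow_natCast, zpow_natCast]

theorem val_alg (hp : p.Prime) (h : O.valuation p < 1) {x : ℂ} (hx : x ≠ 0)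
    (ha : IsAlgebraic ℚ x) :
    ∃ (n : ℕ) (m : ℤ), n ≠ 0 ∧ O.valuation x ^ n = O.valuation p ^ m := by
  obtain ⟨f, hf, h0⟩ := ha
  rw [Polynomial.aeval_def, Polynomial.eval₂_eq_sum, Polynomial.sum_def] at h0
  have hv : O.valuation x ≠ 0 := (Valuation.ne_zero_iff _).2 hx
  have key : ∀ i ∈ f.support, ∀ j ∈ f.support, i < j →
      O.valuation (algebraMap ℚ ℂ (f.coeff i) * x ^ i) =
        O.valuation (algebraMap ℚ ℂ (f.coeff j) * x ^ j) →
      ∃ (n : ℕ) (m : ℤ), n ≠ 0 ∧ O.valuation x ^ n = O.valuation p ^ m := by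
    intro i hi j hj hij he
    obtain ⟨a, ha⟩ := val_rat O hp h (Polynomial.mem_support_iff.1 hi)
    obtain ⟨b, hb⟩ := val_rat O hp h (Polynomial.mem_support_iff.1 hj)
    rw [map_mul, map_mul, map_pow, map_pow, eq_ratCast, eq_ratCast, ha, hb] at he
    refine ⟨j - i, a - b, by omega, ?_⟩
    rw [pow_sub₀ _ hv hij.le, zpow_sub₀ (val_ne O hp), ← div_eq_mul_inv,
      div_eq_div_iff (pow_ne_zero _ hv) (zpow_ne_zero _ (val_ne O hp)), he, mul_comm]
  obtain ⟨j, hj, hm⟩ := f.support.exists_max_image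
    (fun i => O.valuation (algebraMap ℚ ℂ (f.coeff i) * x ^ i)) (Polynomial.support_nonempty.2 hf)
  by_contra hc
  have h1 := Valuation.map_sum_eq_of_lt O.valuation
    (f := fun i => algebraMap ℚ ℂ (f.coeff i) * x ^ i) hj fun i hi => by
      obtain ⟨hi, hij⟩ := Finset.mem_sdiff.1 hi
      refine lt_of_le_of_ne (hm i hi) fun he => hc ?_
      rcases lt_or_gt_of_ne (Finset.notMem_singleton.1 hij) with h2 | h2
      · exact key i hi j hj h2 he
      · exact key j hj i hi h2 he.symm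
  rw [h0, map_zero] at h1
  exact mul_ne_zero ((map_ne_zero _).2 (Polynomial.mem_support_iff.1 hj)) (pow_ne_zero _ hx)
    ((Valuation.zero_iff _).1 h1.symm)

variable (p) in
/-- `r` is the logarithm of the valuation of `x`. -/
def Has (x : ℂ) (r : ℚ) : Prop :=
  ∃ (n : ℕ) (m : ℤ), n ≠ 0 ∧ r * n = -m ∧ O.valuation x ^ n = O.valuation p ^ m

theorem Has.mul (hp : p.Prime) {x y : ℂ} {r s : ℚ} (h1 : Has O p x r) (h2 : Has O p y s) :
    Has O p (x * y) (r + s) := by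
  obtain ⟨n, m, hn, h3, h4⟩ := h1
  obtain ⟨n', m', hn', h5, h6⟩ := h2
  refine ⟨n * n', m * n' + m' * n, mul_ne_zero hn hn', ?_, ?_⟩
  · push_cast
    linear_combination (n' : ℚ) * h3 + (n : ℚ) * h5
  · rw [map_mul, mul_pow, pow_mul, h4, mul_comm n, pow_mul, h6, zpow_add₀ (val_ne O hp), zpow_mul,
      zpow_mul, zpow_natCast, zpow_natCast]

theorem Has.le (hp : p.Prime) (h : O.valuation p < 1) {x y : ℂ} {r s : ℚ} (h1 : Has O p x r)
    (h2 : Has O p y s) : r ≤ s ↔ O.valuation x ≤ O.valuation y := by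
  obtain ⟨n, m, hn, h3, h4⟩ := h1
  obtain ⟨n', m', hn', h5, h6⟩ := h2
  have h7 : O.valuation x ^ (n * n') = O.valuation p ^ (m * n') := by
    rw [pow_mul, h4, zpow_mul, zpow_natCast]
  have h8 : O.valuation y ^ (n * n') = O.valuation p ^ (m' * n) := by
    rw [mul_comm n, pow_mul, h6, zpow_mul, zpow_natCast]
  have h9 : (0 : ℚ) < (n : ℚ) * n' := by positivity
  rw [← pow_le_pow_iff_left₀ (a := O.valuation x) zero_le zero_le (mul_ne_zero hn hn'), h7, h8,
    zpow_le_zpow_iff_right_of_lt_one₀ (zero_lt_iff.2 (val_ne O hp)) h,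
    ← mul_le_mul_iff_left₀ h9, ← Int.cast_le (R := ℚ)]
  have h10 : r * ((n : ℚ) * n') = -(m * n') := by linear_combination (n' : ℚ) * h3
  have h11 : s * ((n : ℚ) * n') = -(m' * n) := by linear_combination (n : ℚ) * h5
  rw [h10, h11, neg_le_neg_iff]
  push_cast
  rfl

end LgAux

theorem lgSt : LgSt := by
  intro O p hp h
  have h1 : ∀ x : ℂ, x ≠ 0 → IsAlgebraic ℚ x →
      LgAux.Has O p x (Classical.epsilon (LgAux.Has O p x)) := fun x hx ha => by
    obtain ⟨n, m, hn, h2⟩ := LgAux.val_alg O hp h hx ha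
    refine Classical.epsilon_spec (p := LgAux.Has O p x) ⟨-m / n, n, m, hn, ?_, h2⟩
    rw [div_mul_cancel₀ _ (Nat.cast_ne_zero.2 hn)]
  refine ⟨fun x => Classical.epsilon (LgAux.Has O p x), fun x y hx hy ha hb =>
    ⟨?_, (h1 x hx ha).le O hp h (h1 y hy hb)⟩⟩
  have h2 := h1 (x * y) (mul_ne_zero hx hy) (ha.mul hb)
  have h3 := (h1 x hx ha).mul O hp (h1 y hy hb)
  exact le_antisymm ((h2.le O hp h h3).2 le_rfl) ((h3.le O hp h h2).2 le_rfl)

end Pool.Agent.RM
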