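import Pool.Agent.Lib.MP_ca56d1_nt.C.Glue
import Pool.Agent.Lib.MP_ca56d1_nt.RM.Cone2

set_option linter.unusedSectionVars false
set_option linter.style.haveILetI false

namespace Pool.Agent.RM

open Finset StarkC

variable {K : Type*} [Field K] [CharZero K] {σ σ' : K →+* ℝ}

theorem val_prod_sub (O : ValuationSubring ℂ) {ι : Type*} (s : Finset ι) (a b : ι → ℂ)
    (h : ∀ i ∈ s, O.valuation (b i) ≤ 1 ∧ O.valuation (a i - b i) < 1) :
    O.valuation (∏ i ∈ s, b i) ≤ 1 ∧ O.valuation (∏ i ∈ s, a i - ∏ i ∈ s, b i) < 1 := by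
  classical
  induction s using Finset.induction_on with
  | empty => simp
  | insert i s hi ih =>
    obtain ⟨h1, h2⟩ := ih fun j hj => h j (mem_insert_of_mem hj)
    obtain ⟨h3, h4⟩ := h i (mem_insert_self _ _)
    have h5 : O.valuation (a i) ≤ 1 := by
      rw [← sub_add_cancel (a i) (b i)]; exact Valuation.map_add_le _ h4.le h3
    rw [prod_insert hi, prod_insert hi]
    refine ⟨by rw [map_mul]; exact mul_le_one' h3 h1, ?_⟩
    rw [show a i * ∏ j ∈ s, a j - b i * ∏ j ∈ s, b j =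
      a i * (∏ j ∈ s, a j - ∏ j ∈ s, b j) + (a i - b i) * ∏ j ∈ s, b j by ring]
    refine Valuation.map_add_lt _ ?_ ?_ <;> rw [map_mul]
    · exact (mul_le_of_le_one_left' h5).trans_lt h2
    · exact (mul_le_of_le_one_right' h1).trans_lt h4

theorem orbSt (hA : PartA σ σ') : OrbSt σ σ' := by
  intro ε L hε hL p hp s η hs hs' es n hn h3 h4 O x hx hu hinv
  haveI := Fact.mk hp
  classical
  have mem : ∀ k : ℤ, (k : K) * s ∈ L ↔ (k : ZMod p) = 0 := fun k => by
    rw [ZMod.intCast_zmod_eq_zero_iff_dvd]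
    refine ⟨dvd_of_mem hp hs hs', ?_⟩
    rintro ⟨c, rfl⟩
    convert L.smul_mem c hs using 1
    rw [zsmul_eq_mul]; push_cast; ring
  have hpow : ∀ k : ℕ, (η : ZMod p) ^ k = 1 ↔ (p : ℤ) ∣ η ^ k - 1 := fun k => by
    rw [← ZMod.intCast_zmod_eq_zero_iff_dvd]; push_cast; exact sub_eq_zero.symm
  have hη : IsPrimitiveRoot (η : ZMod p) n :=
    IsPrimitiveRoot.mk_of_lt _ (Nat.pos_of_ne_zero hn) ((hpow n).2 h3)
      fun l l0 ln e => h4 l l0 ln ((hpow l).1 e)
  have η0 := hη.ne_zero hn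
  have hθ := hη.inv
  set θ := (η : ZMod p)⁻¹ with hθ'
  set C : ZMod p → Set K := fun a => coset L (x + (a.val : ℤ) * s) with hC
  have mC : ∀ a y, y ∈ C a ↔ y - (x + (a.val : ℤ) * s) ∈ L := fun _ _ => Iff.rfl
  have uniq : ∀ {a b y}, y ∈ C a → y ∈ C b → a = b := fun {a b y} ha hb => by
    have := (mem ((a.val : ℤ) - b.val)).1 (by
      convert L.sub_mem ((mC _ _).1 hb) ((mC _ _).1 ha) using 1; push_cast; ring)
    simpa [sub_eq_zero] using this
  have one : ∀ a y, ε * y ∈ C a ↔ y ∈ C (θ * a) := fun a y => by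
    have k := (mem (((θ * a).val : ℤ) * η - a.val)).2 (by
      push_cast; simp only [ZMod.natCast_val, ZMod.cast_id', id, hθ']; field_simp; ring)
    rw [mC, mC, ← hL.stab (y - _), ← L.add_mem_iff_left
      (L.neg_mem (L.add_mem hx (L.add_mem (L.smul_mem ((θ * a).val : ℤ) es) k)))]
    apply Iff.of_eq
    congr 1
    simp only [zsmul_eq_mul]; push_cast; ring
  have many : ∀ i a y, ε ^ i * y ∈ C a ↔ y ∈ C (θ ^ i * a) := fun i a => by
    induction i with
    | zero => simp
    | succ i ih => intro y; rw [pow_succ, mul_assoc, ih, one, ← mul_assoc, ← pow_succ']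
  set T : ZMod p → Finset (ZMod p) := fun c => univ.filter fun a => a ^ n = c with hT
  have mT : ∀ a c, a ∈ T c ↔ a ^ n = c := fun a c => by simp [hT]
  set Λ : ZMod p → Set K := fun c => ⋃ a ∈ T c, C a with hΛ
  have mΛ : ∀ c y, y ∈ Λ c ↔ ∃ a, a ^ n = c ∧ y ∈ C a := fun c y => by simp [hΛ, mT]
  have e : coset (L ⊔ Submodule.span ℤ {s}) x = ⋃ c ∈ univ.image fun a : ZMod p => a ^ n, Λ c := by
    ext w
    simp only [Set.mem_iUnion, mΛ, mem_image, mem_univ, true_and, exists_prop]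
    change w - x ∈ L ⊔ Submodule.span ℤ {s} ↔ _
    simp only [Submodule.mem_sup, Submodule.mem_span_singleton]
    constructor
    · rintro ⟨l, hl, _, ⟨k, rfl⟩, e⟩
      refine ⟨_, ⟨k, rfl⟩, k, rfl, (mC _ _).2 ?_⟩
      convert L.add_mem hl ((mem (k - ((k : ZMod p).val : ℤ))).2 (by simp)) using 1
      rw [zsmul_eq_mul] at e
      push_cast at e ⊢
      linear_combination -e
    · rintro ⟨_, -, a, -, ha⟩
      exact ⟨_, (mC _ _).1 ha, _, ⟨a.val, rfl⟩, by rw [zsmul_eq_mul]; ring⟩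
  have hst : ∀ c, Stab ε (Λ c) := fun c y => by
    simp only [mΛ, one]
    constructor
    · rintro ⟨a, ha, h⟩
      exact ⟨_, by rw [mul_pow, hθ.pow_eq_one, one_mul, ha], h⟩
    · rintro ⟨a, ha, h⟩
      exact ⟨η * a, by rw [mul_pow, hη.pow_eq_one, one_mul, ha], by
        rwa [← mul_assoc, inv_mul_cancel₀ η0, one_mul]⟩
  have hcard : Fm σ σ' ε L x ^ p =
      ∏ c ∈ univ.image fun a : ZMod p => a ^ n, Fm σ σ' ε L x ^ (T c).card := by
    rw [prod_pow_eq_pow_sum, ← card_eq_sum_card_image, card_univ, ZMod.card]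
  rw [Fm, e, hA.union ε hε _ Λ (fun c _ => Lat.union _ fun a _ => coset_lat hL _)
    (fun c _ => hst c) (fun a _ b _ hab => Set.disjoint_left.2 fun w ha hb => hab ?_),
    Complex.exp_sum, hcard]
  · refine (val_prod_sub O _ _ _ fun c hc => ⟨by rw [map_pow, hu, one_pow], ?_⟩).2
    obtain ⟨r, -, rfl⟩ := mem_image.1 hc
    by_cases r0 : r = 0
    · have t : T (r ^ n) = {0} := by
        ext a; simp [mT, r0, hn]
      have : Λ (r ^ n) = coset L x := by simp [hΛ, t, hC]
      rw [this, t, card_singleton, pow_one, ← Fm, sub_self, map_zero]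
      exact zero_lt_one
    · haveI : NeZero n := ⟨hn⟩
      have t : T (r ^ n) = (range n).image fun i => θ ^ i * r := by
        ext a
        simp only [mT, mem_image, mem_range]
        constructor
        · intro ha
          obtain ⟨i, hi, e⟩ := hθ.eq_pow_of_pow_eq_one (ξ := a / r)
            (by rw [div_pow, ha, div_self (pow_ne_zero _ r0)])
          exact ⟨i, hi, by rw [e, div_mul_cancel₀ _ r0]⟩
        · rintro ⟨i, -, rfl⟩
          rw [mul_pow, ← pow_mul, mul_comm i, pow_mul, hθ.pow_eq_one, one_pow, one_mul]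
      have inj : ∀ i < n, ∀ j < n, θ ^ i * r = θ ^ j * r → i = j := fun i hi j hj e =>
        hθ.pow_inj hi hj (mul_right_cancel₀ r0 e)
      have tc : (T (r ^ n)).card = n := by
        rw [t, card_image_of_injOn fun i hi j hj e =>
          inj i (by simpa using hi) j (by simpa using hj) e, card_range]
      have : Λ (r ^ n) = ⋃ i ∈ range n, {y | ε ^ i * y ∈ C r} := by
        ext y; simp [hΛ, t, many]
      rw [this, tc, hA.orbit ε (C r) hε (coset_lat hL _) n hn (fun y => by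
        rw [many, hθ.pow_eq_one, one_mul]) (fun i hi j hj hij => Set.disjoint_left.2
          fun y h1 h2 => hij (inj i hi j hj (uniq ((many _ _ _).1 h1) ((many _ _ _).1 h2)))),
        ← Fm_pow hA hε hL hx hn]
      exact hinv _
  · obtain ⟨u, rfl, hu⟩ := (mΛ _ _).1 ha
    obtain ⟨v, rfl, hv⟩ := (mΛ _ _).1 hb
    rw [uniq hu hv]

end Pool.Agent.RM
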