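import Pool.Agent.Lib.MP_ca56d1_nt.C.Vol2

/-! The induction over the tree of stable lattices at `p`. -/

namespace Pool.Agent.RM

namespace Vol

variable {K : Type*} [Field K] [CharZero K] {G : Type*} [AddCommGroup G] {ε : K} {p : ℕ}
  [hp : Fact p.Prime] {m : Submodule ℤ K → K → G}

theorem nonroot {L : Submodule ℤ K} {A f : K} {t n : ℤ} (hq : A ^ 2 = t * A - n)
    (hB : Bas p L f (A * f)) {x : ZMod p} (hx : x ^ 2 + t * x + n ≠ 0) (i : ℤ) :
    (A * ((x.val : K) * f + A * f) - i * ((x.val : K) * f + A * f)) / p ∉ L := by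
  intro h
  have h4 := hB.ind (-n - i * x.val) (x.val + t - i) (mem_of_eq h (by
    congr 1
    push_cast
    linear_combination -f * hq))
  rw [← ZMod.intCast_zmod_eq_zero_iff_dvd, ← ZMod.intCast_zmod_eq_zero_iff_dvd] at h4
  push_cast at h4
  rw [ZMod.natCast_zmod_val] at h4
  exact hx (by linear_combination x * h4.2 - h4.1)

theorem root_dvd {t n : ℤ} {x : ZMod p} (hx : x ^ 2 + t * x + n = 0) :
    ∃ g : ℤ, (x.val : ℤ) ^ 2 + t * x.val + n = p * g := by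
  refine (ZMod.intCast_zmod_eq_zero_iff_dvd _ p).1 ?_
  push_cast
  rwa [ZMod.natCast_zmod_val]

theorem up_eq {L : Submodule ℤ K} {A f : K} {t n : ℤ} (hq : A ^ 2 = t * A - n)
    (h1 : ∀ y ∈ L, A * y ∈ L) (hB : Bas p L f (A * f)) {x : ZMod p}
    (hx : x ^ 2 + t * x + n = 0) :
    L ⊔ Submodule.span ℤ {((x.val : K) * f + A * f) / p} = up ((A + x.val) / p) L := by
  have hp0 : (p : K) ≠ 0 := p_ne
  obtain ⟨g, hg⟩ := root_dvd hx
  have hg' : (x.val : K) ^ 2 + t * x.val + n = p * g := by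
    exact_mod_cast congrArg (Int.cast : ℤ → K) hg
  ext y
  rw [mem_ext, mem_up]
  constructor
  · rintro ⟨i, hi⟩
    exact ⟨i * f, imem hB.hu i, mem_of_eq hi (by ring)⟩
  · rintro ⟨l, hl, h⟩
    obtain ⟨a, b, e⟩ := hB.sp l hl
    refine ⟨a + b * (x.val + t), mem_of_eq (L.sub_mem (L.add_mem (L.add_mem h (h1 _ e))
      (nmem e x.val)) (imem hB.hu (b * g))) ?_⟩
    push_cast
    field_simp
    linear_combination (b * f : K) * hq - (b * f : K) * hg'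

/-- Two stable lines. -/
theorem Hyp.split [LinearOrder G] [IsOrderedAddMonoid G] (H : Hyp ε p m)
    (hf : {g | ∃ L z, ELat ε L ∧ (ε - 1) * z ∈ L ∧ g = m L z}.Finite) {k : ℕ} {c t n : ℤ} {A : K}
    (hA : (p : K) ^ (k + 1) * A = ε - 1 - p * c) (hq : A ^ 2 = t * A - n) {x₁ x₂ : ZMod p}
    (hne : x₁ ≠ x₂) (r1 : x₁ ^ 2 + t * x₁ + n = 0) (r2 : x₂ ^ 2 + t * x₂ + n = 0)
    {L : Submodule ℤ K} {z : K} (hL : ELat ε L) (h1 : ∀ y ∈ L, A * y ∈ L) (hz : (ε - 1) * z ∈ L) :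
    ELat ε (up ((A + x₂.val) / p) L) ∧ m (up ((A + x₂.val) / p) L) z = p • m L z := by
  have hp0 : (p : K) ≠ 0 := p_ne
  have hs : x₁ + x₂ + t = 0 :=
    mul_right_cancel₀ (sub_ne_zero.2 hne) (by linear_combination r1 - r2)
  have hn : x₁ * x₂ - n = 0 := by linear_combination x₁ * hs - r1
  have hcyc : ∀ L, ELat ε L → (∀ y ∈ L, A * y ∈ L) → ∃ f, Bas p L f (A * f) := by
    intro L hL h1
    refine cyc (H.bas L hL) h1 fun e he => hne ?_
    obtain ⟨t', n', hq'⟩ := quad (H.bas L hL) (A := (A - e) / p)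
      fun y hy => mem_of_eq (he y hy) (by ring)
    have h2 : ((t - 2 * e - p * t' : ℤ) : K) * A = (n - e ^ 2 - p * t' * e - p ^ 2 * n' : ℤ) := by
      field_simp at hq'
      push_cast
      linear_combination hq' - hq
    have h3 : t - 2 * e - p * t' = 0 := H.irr _ ((t - 2 * e - p * t') * (1 + p * c) +
      p ^ (k + 1) * (n - e ^ 2 - p * t' * e - p ^ 2 * n')) (by
        rw [Int.cast_add, Int.cast_mul, Int.cast_mul, ← h2]
        generalize ((t - 2 * e - p * t' : ℤ) : K) = w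
        push_cast
        linear_combination -w * hA)
    rw [h3] at h2
    have h4 : n - e ^ 2 - p * t' * e - p ^ 2 * n' = 0 := by
      rw [Int.cast_zero, zero_mul] at h2
      exact_mod_cast h2.symm
    have h5 := congrArg (Int.cast : ℤ → ZMod p) h3
    have h6 := congrArg (Int.cast : ℤ → ZMod p) h4
    push_cast at h5 h6
    rw [ZMod.natCast_self] at h5 h6
    refine sub_eq_zero.1 ((pow_eq_zero_iff two_ne_zero).1 ?_)
    linear_combination (x₁ + x₂ - t) * hs - 4 * hn + (t + 2 * e : ZMod p) * h5 - 4 * h6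
  have hup : ∀ x : ZMod p, x ^ 2 + t * x + n = 0 → ∀ L, ELat ε L → (∀ y ∈ L, A * y ∈ L) →
      ELat ε (up ((A + x.val) / p) L) ∧ ∀ y ∈ up ((A + x.val) / p) L,
        A * y ∈ up ((A + x.val) / p) L := by
    intro x hx L hL h1
    obtain ⟨f, hB⟩ := hcyc L hL h1
    refine ⟨?_, fun y hy => ?_⟩
    · rw [← up_eq hq h1 hB hx]
      exact H.ext hL (mem_of_eq (div_mem hA h1 _ (L.add_mem (nmem hB.hu x.val) hB.hv)) (by ring))
    · obtain ⟨l, hl, h⟩ := mem_up.1 hy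
      exact mem_up.2 ⟨A * l, h1 l hl, mem_of_eq (h1 _ h) (by ring)⟩
  obtain ⟨α, hα⟩ : (p : ℤ) ∣ x₁.val + x₂.val + t := by
    rw [← ZMod.intCast_zmod_eq_zero_iff_dvd]
    push_cast
    rwa [ZMod.natCast_zmod_val, ZMod.natCast_zmod_val]
  obtain ⟨β, hβ⟩ : (p : ℤ) ∣ x₁.val * x₂.val - n := by
    rw [← ZMod.intCast_zmod_eq_zero_iff_dvd]
    push_cast
    rwa [ZMod.natCast_zmod_val, ZMod.natCast_zmod_val]
  obtain ⟨e, he⟩ := ZMod.intCast_surjective (n := p) (x₂ - x₁)⁻¹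
  obtain ⟨g, hg⟩ : (p : ℤ) ∣ e * (x₂.val - x₁.val) - 1 := by
    rw [← ZMod.intCast_zmod_eq_zero_iff_dvd]
    push_cast
    rw [ZMod.natCast_zmod_val, ZMod.natCast_zmod_val, he,
      inv_mul_cancel₀ (sub_ne_zero.2 hne.symm), sub_self]
  have hα' : (x₁.val : K) + x₂.val + t = p * α := by
    exact_mod_cast congrArg (Int.cast : ℤ → K) hα
  have hβ' : (x₁.val : K) * x₂.val - n = p * β := by
    exact_mod_cast congrArg (Int.cast : ℤ → K) hβ
  have hg' : (e : K) * (x₂.val - x₁.val) - 1 = p * g := by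
    exact_mod_cast congrArg (Int.cast : ℤ → K) hg
  have htop : ∀ L : Submodule ℤ K, (∀ y ∈ L, A * y ∈ L) →
      up ((A + x₂.val) / p) (up ((A + x₁.val) / p) L) = top p L := by
    intro L h1
    ext y
    rw [mem_top, mem_up]
    constructor
    · rintro ⟨l, hl, h⟩
      obtain ⟨l₁, m1, h2⟩ := mem_up.1 hl
      obtain ⟨l₂, m2, h3⟩ := mem_up.1 h
      refine mem_of_eq (L.add_mem (L.add_mem (L.add_mem (nmem h3 p)
        (L.add_mem (h1 _ m2) (nmem m2 x₁.val))) (L.add_mem (h1 _ h2) (nmem h2 x₂.val)))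
        (L.add_mem (imem (h1 _ m1) α) (imem m1 β))) ?_
      field_simp
      linear_combination l₁ * hq + A * l₁ * hα' + l₁ * hβ'
    · intro hy
      refine ⟨e * (p * y), mem_up.2 ⟨0, L.zero_mem, by simpa using imem hy e⟩,
        mem_up.2 ⟨-(e * (p * y)), L.neg_mem (imem hy e), mem_of_eq (imem hy (-g)) ?_⟩⟩
      push_cast
      field_simp
      linear_combination -y * hg'
  have hstar : ∀ L z, ELat ε L → (∀ y ∈ L, A * y ∈ L) → (ε - 1) * z ∈ L →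
      p • m (up ((A + x₁.val) / p) L) z + p • m (up ((A + x₂.val) / p) L) z =
        p • p • m L z + m (top p L) z := by
    intro L z hL h1 hz
    obtain ⟨f, hB⟩ := hcyc L hL h1
    have h2 := H.star (H.dk k) hA hL h1 hB hz {x₁, x₂} fun x hx => nonroot hq hB fun h => by
      have h3 : (x - x₁) * (x - x₂) = 0 := by linear_combination h - x * hs + hn
      rcases mul_eq_zero.1 h3 with h4 | h4 <;> exact hx (by simp [sub_eq_zero.1 h4])
    rw [Finset.sum_pair hne, Finset.card_pair hne, up_eq hq h1 hB r1, up_eq hq h1 hB r2,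
      two_nsmul, ← add_assoc, add_left_inj] at h2
    exact h2
  have hle : ∀ (a : K) (L : Submodule ℤ K) (y : K), y ∈ L → y ∈ up a L := fun a L y hy =>
    mem_up.2 ⟨0, L.zero_mem, by simpa using hy⟩
  refine ⟨(hup x₂ r2 L hL h1).1, (sub_eq_zero.1 (sup0
    (fun a : Submodule ℤ K × K => ELat ε a.1 ∧ (∀ y ∈ a.1, A * y ∈ a.1) ∧ (ε - 1) * a.2 ∈ a.1)
    (fun a => p • m a.1 a.2 - m (up ((A + x₂.val) / p) a.1) a.2) ?_ ?_ (L, z) ⟨hL, h1, hz⟩)).symm⟩
  · refine (hf.image2 (fun g g' => p • g - g') hf).subset ?_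
    rintro _ ⟨⟨L, z⟩, ⟨hL, h1, hz⟩, rfl⟩
    exact ⟨_, ⟨L, z, hL, hz, rfl⟩, _, ⟨_, z, (hup x₂ r2 L hL h1).1, hle _ _ _ hz, rfl⟩, rfl⟩
  · rintro ⟨L, z⟩ ⟨hL, h1, hz⟩
    refine ⟨(up ((A + x₁.val) / p) L, z), ⟨(hup x₁ r1 L hL h1).1, (hup x₁ r1 L hL h1).2,
      hle _ _ _ hz⟩, p, hp.out.two_le, ?_⟩
    dsimp only
    rw [htop L h1, smul_sub, sub_eq_sub_iff_add_eq_add]
    exact hstar L z hL h1 hz

/-- Every value is multiplied by `p` or `p ^ 2` at a larger lattice. -/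
theorem Hyp.step [LinearOrder G] [IsOrderedAddMonoid G] (H : Hyp ε p m)
    (hf : {g | ∃ L z, ELat ε L ∧ (ε - 1) * z ∈ L ∧ g = m L z}.Finite)
    {L : Submodule ℤ K} {z : K} (hL : ELat ε L) (hz : (ε - 1) * z ∈ L) :
    ∃ L', ELat ε L' ∧ (ε - 1) * z ∈ L' ∧ ∃ k : ℕ, 2 ≤ k ∧ m L' z = k • m L z := by
  have hp0 : (p : K) ≠ 0 := p_ne
  have hp2 := hp.out.two_le
  by_cases hd : ∀ y ∈ L, (ε - 1) * y / p ∈ L
  swap
  · push Not at hd
    obtain ⟨f, hf, hd⟩ := hd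
    obtain ⟨N, hN⟩ := H.sq
    have h1 : ∀ y ∈ L, (ε - 1) * ((ε - 1) * y) / p ∈ L := fun y hy =>
      mem_of_eq (imem ((hL.stab y).2 hy) N) (by field_simp; linear_combination y * hN)
    exact ⟨_, H.ext hL (mem_of_eq (h1 f hf) (by ring)), mem_ext_left hz, p, hp2,
      H.d0 0 (ε - 1) L f z (by simp) hL
        (fun y hy => mem_of_eq (L.sub_mem ((hL.stab y).2 hy) hy) (by ring)) h1 hf hd hz⟩
  obtain ⟨k, ⟨c, h1⟩, h2⟩ : ∃ k : ℕ, (∃ c : ℤ, ∀ y ∈ L, (ε - 1 - p * c) / p ^ (k + 1) * y ∈ L) ∧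
      ¬ ∃ c : ℤ, ∀ y ∈ L, (ε - 1 - p * c) / p ^ (k + 1 + 1) * y ∈ L := by
    by_contra hc
    have h3 : ∀ k : ℕ, ∃ c : ℤ, ∀ y ∈ L, (ε - 1 - p * c) / p ^ (k + 1) * y ∈ L := by
      intro k
      induction k with
      | zero => exact ⟨0, fun y hy => mem_of_eq (hd y hy) (by push_cast; ring)⟩
      | succ k ih => exact by_contra fun h => hc ⟨k, ih, h⟩
    obtain ⟨w₁, w₂, hi, hm⟩ := H.bas L hL
    have m1 : w₁ ∈ L := (hm _).2 ⟨1, 0, by simp⟩
    have hw : w₁ ≠ 0 := fun e => one_ne_zero (hi 1 0 (by simp [e])).1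
    obtain ⟨a, b, e1⟩ := (hm _).1 ((hL.stab w₁).2 m1)
    have hb : b ≠ 0 := by
      rintro rfl
      exact one_ne_zero (H.irr 1 a (mul_right_cancel₀ hw (by simpa using e1)))
    obtain ⟨c, h4⟩ := h3 b.natAbs
    obtain ⟨a', b', e2⟩ := (hm _).1 (h4 w₁ m1)
    have h5 := (hi (a - 1 - p * c - p ^ (b.natAbs + 1) * a') (b - p ^ (b.natAbs + 1) * b') (by
      field_simp at e2
      push_cast
      linear_combination e2 - e1)).2
    have h6 : p ^ (b.natAbs + 1) ∣ b.natAbs := by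
      rw [← Int.natCast_dvd]
      exact ⟨b', by push_cast; linarith⟩
    have h7 := Nat.le_of_dvd (Int.natAbs_pos.2 hb) h6
    have h8 := Nat.lt_pow_self (n := b.natAbs + 1) hp.out.one_lt
    omega
  set A := (ε - 1 - p * c) / p ^ (k + 1) with hAe
  have hA : (p : K) ^ (k + 1) * A = ε - 1 - p * c := by
    rw [hAe]
    field_simp
  obtain ⟨f, hB⟩ := cyc (p := p) (H.bas L hL) h1 fun e he => h2 ⟨c + p ^ k * e, fun y hy =>
    mem_of_eq (he y hy) (by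
      rw [hAe]
      push_cast
      field_simp
      ring)⟩
  obtain ⟨t, n, hq⟩ := quad (H.bas L hL) h1
  by_cases r1 : ∃ x₁ : ZMod p, x₁ ^ 2 + t * x₁ + n = 0
  swap
  · have e := H.star (H.dk k) hA hL h1 hB hz ∅ fun x _ => nonroot hq hB fun h => r1 ⟨x, h⟩
    refine ⟨_, H.elat_top hL hd hB, mem_top.2 (nmem hz p), p * p, by nlinarith, ?_⟩
    simpa [mul_smul] using e
  obtain ⟨x₁, r1⟩ := r1
  by_cases r2 : ∃ x₂ : ZMod p, x₁ ≠ x₂ ∧ x₂ ^ 2 + t * x₂ + n = 0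
  · obtain ⟨x₂, hne, r2⟩ := r2
    obtain ⟨h3, h4⟩ := H.split hf hA hq hne r1 r2 hL h1 hz
    exact ⟨_, h3, mem_up.2 ⟨0, L.zero_mem, by simpa using hz⟩, p, hp2, h4⟩
  · have e := H.star (H.dk k) hA hL h1 hB hz {x₁} fun x hx => nonroot hq hB fun h =>
      r2 ⟨x, fun e => hx (by simp [e]), h⟩
    rw [Finset.sum_singleton, Finset.card_singleton, one_smul, add_left_inj] at e
    exact ⟨_, H.ext hL (mem_of_eq (hd _ (L.add_mem (nmem hB.hu x₁.val) hB.hv)) (by ring)),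
      mem_ext_left hz, p, hp2, nsmul_right_injective hp.out.ne_zero e⟩

end Vol

open Vol

variable {K : Type*} [Field K] [CharZero K] {σ σ' : K →+* ℝ}

theorem volSt (h : RQ σ σ') : VolSt σ σ' := by
  intro G _ _ _ ε p hp m hε ⟨L₀, hL₀, hd⟩ hf hper hdist hleaf L z hL hz
  have hp0 : (p : K) ≠ 0 := p_ne
  have H : Hyp ε p m := by
    refine ⟨fun L hL => FinAux.exists_basis h hL, ?_, fun i j e => ?_, hper, hdist, hleaf⟩
    · obtain ⟨w₁, w₂, N, hi, hm, -, -, hsq⟩ := basSt h ε L₀ hε hL₀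
      have m1 : w₁ ∈ L₀ := (hm _).2 ⟨1, 0, by simp⟩
      have h1 : ε * ((N : ℤ) * w₁ + (0 : ℤ) * w₂) / p ∈ L₀ :=
        mem_of_eq (nmem (hd _ (hd _ m1)) p) (by
          push_cast
          field_simp
          linear_combination -w₁ * hsq)
      rw [mul_div_assoc, hL₀.stab, coord hi hm, ZMod.intCast_zmod_eq_zero_iff_dvd] at h1
      obtain ⟨N', e⟩ := h1.1
      have e' : (N : K) = p * N' := by exact_mod_cast congrArg (Int.cast : ℤ → K) e
      exact ⟨N', by rw [hsq, e']⟩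
    · have h1 := congrArg σ e
      have h2 := congrArg σ' e
      simp only [map_mul, map_intCast] at h1 h2
      have h3 : σ ε - σ' ε ≠ 0 := (sub_pos.2 (hε.lt_one.trans hε.one_lt)).ne'
      have h4 : (i : ℝ) = 0 := mul_right_cancel₀ h3 (by linear_combination h1 - h2)
      exact_mod_cast h4
  refine sup0 (fun a : Submodule ℤ K × K => ELat ε a.1 ∧ (ε - 1) * a.2 ∈ a.1)
    (fun a => m a.1 a.2) (hf.subset ?_) ?_ (L, z) ⟨hL, hz⟩
  · rintro _ ⟨⟨L, z⟩, ⟨hL, hz⟩, rfl⟩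
    exact ⟨L, z, hL, hz, rfl⟩
  · rintro ⟨L, z⟩ ⟨hL, hz⟩
    obtain ⟨L', h1, h2, h3⟩ := H.step hf hL hz
    exact ⟨(L', z), ⟨h1, h2⟩, h3⟩

end Pool.Agent.RM
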