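import Pool.Agent.Lib.MP_ca56d1_nt.C.Main0
import Pool.Agent.Lib.MP_ca56d1_nt.C.Orb
import Pool.Agent.Lib.MP_ca56d1_nt.C.Vol
import Pool.Agent.Lib.MP_ca56d1_nt.C.Bal
import Pool.Agent.Lib.MP_ca56d1_nt.RM.Shint

namespace Pool.Agent.RM

variable {K : Type*} [Field K] [CharZero K] {σ σ' : K →+* ℝ}

/-- Part C from the finite pentagon identity. -/
theorem partC (h : RQ σ σ') (hB : PartBP σ σ') : PartC σ σ' :=
  partC_of h (partA h) hB (volSt h) (balSt h) (orbSt (partA h))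

end Pool.Agent.RM
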