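import Pool.Agent.Lib.MP_ca56d1_nt.C.Glue
import Pool.Agent.Lib.MP_ca56d1_nt.C.Int

set_option linter.unusedSectionVars false
set_option linter.style.haveILetI false

namespace Pool.Agent.RM

open Finset StarkC

variable {K : Type*} [Field K] [CharZero K] {σ σ' : K →+* ℝ} {ε : K} {L : Submodule ℤ K}

theorem val_d (O : ValuationSubring ℂ) {p c n : ℕ} (hp : p.Prime) (hO : O.valuation p < 1)
    (hn : ¬ p ∣ n) {d : ℂ} (hd : d ^ 2 = (p ^ c * n : ℕ)) :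
    O.valuation d ^ 2 = O.valuation p ^ c := by
  rw [← map_pow, hd, Nat.cast_mul, map_mul, val_coprime O hp hO hn, mul_one, Nat.cast_pow, map_pow]

theorem unit_lvl (h : RQ σ σ') (hA : PartA σ σ') (hB : PartBP σ σ') (hV : VolSt σ σ')
    (hε : Eps σ σ' ε) {p : ℕ} (hp : p.Prime) (O : ValuationSubring ℂ) (hO : O.valuation p < 1)
    (hL : ELat ε L) (h0 : ∀ y ∈ L, (ε - 1) * y / p ∈ L) {z : K} (hz : (ε - 1) * z ∈ L) :
    O.valuation (Fm σ σ' ε L z) = 1 := by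
  haveI := Fact.mk hp
  have hpK : (p : K) ≠ 0 := by exact_mod_cast hp.ne_zero
  obtain ⟨w₁, w₂, N, ind, mem, hN, hN', hsq⟩ := basSt h ε L hε hL
  have hpN : p ∣ N := by
    have h1 : w₁ ∈ L := (mem _).2 ⟨1, 0, by simp⟩
    have h2 := h0 _ (h0 _ h1)
    have e : (ε - 1) * ((ε - 1) * w₁ / p) / p = ε * (N * w₁ / p ^ 2) := by
      field_simp; linear_combination w₁ * hsq
    rw [e, hL.stab, mem] at h2
    obtain ⟨a, b, e⟩ := h2
    have := (ind (N - p ^ 2 * a) (-(p ^ 2 * b)) (by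
      push_cast; field_simp at e; linear_combination e)).1
    exact Int.natCast_dvd_natCast.1 ⟨p * a, by linear_combination this⟩
  obtain ⟨c, N', hN'p, hc⟩ := Nat.exists_eq_pow_mul_and_not_dvd hN.ne' p hp.ne_one
  obtain ⟨c, rfl⟩ : ∃ c', c = c' + 1 := by
    rcases c with _ | c
    · exact absurd (by simpa [hc] using hpN) hN'p
    · exact ⟨c, rfl⟩
  rw [← av_eq_zero (Fm_ne _)]
  refine hV _ ε p (fun L z => av O (Fm σ σ' ε L z)) hε ⟨L, hL, h0⟩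
    (((finSt h hA ε hε).image (av O)).subset ?_) (fun L z y _ hy => ?_)
    (fun L s z hL h1 h2 h3 h4 => ?_) (fun L f z hL hf _ hz => ?_) L z hL hz
  · rintro _ ⟨L, z, hL, hz, rfl⟩
    exact ⟨_, ⟨L, z, hL, hz, rfl⟩, rfl⟩
  · rw [Fm_per (y := z) (by simpa using hy)]
  · rw [Fm_dist hA hε hL h1 h2 h3 h4, av_prod _ _ fun _ => Fm_ne _]
  · obtain ⟨d, hd, hP⟩ := pent O hL hN hN' hsq (hB ε L hε hL)
    have hg : (ε - 1) * ((ε - 1) * f / p ^ (c + 1)) ∈ L := by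
      have e : (ε - 1) * ((ε - 1) * f / p ^ (c + 1)) = (N' : ℤ) • (ε * f) := by
        have : (N : K) = p ^ (c + 1) * N' := by exact_mod_cast hc
        rw [zsmul_eq_mul]; push_cast; field_simp; linear_combination f * hsq + ε * f * this
      rw [e]; exact L.smul_mem _ ((hL.stab f).2 hf)
    have := hP.leaf hp hO (val_d O hp hO hN'p (hc ▸ hd)) ((finSt h hA ε hε).subset ?_) (cl _ hg)
      ?_ (cl z hz)
    · rw [cl_nsmul, cl_add, lf_Fm, lf_Fm] at this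
      rw [← this]
      congr 3
      push_cast; field_simp; ring
    · rintro _ ⟨a, rfl⟩
      obtain ⟨x, hx, rfl⟩ := cl_surj a
      exact ⟨L, x, hL, hx, lf_Fm hx⟩
    · rw [cl_nsmul, cl_eq_zero]
      convert hL.sharp_of_mem hf using 1
      push_cast; field_simp

theorem unit_all (h : RQ σ σ') (hA : PartA σ σ') (hB : PartBP σ σ') (hV : VolSt σ σ')
    (hε : Eps σ σ' ε) (hL : ELat ε L) {p : ℕ} (hp : p.Prime) (O : ValuationSubring ℂ)
    (hO : O.valuation p < 1) {x : K} (hx : (ε - 1) * x ∈ L) :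
    O.valuation (Fm σ σ' ε L x) = 1 := by
  haveI := Fact.mk hp
  obtain ⟨-, -, N, -, -, -, -, hsq⟩ := basSt h ε L hε hL
  obtain ⟨n, hn, e⟩ := exists_level hsq hL p
  have := unit_lvl h hA hB hV (hε.pow hn) hp O hO (hL.pow n) e (hL.sharp_pow hx n)
  rw [Fm_pow hA hε hL hx hn, map_pow] at this
  exact (pow_eq_one_iff_left hn).1 this

theorem Fm_smul (hA : PartA σ σ') {ε₁ : K} (hε : Eps σ σ' ε) (hL : ELat ε L) (hε₁ : Eps σ σ' ε₁)
    (hL₁ : ELat ε₁ L) {y : K} (hy : (ε₁ - 1) * y ∈ L) :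
    Fm σ σ' ε₁ L (ε * y) = Fm σ σ' ε₁ L y := by
  have e : {w | ε * w ∈ coset L (ε * y)} = coset L y := by
    ext w
    change ε * w - ε * y ∈ L ↔ w - y ∈ L
    rw [← mul_sub, hL.stab]
  rw [Fm, Fm, ← hA.smul ε₁ _ hε₁ (coset_lat hL₁ _)
    (coset_stab hL₁ (by rw [mul_left_comm, hL.stab]; exact hy)) ε hε.pos hε.pos', e]

theorem inv_all (h : RQ σ σ') (hA : PartA σ σ') (hB : PartBP σ σ') (hV : VolSt σ σ')
    (hBal : BalSt σ σ') (hε : Eps σ σ' ε) (hL : ELat ε L) {p : ℕ} (hp : p.Prime) {s t : K}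
    {η η' : ℤ} (hs : (p : K) * s ∈ L) (ht : (p : K) * t ∈ L)
    (ind : ∀ a b : ℤ, (a : K) * s + b * t ∈ L → (p : ℤ) ∣ a ∧ (p : ℤ) ∣ b)
    (es : ε * s - η * s ∈ L) (et : ε * t - η' * t ∈ L) (h1 : (p : ℤ) ∣ η * η' - 1)
    (h2 : ¬ (p : ℤ) ∣ η ^ 2 - 1) {n : ℕ} (hn : n ≠ 0) (h3 : (p : ℤ) ∣ η ^ n - 1)
    (O : ValuationSubring ℂ) (hO : O.valuation p < 1) :
    (∀ x, (ε - 1) * x ∈ L → ∀ i : ℤ,
        O.valuation (Fm σ σ' (ε ^ n) L (x + i * s) - Fm σ σ' (ε ^ n) L x) < 1) ∨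
      (∀ x, (ε - 1) * x ∈ L → ∀ i : ℤ,
        O.valuation (Fm σ σ' (ε ^ n) L (x + i * t) - Fm σ σ' (ε ^ n) L x) < 1) := by
  haveI := Fact.mk hp
  haveI := charP_res O hp hO
  have hpK : (p : K) ≠ 0 := by exact_mod_cast hp.ne_zero
  obtain ⟨c, N', hN'p, hc, hbal⟩ := hBal ε L hε hL p hp s t η η' hs ht ind es et h1 h2 n hn h3
  have hε₁ := hε.pow hn
  have hL₁ := hL.pow n
  have hxs : ∀ x, (ε - 1) * x ∈ L → (ε ^ n - 1) * x ∈ L := fun x hx => hL.sharp_pow hx n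
  generalize ε ^ n = ε₁ at *
  obtain ⟨-, -, N, -, -, hN, hN', hsq⟩ := basSt h ε₁ L hε₁ hL₁
  obtain rfl : N = p ^ (2 * (c + 1)) * N' := by exact_mod_cast hN'.symm.trans hc
  obtain ⟨d, hd, hP⟩ := pent O hL₁ hN hN' hsq (hB ε₁ L hε₁ hL₁)
  have hun : ∀ {x}, (ε₁ - 1) * x ∈ L → O.valuation (Fm σ σ' ε₁ L x) = 1 :=
    fun hx => unit_all h hA hB hV hε₁ hL₁ hp O hO hx
  have hu : ∀ a, O.valuation (lf (Fm σ σ' ε₁ L) (a : GG ε₁ L)) = 1 := fun a => by
    obtain ⟨x, hx, rfl⟩ := cl_surj a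
    rw [lf_Fm, hun hx]
  have hv : O.valuation (((σ ε₁ : ℝ) : ℂ) - 1) < 1 := by
    have e := congrArg O.valuation (emb_sq (σ := σ) hsq)
    rw [map_pow, map_mul, val_eps O hsq, mul_one, ← hd, map_pow, val_d O hp hO hN'p hd] at e
    exact (pow_lt_one_iff two_ne_zero).1 (e ▸ pow_lt_one' hO (by omega))
  have hpm : ∀ a : GG ε₁ L, O.valuation (lf (Fp σ σ' ε₁ L) a - lf (Fm σ σ' ε₁ L) a) < 1 := by
    intro a
    obtain ⟨x, hx, rfl⟩ := cl_surj a
    rw [lf_Fm, lf_Fp, Fp]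
    split_ifs
    · rw [← sub_one_mul, map_mul, hun hx, mul_one]; exact hv
    · simp
  have hg : ∀ {u : K}, (p : K) * u ∈ L → (ε₁ - 1) * (u / p ^ c) ∈ L := fun {u} hu => by
    convert hbal _ hu using 1; field_simp; ring
  have hg' : ∀ {u : K}, (p : K) * u ∈ L → (ε₁ - 1) * u ∈ L := fun {u} hu => by
    have e : u = (p ^ c : ℕ) * (u / p ^ c) := by push_cast; field_simp
    rw [e]; exact shp_nat (hg hu) _
  have e0 : ∀ {u : K} (hu : (p : K) * u ∈ L), p • cl u (hg' hu) = 0 := fun hu => by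
    rwa [cl_nsmul, cl_eq_zero]
  have e1 : ∀ {u : K} (hu : (p : K) * u ∈ L), p ^ c • cl _ (hg hu) = cl u (hg' hu) := by
    intro u hu
    rw [cl_nsmul, cl_eq]; push_cast; field_simp; simp
  have e2 : ∀ {u : K} (hu : (p : K) * u ∈ L), p ^ (c + 1) • cl _ (hg hu) = 0 := fun hu => by
    rw [pow_succ', mul_smul, e1 hu, e0 hu]
  set j : Pl p →+ GG ε₁ L := (zhom p _ (e0 hs)).coprod (zhom p _ (e0 ht)) with hj
  have jj : ∀ a b : ℤ, j ((a : ZMod p), (b : ZMod p)) =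
      cl _ (shp_add (shp_int (hg' hs) a) (shp_int (hg' ht) b)) := fun a b => by
    rw [hj, AddMonoidHom.coprod_apply, zhom_int, zhom_int, cl_zsmul, cl_zsmul, cl_add]
  have low := hP.low hO (val_d O hp hO hN'p hd) hu hpm _ _ (e2 hs) (e2 ht) j
    (by rw [e1 hs]; simpa using (jj 1 0).trans (cl_eq.2 (by simp)))
    (by rw [e1 ht]; simpa using (jj 0 1).trans (cl_eq.2 (by simp)))
  set f : GG ε₁ L → Pl p → _ := fun x z => red O (lf (Fm σ σ' ε₁ L) (x + j z)) with hf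
  set g : GG ε₁ L → Pl p → _ := fun x z => red O (lf (Fm σ σ' ε₁ L) (x + j z))⁻¹ with hg0
  have fg : ∀ x, f x * g x = 1 := fun x => by
    ext z
    simp only [hf, hg0, Pi.mul_apply, Pi.one_apply]
    rw [← red_mul (hu _).le (by rw [map_inv₀, hu, inv_one]), mul_inv_cancel₀ (hP.ne _), red_one]
  have fv : ∀ x (hx : (ε₁ - 1) * x ∈ L) (a b : ℤ),
      f (cl x hx) ((a : ZMod p), (b : ZMod p)) = red O (Fm σ σ' ε₁ L (x + (a * s + b * t))) := by
    intro x hx a b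
    simp only [hf]
    rw [jj, cl_add, lf_Fm]
  have dich : ∀ x (hx : (ε - 1) * x ∈ L),
      D 1 0 (f (cl x (hxs x hx))) = 0 ∨ D 0 1 (f (cl x (hxs x hx))) = 0 := by
    intro x hx
    refine dichotomy (fg _) (low _ _) (η := η) (η' := η') ?_ (fun e => h2 ?_) fun z => ?_
    · have := (ZMod.intCast_zmod_eq_zero_iff_dvd _ p).2 h1
      push_cast at this
      linear_combination this
    · rw [← ZMod.intCast_zmod_eq_zero_iff_dvd]; push_cast; rw [e, sub_self]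
    · obtain ⟨a, b⟩ := z
      obtain ⟨a, rfl⟩ := ZMod.intCast_surjective a
      obtain ⟨b, rfl⟩ := ZMod.intCast_surjective b
      simp only
      rw [← Int.cast_mul, ← Int.cast_mul, fv, fv, ← Fm_smul hA hε hL hε₁ hL₁ (y := x + _)
        (shp_add (hxs x hx) (shp_add (shp_int (hg' hs) a) (shp_int (hg' ht) b))), eq_comm,
        Fm_per]
      convert L.add_mem hx (L.add_mem (L.smul_mem a es) (L.smul_mem b et)) using 1
      simp only [zsmul_eq_mul]; push_cast; ring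
  have fin : ∀ x (hx : (ε₁ - 1) * x ∈ L) (u : Pl p) (a b : ℤ) (k : ℕ) (y : K),
      StarkC.dl _ u (f (cl x hx)) = 0 → ((a : ZMod p), (b : ZMod p)) = k • u →
      y = a * s + b * t → O.valuation (Fm σ σ' ε₁ L (x + y) - Fm σ σ' ε₁ L x) < 1 := by
    intro x hx u a b k y e e' ey
    have k1 := congrFun (sh_fix e k) 0
    have k2 := fv x hx 0 0
    rw [sh_apply, zero_add, ← e', fv] at k1
    simp only [Int.cast_zero, zero_mul, add_zero] at k2
    rw [ey, ← red_eq_iff (hun (shp_add hx (shp_add (shp_int (hg' hs) a)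
      (shp_int (hg' ht) b)))).le (hun hx).le, k1]
    exact k2
  by_cases hc1 : ∀ x (hx : (ε - 1) * x ∈ L), D 1 0 (f (cl x (hxs x hx))) = 0
  · refine Or.inl fun x hx i => fin x (hxs x hx) (1, 0) i 0 (i : ZMod p).val _
      (by simpa [D, dd] using hc1 x hx) (by simp) (by simp)
  · push Not at hc1
    obtain ⟨x₁, hx₁, n₁⟩ := hc1
    have k1 := (dich x₁ hx₁).resolve_left n₁
    refine Or.inr fun x hx i => fin x (hxs x hx) (0, 1) 0 i (i : ZMod p).val _ ?_ (by simp)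
      (by simp)
    have : D 0 1 (f (cl x (hxs x hx))) = 0 := (dich x hx).elim (fun k2 =>
      (uniform (fg _) (fg _) (low _ _) (low _ _) (low _ _) (low _ _) k2 k1).resolve_right n₁) id
    simpa [D, dd] using this

theorem pow_dvd_iff {p η η' : ℤ} (h : p ∣ η * η' - 1) {k : ℕ} (h1 : p ∣ η ^ k - 1) :
    p ∣ η' ^ k - 1 := by
  have h2 : p ∣ (η * η') ^ k - 1 := h.trans (by simpa using sub_dvd_pow_sub_pow (η * η') 1 k)
  have e : η' ^ k - 1 = (η * η') ^ k - 1 - η' ^ k * (η ^ k - 1) := by rw [mul_pow]; ring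
  exact e ▸ dvd_sub h2 (h1.mul_left _)

theorem partC_of (h : RQ σ σ') (hA : PartA σ σ') (hB : PartBP σ σ') (hV : VolSt σ σ')
    (hBal : BalSt σ σ') (hOr : OrbSt σ σ') : PartC σ σ' := by
  have np : ∀ {p : ℕ}, p.Prime → ¬ (p : ℤ) ∣ 1 := fun hp e =>
    hp.one_lt.ne' (Nat.dvd_one.1 (by exact_mod_cast e))
  have both : ∀ ε L, Eps σ σ' ε → ELat ε L → ∀ p : ℕ, p.Prime → 5 ≤ p →
      ∀ (s t : K) (η η' : ℤ), (p : K) * s ∈ L → (p : K) * t ∈ L →
      (∀ a b : ℤ, (a : K) * s + b * t ∈ L → (p : ℤ) ∣ a ∧ (p : ℤ) ∣ b) →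
      ε * s - η * s ∈ L → ε * t - η' * t ∈ L → (p : ℤ) ∣ η * η' - 1 → ¬ (p : ℤ) ∣ η ^ 2 - 1 →
      ∀ n : ℕ, n ≠ 0 → (p : ℤ) ∣ η ^ n - 1 → (∀ k, 0 < k → k < n → ¬ (p : ℤ) ∣ η ^ k - 1) →
      ∀ O : ValuationSubring ℂ, O.valuation p < 1 →
      (∀ x, (ε - 1) * x ∈ L → ∀ i : ℤ,
        O.valuation (Fm σ σ' (ε ^ n) L (x + i * s) - Fm σ σ' (ε ^ n) L x) < 1) ∨
      (∀ x, (ε - 1) * x ∈ L →
        O.valuation (Fm σ σ' ε (L ⊔ Submodule.span ℤ {t}) x - Fm σ σ' ε L x ^ p) < 1) := by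
    intro ε L hε hL p hp _ s t η η' hs ht ind es et h1 h2 n hn h3 h4 O hO
    refine (inv_all h hA hB hV hBal hε hL hp hs ht ind es et h1 h2 hn h3 O hO).imp_right
      fun k x hx => hOr ε L hε hL p hp t η' ht (fun e => np hp (ind 0 1 (by simpa using e)).2) et
        n hn (pow_dvd_iff h1 h3) (fun k k1 k2 e => h4 k k1 k2 (pow_dvd_iff (mul_comm η η' ▸ h1) e))
        O x hx (unit_all h hA hB hV hε hL hp O hO hx) (k x hx)
  refine ⟨fun ε L hε hL p hp O hO x hx => unit_all h hA hB hV hε hL hp O hO hx,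
    fun ε L hε hL x hx => ⟨intSt _ fun p hp O hO => (unit_all h hA hB hV hε hL hp O hO hx).le,
      intSt _ fun p hp O hO => by rw [map_inv₀, unit_all h hA hB hV hε hL hp O hO hx, inv_one]⟩,
    fun ε L hε hL p hp _ s t η η' hs ht ind es et h1 h2 n hn h3 O hO =>
      ⟨fun x hx => unit_all h hA hB hV (hε.pow hn) (hL.pow n) hp O hO hx,
        inv_all h hA hB hV hBal hε hL hp hs ht ind es et h1 h2 hn h3 O hO⟩, both,
    fun ε L hε hL p hp h5 s t η η' hs ht ind es et h1 h2 O hO =>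
      ⟨fun x hx => unit_all h hA hB hV hε hL hp O hO hx, ?_⟩⟩
  haveI := Fact.mk hp
  have ex : ∃ n : ℕ, n ≠ 0 ∧ (p : ℤ) ∣ η ^ n - 1 := by
    refine ⟨p - 1, by omega, ?_⟩
    have e := (ZMod.intCast_zmod_eq_zero_iff_dvd _ p).2 h1
    rw [← ZMod.intCast_zmod_eq_zero_iff_dvd]
    push_cast at e ⊢
    rw [ZMod.pow_card_sub_one_eq_one (fun c => by simp [c] at e), sub_self]
  classical
  have h4 : ∀ k, 0 < k → k < Nat.find ex → ¬ (p : ℤ) ∣ η ^ k - 1 :=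
    fun k k1 k2 e => Nat.find_min ex k2 ⟨k1.ne', e⟩
  obtain ⟨hn, h3⟩ := Nat.find_spec ex
  exact (both ε L hε hL p hp h5 s t η η' hs ht ind es et h1 h2 _ hn h3 h4 O hO).imp_left
    fun k x hx => hOr ε L hε hL p hp s η hs (fun e => np hp (ind 1 0 (by simpa using e)).1) es
      _ hn h3 h4 O x hx (unit_all h hA hB hV hε hL hp O hO hx) (k x hx)

end Pool.Agent.RM
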