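import Pool.Agent.Lib.MP_ca56d1_nt.C.Weight
import Pool.Agent.Lib.MP_ca56d1_nt.C.Leaf
import Pool.Agent.Lib.MP_ca56d1_nt.C.Dich

set_option linter.unusedSectionVars false
set_option linter.style.haveILetI false

namespace Pool.Agent.StarkC

open Finset

variable (O : ValuationSubring ℂ)

open Classical in
noncomputable def red (z : ℂ) : IsLocalRing.ResidueField O :=
  if h : z ∈ O then IsLocalRing.residue O ⟨z, h⟩ else 0

open Classical in
noncomputable def av (z : ℂ) : Additive (O.ValueGroup)ˣ :=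
  if h : O.valuation z = 0 then 0 else Additive.ofMul (Units.mk0 _ h)

variable {O}

theorem red_of {z : ℂ} (h : O.valuation z ≤ 1) :
    red O z = IsLocalRing.residue O ⟨z, (O.valuation_le_one_iff _).1 h⟩ := by
  rw [red, dif_pos]

theorem red_eq_zero {z : ℂ} (h : O.valuation z ≤ 1) : red O z = 0 ↔ O.valuation z < 1 := by
  rw [red_of h, IsLocalRing.residue_eq_zero_iff, O.valuation_lt_one_iff]

theorem red_mul {z w : ℂ} (hz : O.valuation z ≤ 1) (hw : O.valuation w ≤ 1) :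
    red O (z * w) = red O z * red O w := by
  have h : O.valuation (z * w) ≤ 1 := by rw [map_mul]; exact mul_le_one' hz hw
  rw [red_of hz, red_of hw, red_of h, ← map_mul (IsLocalRing.residue O)]; rfl

theorem red_one : red O 1 = 1 := by rw [red_of (by simp), ← map_one (IsLocalRing.residue O)]; rfl

theorem red_eq_iff {z w : ℂ} (hz : O.valuation z ≤ 1) (hw : O.valuation w ≤ 1) :
    red O z = red O w ↔ O.valuation (z - w) < 1 := by
  rw [red_of hz, red_of hw, ← sub_eq_zero, ← map_sub, IsLocalRing.residue_eq_zero_iff,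
    O.valuation_lt_one_iff]; rfl

theorem av_of {z : ℂ} (h : z ≠ 0) :
    av O z = Additive.ofMul (Units.mk0 (O.valuation z) (by simpa using h)) := by
  rw [av, dif_neg]

theorem av_le {z w : ℂ} (hz : z ≠ 0) (hw : w ≠ 0) :
    av O z ≤ av O w ↔ O.valuation z ≤ O.valuation w := by
  rw [av_of hz, av_of hw, Additive.ofMul_le, ← Units.val_le_val]; rfl

theorem av_eq {z w : ℂ} (hz : z ≠ 0) (hw : w ≠ 0) :
    av O z = av O w ↔ O.valuation z = O.valuation w := by
  rw [le_antisymm_iff, le_antisymm_iff, av_le hz hw, av_le hw hz]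

theorem av_mul {z w : ℂ} (hz : z ≠ 0) (hw : w ≠ 0) : av O (z * w) = av O z + av O w := by
  rw [av_of hz, av_of hw, av_of (mul_ne_zero hz hw), ← ofMul_mul]
  congr 1; ext; simp

theorem av_one : av O 1 = 0 := by
  have := av_mul (O := O) one_ne_zero one_ne_zero
  simpa using this

theorem av_div {z w : ℂ} (hz : z ≠ 0) (hw : w ≠ 0) : av O (z / w) = av O z - av O w := by
  rw [eq_sub_iff_add_eq, ← av_mul (div_ne_zero hz hw) hw, div_mul_cancel₀ _ hw]

theorem av_eq_zero {z : ℂ} (hz : z ≠ 0) : av O z = 0 ↔ O.valuation z = 1 := by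
  rw [← av_one (O := O), av_eq hz one_ne_zero, map_one]

theorem av_prod {ι : Type*} (s : Finset ι) (f : ι → ℂ) (hf : ∀ i, f i ≠ 0) :
    av O (∏ i ∈ s, f i) = ∑ i ∈ s, av O (f i) := by
  classical
  induction s using Finset.induction_on with
  | empty => simp [av_one]
  | insert a s ha ih =>
    rw [prod_insert ha, sum_insert ha, av_mul (hf a) (prod_ne_zero_iff.2 fun i _ => hf i), ih]

variable {A ι : Type*} [AddCommGroup A]

structure Pent (O : ValuationSubring ℂ) (ι : Type*) (Fp Fm : A → ℂ) (d : ℂ) : Prop where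
  tor : ∃ N : ℕ, N ≠ 0 ∧ ∀ x : A, N • x = 0
  ne : ∀ x, Fm x ≠ 0
  val : ∀ x, O.valuation (Fp x) = O.valuation (Fm x)
  odd : ∀ x, O.valuation (Fm x * Fm (-x)) = 1
  ex : ∀ a : A, a ≠ 0 → ∃ (s : Finset ι) (χ : ι → A → ℂ) (c : ι → ℂ),
    (∀ i ∈ s, ∀ x y, χ i (x + y) = χ i x * χ i y) ∧ (∀ i ∈ s, χ i 0 = 1) ∧
    (∀ i ∈ s, ∃ g, O.valuation (c i) = O.valuation (Fm (g + a) / (Fm g * Fm a))) ∧
    ∀ h, d * (Fp h / Fm (a + h)) = ∑ i ∈ s, c i * χ i h

theorem chi_pow {χ : A → ℂ} (h : ∀ x y, χ (x + y) = χ x * χ y) (h0 : χ 0 = 1) (n : ℕ) (x : A) :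
    χ x ^ n = χ (n • x) := by
  induction n with
  | zero => simp [h0]
  | succ n ih => rw [pow_succ, ih, succ_nsmul, h]

variable {Fp Fm : A → ℂ} {d : ℂ} {p : ℕ}

theorem Pent.ne' (h : Pent O ι Fp Fm d) (x : A) : Fp x ≠ 0 := by
  intro h0
  have := h.val x
  rw [h0, map_zero] at this
  exact h.ne x (by simpa using this.symm)

theorem Pent.deg (h : Pent O ι Fp Fm d) (hp : p.Prime) (hO : O.valuation p < 1) {c : ℕ}
    (hd : O.valuation d ^ 2 = O.valuation p ^ c) {a : A} (ha : a ≠ 0) {t : ℂ} (ht : t ≠ 0)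
    (h1 : ∀ x, O.valuation (Fp x / Fm (a + x)) ≤ O.valuation t)
    (h2 : ∀ g, O.valuation (Fm (g + a) / (Fm g * Fm a)) ≤ O.valuation t)
    (g₁ g₂ : A) (b₁ b₂ : ℕ) (e₁ : p ^ (b₁ + 1) • g₁ = 0) (e₂ : p ^ (b₂ + 1) • g₂ = 0) (i l : ℕ)
    (hw : c * (p * (p - 1)) < 2 * (i * (p + b₁ * (p - 1)) + l * (p + b₂ * (p - 1)))) :
    dd (IsLocalRing.ResidueField O) (p ^ b₁ • g₁) (p ^ b₂ • g₂) i l
      (fun x => red O (Fp x / Fm (a + x) / t)) = 0 := by
  obtain ⟨s, χ, c', k1, k2, k3, k4⟩ := h.ex a ha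
  obtain ⟨N, hN, hN'⟩ := h.tor
  have t0 : 0 < O.valuation t := zero_lt_iff.2 (by simpa using ht)
  have hle : ∀ x, O.valuation (Fp x / Fm (a + x) / t) ≤ 1 := fun x => by
    rw [map_div₀]; exact (div_le_one₀ t0).2 (h1 x)
  have := weight O hp hO (fun x => ⟨_, (O.valuation_le_one_iff _).1 (hle x)⟩) s
    (fun i => c' i / t) χ d (fun x => ?_) (fun i hi => ?_) k1 (fun i hi x => ?_) hd g₁ g₂ b₁ b₂
    (fun i hi => ?_) (fun i hi => ?_) i l hw
  · rw [← this]
    congr 1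
    ext x
    exact red_of (hle x)
  · simp only
    rw [← mul_div_assoc, k4, sum_div]
    exact sum_congr rfl fun i _ => by ring
  · obtain ⟨g, hg⟩ := k3 i hi
    rw [map_div₀, hg]; exact (div_le_one₀ t0).2 (h2 g)
  · exact (val_root O hN (by rw [chi_pow (k1 i hi) (k2 i hi), hN', k2 i hi])).le
  · rw [chi_pow (k1 i hi) (k2 i hi), e₁, k2 i hi]
  · rw [chi_pow (k1 i hi) (k2 i hi), e₂, k2 i hi]

noncomputable def zhom (p : ℕ) (u : A) (hu : p • u = 0) : ZMod p →+ A :=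
  ZMod.lift p ⟨zmultiplesHom A u, by simpa using hu⟩

theorem zhom_int (p : ℕ) (u : A) (hu : p • u = 0) (n : ℤ) : zhom p u hu n = n • u := by
  simp [zhom]

theorem zhom_val [NeZero p] (u : A) (hu : p • u = 0) (y : ZMod p) :
    zhom p u hu y = y.val • u := by
  have := zhom_int p u hu y.val
  rwa [Int.cast_natCast, ZMod.natCast_zmod_val, natCast_zsmul] at this

theorem Pent.leaf (h : Pent O ι Fp Fm d) (hp : p.Prime) (hO : O.valuation p < 1) {c : ℕ}
    (hd : O.valuation d ^ 2 = O.valuation p ^ (c + 1)) (hfin : (Set.range Fm).Finite) (g : A)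
    (hg : p ^ (c + 1) • g = 0) (x : A) : av O (Fm (x + p ^ c • g)) = av O (Fm x) := by
  classical
  haveI := Fact.mk hp
  haveI := charP_res O hp hO
  have hu : p • (p ^ c • g) = 0 := by rw [smul_smul, ← pow_succ', hg]
  have h1 : zhom p _ hu 1 = p ^ c • g := by simpa using zhom_int p _ hu 1
  rw [← h1]
  refine leaf_abs (fun x => av O (Fm x)) (fun x => ?_) ((hfin.image (av O)).subset ?_)
    (zhom p _ hu) (fun i hi μ k1 k2 k3 => ?_) x
  · have := (av_eq_zero (mul_ne_zero (h.ne x) (h.ne (-x)))).2 (h.odd x)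
    rw [av_mul (h.ne _) (h.ne _)] at this
    exact eq_neg_of_add_eq_zero_right this
  · rintro _ ⟨x, rfl⟩
    exact ⟨_, ⟨x, rfl⟩, rfl⟩
  set a := zhom p _ hu i with ha
  obtain ⟨x0, hx0⟩ := k3
  have ht : Fm (x0 + a) / Fm x0 ≠ 0 := div_ne_zero (h.ne _) (h.ne _)
  have hμ : av O (Fm (x0 + a) / Fm x0) = μ := by rw [av_div (h.ne _) (h.ne _), hx0]
  have e0 : ∀ x, av O (Fp (x + a) / Fm (-a + (x + a))) = av O (Fm (x + a)) - av O (Fm x) := by
    intro x
    rw [av_div (h.ne' _) (h.ne _), (av_eq (h.ne' _) (h.ne _)).2 (h.val _)]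
    simp
  have k4 : ∀ x, O.valuation (Fp x / Fm (-a + x)) ≤ O.valuation (Fm (x0 + a) / Fm x0) := by
    intro x
    rw [← av_le (div_ne_zero (h.ne' _) (h.ne _)) ht, hμ, ← sub_add_cancel x a, e0]
    exact k1 _
  have hw : (c + 1) * (p * (p - 1)) <
      2 * (0 * (p + c * (p - 1)) + ((p - 1) / 2 + 1) * (p + c * (p - 1))) := by
    have h2 := hp.two_le
    obtain ⟨q, rfl⟩ : ∃ q, p = q + 1 := ⟨p - 1, by omega⟩
    have h3 : q + 1 ≤ 2 * (q / 2 + 1) := by omega
    rw [Nat.add_sub_cancel, zero_mul, zero_add, ← mul_assoc 2]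
    refine lt_of_lt_of_le ?_ (Nat.mul_le_mul_right _ h3)
    nlinarith
  have k5 := h.deg hp hO hd (neg_ne_zero.2 hi) ht k4 (fun g => by
      rw [← av_le (div_ne_zero (h.ne _) (mul_ne_zero (h.ne _) (h.ne _))) ht, hμ,
        av_div (h.ne _) (mul_ne_zero (h.ne _) (h.ne _)), av_mul (h.ne _) (h.ne _)]
      have o := (av_eq_zero (mul_ne_zero (h.ne a) (h.ne (-a)))).2 (h.odd a)
      rw [av_mul (h.ne _) (h.ne _)] at o
      have := k2 g
      rw [← sub_eq_add_neg]
      grind) (i.val • g) (i.val • g) c c (by rw [smul_comm, hg, smul_zero])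
    (by rw [smul_comm, hg, smul_zero]) 0 ((p - 1) / 2 + 1) hw
  have e1 : p ^ c • i.val • g = a := by rw [ha, zhom_val, smul_comm]
  have nz : ∀ x, red O (Fp (x + a) / Fm (-a + (x + a)) / (Fm (x0 + a) / Fm x0)) ≠ 0 ↔
      av O (Fm (x + a)) - av O (Fm x) = μ := by
    intro x
    have t0 : 0 < O.valuation (Fm (x0 + a) / Fm x0) := zero_lt_iff.2 (by simpa using ht)
    rw [Ne, red_eq_zero (by rw [map_div₀]; exact (div_le_one₀ t0).2 (k4 _)), ← e0, ← hμ,
      av_eq (div_ne_zero (h.ne' _) (h.ne _)) ht, map_div₀ _ _ (Fm (x0 + a) / Fm x0),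
      div_lt_one₀ t0]
    exact ⟨fun h => le_antisymm (k4 _) (not_lt.1 h), fun h => not_lt.2 h.ge⟩
  have k6 := card_supp ((zhom p _ hu).comp (AddMonoidHom.mulRight i)) (x0 + a)
    (fun x => red O (Fp x / Fm (-a + x) / (Fm (x0 + a) / Fm x0))) ((p - 1) / 2)
    (by have := hp.two_le; omega) (by simpa [dd, e1, ← ha] using k5) 0
    (by simpa using (nz x0).2 hx0)
  refine ⟨x0, k6.trans (le_of_eq ?_)⟩
  congr 2
  ext y
  simp only [AddMonoidHom.comp_apply, AddMonoidHom.mulRight_apply, mem_filter, mem_univ, true_and]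
  rw [add_right_comm x0 a, nz]

theorem Pent.low (h : Pent O ι Fp Fm d) [hp : Fact p.Prime] (hO : O.valuation p < 1) {c : ℕ}
    (hd : O.valuation d ^ 2 = O.valuation p ^ (2 * (c + 1))) (hu : ∀ x, O.valuation (Fm x) = 1)
    (hpm : ∀ x, O.valuation (Fp x - Fm x) < 1) (g₁ g₂ : A) (e₁ : p ^ (c + 1) • g₁ = 0)
    (e₂ : p ^ (c + 1) • g₂ = 0) (j : Pl p →+ A) (j₁ : j (1, 0) = p ^ c • g₁)
    (j₂ : j (0, 1) = p ^ c • g₂) (x y : A) :
    haveI := charP_res O hp.out hO
    Low (fun z => red O (Fm (x + j z))) (fun z => red O (Fm (y + j z))⁻¹) := by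
  haveI := charP_res O hp.out hO
  intro a b i l hil
  have hi : ∀ x, O.valuation (Fm x)⁻¹ = 1 := fun x => by rw [map_inv₀, hu, inv_one]
  have e : ∀ u w, red O (Fp u / Fm w / 1) = red O (Fm u) * red O (Fm w)⁻¹ := by
    intro u w
    rw [div_one, div_eq_mul_inv, red_mul (by rw [h.val, hu]) (hi _).le,
      (red_eq_iff (by rw [h.val, hu]) (hu _).le).2 (hpm u)]
  have e2 : (sh _ a (fun z => red O (Fm (x + j z))) * sh _ b fun z => red O (Fm (y + j z))⁻¹) =
      fun z => (fun u => red O (Fp u / Fm (y + j b - (x + j a) + u) / 1)) (x + j a + j z) := by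
    ext z
    simp only [Pi.mul_apply, sh_apply, map_add, e]
    rw [show x + (j z + j a) = x + j a + j z by abel,
      show y + (j z + j b) = y + j b - (x + j a) + (x + j a + j z) by abel]
  rw [e2, D, dd_comp j (x + j a) _ _ _ _
    (fun u => red O (Fp u / Fm (y + j b - (x + j a) + u) / 1))]
  by_cases h0 : y + j b - (x + j a) = 0
  · have : (fun u => red O (Fp u / Fm (y + j b - (x + j a) + u) / 1)) = 1 := by
      ext u
      rw [e, h0, zero_add, ← red_mul (hu _).le (hi _).le, mul_inv_cancel₀ (h.ne _), red_one]; rfl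
    rw [this]
    have h2 := hp.out.two_le
    have z : dd (IsLocalRing.ResidueField O) (j (1, 0)) (j (0, 1)) i l 1 = 0 := by
      rcases Nat.eq_zero_or_pos i with rfl | hi0
      · refine dd_mono (i := 0) (j := 1) ?_ le_rfl (by omega)
        ext x; simp [dd, dl_apply]
      · refine dd_mono (i := 1) (j := 0) ?_ hi0 (Nat.zero_le _)
        ext x; simp [dd, dl_apply]
    rw [z]; rfl
  · rw [j₁, j₂, h.deg hp.out hO hd h0 one_ne_zero (fun x => by rw [map_div₀, h.val]; simp [hu])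
      (fun g => by simp [hu]) g₁ g₂ c c e₁ e₂ i l ?_]
    · rfl
    · have h2 := hp.out.two_le
      obtain ⟨q, hq⟩ : ∃ q, p = q + 1 := ⟨p - 1, by omega⟩
      rw [← add_mul, hil, show p - 1 = q by omega]
      nlinarith

end Pool.Agent.StarkC
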