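import Mathlib

namespace Pool.Agent.StarkC

open Finset

variable {k : Type*} {A : Type*} [AddCommGroup A]

section Ring
variable [CommRing k]

def sh (k : Type*) [CommRing k] (h : A) : Module.End k (A → k) :=
  LinearMap.funLeft k k (fun x => x + h)

@[simp] theorem sh_apply (h : A) (u : A → k) (x : A) : sh k h u x = u (x + h) := rfl

theorem sh_add (a b : A) : sh k (a + b) = sh k a * sh k b := by
  ext u x; simp [add_assoc]

theorem sh_zero : sh k (0 : A) = 1 := by ext u x; simp

theorem sh_nsmul (n : ℕ) (a : A) : sh k (n • a) = sh k a ^ n := by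
  induction n with
  | zero => simp [sh_zero]
  | succ n ih => rw [succ_nsmul, sh_add, ih, pow_succ]

theorem sh_comm (a b : A) : Commute (sh k a) (sh k b) := by
  rw [Commute, SemiconjBy, ← sh_add, ← sh_add, add_comm]

def dl (k : Type*) [CommRing k] (h : A) : Module.End k (A → k) := sh k h - 1

theorem dl_apply (h : A) (u : A → k) (x : A) : dl k h u x = u (x + h) - u x := rfl

theorem sh_dl_comm (a b : A) : Commute (sh k a) (dl k b) :=
  (sh_comm a b).sub_right (Commute.one_right _)

theorem dl_comm (a b : A) : Commute (dl k a) (dl k b) :=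
  (sh_dl_comm a b).sub_left (Commute.one_left _)

def dd (k : Type*) [CommRing k] (s t : A) (i j : ℕ) : Module.End k (A → k) :=
  dl k s ^ i * dl k t ^ j

theorem dd_mul (s t : A) (i j i' j' : ℕ) :
    dd k s t i j * dd k s t i' j' = dd k s t (i + i') (j + j') := by
  have h : dl k t ^ j * dl k s ^ i' = dl k s ^ i' * dl k t ^ j :=
    ((dl_comm t s).pow_pow j i').eq
  simp only [dd, pow_add]
  rw [mul_assoc, ← mul_assoc (dl k t ^ j), h]
  simp only [mul_assoc]

theorem dd_dd (s t : A) (i j i' j' : ℕ) (u : A → k) :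
    dd k s t i j (dd k s t i' j' u) = dd k s t (i + i') (j + j') u := by
  rw [← dd_mul]; rfl

theorem dd_zero (s t : A) (u : A → k) : dd k s t 0 0 u = u := by simp [dd]

theorem dd_swap (s t : A) (i j : ℕ) : dd k s t i j = dd k t s j i :=
  ((dl_comm s t).pow_pow i j).eq

theorem sh_dd_comm (a s t : A) (i j : ℕ) : Commute (sh k a) (dd k s t i j) :=
  ((sh_dl_comm a s).pow_right i).mul_right ((sh_dl_comm a t).pow_right j)

theorem dd_mono {s t : A} {i j i' j' : ℕ} {u : A → k} (h : dd k s t i j u = 0) (hi : i ≤ i')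
    (hj : j ≤ j') : dd k s t i' j' u = 0 := by
  obtain ⟨a, rfl⟩ := Nat.exists_eq_add_of_le' hi
  obtain ⟨b, rfl⟩ := Nat.exists_eq_add_of_le' hj
  rw [← dd_dd, h, map_zero]

theorem sh_mul (a : A) (u w : A → k) : sh k a (u * w) = sh k a u * sh k a w := rfl

theorem dl_mul (h : A) (u w : A → k) : dl k h (u * w) = u * dl k h w + dl k h u * sh k h w := by
  ext x; simp [dl_apply]; ring

theorem dl_pow_mul (h : A) (n : ℕ) (u w : A → k) :
    (dl k h ^ n) (u * w) =
      ∑ ij ∈ antidiagonal n, n.choose ij.1 •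
        ((dl k h ^ ij.1) u * (sh k h ^ ij.1 * dl k h ^ ij.2) w) := by
  induction n with
  | zero => simp
  | succ n ih =>
    rw [sum_antidiagonal_choose_succ_nsmul
      (fun i j => (dl k h ^ i) u * (sh k h ^ i * dl k h ^ j) w) n, pow_succ', Module.End.mul_apply,
      ih, map_sum, ← sum_add_distrib]
    refine sum_congr rfl fun ij hij => ?_
    have hc : n.choose ij.2 = n.choose ij.1 := by
      have := mem_antidiagonal.1 hij
      exact (Nat.choose_symm_of_eq_add (by omega)).symm
    rw [map_nsmul, dl_mul, hc, smul_add]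
    have h1 : dl k h ((sh k h ^ ij.1 * dl k h ^ ij.2) w) =
        (sh k h ^ ij.1 * dl k h ^ (ij.2 + 1)) w := by
      rw [← Module.End.mul_apply, ← mul_assoc, ((sh_dl_comm h h).pow_left ij.1).eq.symm, mul_assoc,
        ← pow_succ']
    have h2 : sh k h ((sh k h ^ ij.1 * dl k h ^ ij.2) w) =
        (sh k h ^ (ij.1 + 1) * dl k h ^ ij.2) w := by
      rw [← Module.End.mul_apply, ← mul_assoc, ← pow_succ']
    rw [h1, h2, ← Module.End.mul_apply (dl k h), ← pow_succ']

theorem dd_mul_fun (s t : A) (i j : ℕ) (u w : A → k) :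
    dd k s t i j (u * w) =
      ∑ b ∈ antidiagonal j, ∑ a ∈ antidiagonal i, (j.choose b.1 * i.choose a.1) •
        (dd k s t a.1 b.1 u * sh k (a.1 • s + b.1 • t) (dd k s t a.2 b.2 w)) := by
  rw [dd, Module.End.mul_apply, dl_pow_mul, map_sum]
  refine sum_congr rfl fun b _ => ?_
  rw [map_nsmul, dl_pow_mul, smul_sum]
  refine sum_congr rfl fun a _ => ?_
  rw [mul_smul]
  congr 3
  rw [sh_add, sh_nsmul, sh_nsmul, ← Module.End.mul_apply, ← Module.End.mul_apply, dd]
  congr 1
  have h : dl k s ^ a.2 * sh k t ^ b.1 = sh k t ^ b.1 * dl k s ^ a.2 :=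
    ((sh_dl_comm t s).pow_pow b.1 a.2).eq.symm
  simp only [mul_assoc]
  rw [← mul_assoc (dl k s ^ a.2), h, mul_assoc]

theorem sh_fix {h : A} {u : A → k} (hu : dl k h u = 0) (n : ℕ) : sh k (n • h) u = u := by
  have h1 : sh k h u = u := by
    have : sh k h u - u = 0 := hu
    exact sub_eq_zero.1 this
  induction n with
  | zero => simp [sh_zero]
  | succ n ih => rw [succ_nsmul, sh_add, Module.End.mul_apply, h1, ih]

theorem dl_nsmul (m : ℕ) (h : A) :
    dl k (m • h) = (∑ r ∈ range m, sh k h ^ r) * dl k h := by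
  rw [dl, dl, sh_nsmul, geom_sum_mul]

theorem geom_fix {h : A} {u : A → k} (hu : dl k h u = 0) (m n : ℕ) :
    ((∑ r ∈ range m, sh k h ^ r) ^ n) u = (m : k) ^ n • u := by
  have h1 : (∑ r ∈ range m, sh k h ^ r) u = (m : k) • u := by
    rw [LinearMap.sum_apply, sum_congr rfl (g := fun _ => u)
      (fun r _ => by rw [← sh_nsmul, sh_fix hu])]
    simp [Nat.cast_smul_eq_nsmul]
  induction n with
  | zero => simp
  | succ n ih => rw [pow_succ, Module.End.mul_apply, h1, map_smul, ih, smul_smul, ← pow_succ']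

theorem dd_nsmul {s t : A} {i j : ℕ} {u : A → k} (h1 : dd k s t (i + 1) j u = 0)
    (h2 : dd k s t i (j + 1) u = 0) (m n : ℕ) :
    dd k (m • s) (n • t) i j u = ((m : k) ^ i * (n : k) ^ j) • dd k s t i j u := by
  have c1 : Commute (∑ r ∈ range m, sh k s ^ r) (dl k s) :=
    Commute.sum_left _ _ _ fun r _ => (sh_dl_comm s s).pow_left r
  have c2 : Commute (∑ r ∈ range n, sh k t ^ r) (dl k t) :=
    Commute.sum_left _ _ _ fun r _ => (sh_dl_comm t t).pow_left r
  have c3 : Commute (∑ r ∈ range n, sh k t ^ r) (dl k s) :=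
    Commute.sum_left _ _ _ fun r _ => (sh_dl_comm t s).pow_left r
  have e1 : dl k s (dd k s t i j u) = 0 := by
    rw [← h1, add_comm i 1, ← zero_add j, ← dd_dd]; simp [dd]
  have e2 : dl k t (dd k s t i j u) = 0 := by
    rw [← h2, add_comm j 1, ← zero_add i, ← dd_dd]; simp [dd]
  have : dd k (m • s) (n • t) i j = (∑ r ∈ range m, sh k s ^ r) ^ i *
      ((∑ r ∈ range n, sh k t ^ r) ^ j * dd k s t i j) := by
    rw [dd, dl_nsmul, dl_nsmul, c1.mul_pow, c2.mul_pow, dd, mul_assoc,
      ← mul_assoc (dl k s ^ i), ← (c3.pow_pow j i).eq, mul_assoc]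
  rw [this, Module.End.mul_apply, Module.End.mul_apply, geom_fix e2, map_smul, geom_fix e1,
    smul_smul, mul_comm]

theorem dd_comp {B : Type*} [AddCommGroup B] (g : B →+ A) (x0 : A) (s t : B) (i j : ℕ)
    (u : A → k) :
    dd k s t i j (fun y => u (x0 + g y)) = fun y => dd k (g s) (g t) i j u (x0 + g y) := by
  have h : ∀ (s : B) (n : ℕ) (u : A → k), (dl k s ^ n) (fun y => u (x0 + g y)) =
      fun y => (dl k (g s) ^ n) u (x0 + g y) := by
    intro s n
    induction n with
    | zero => intro u; simp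
    | succ n ih =>
      intro u
      rw [pow_succ, pow_succ, Module.End.mul_apply, Module.End.mul_apply, ← ih]
      congr 1
      ext y; simp [dl_apply, add_assoc]
  rw [dd, dd, Module.End.mul_apply, Module.End.mul_apply, h, h]

theorem dl_pow_char (p : ℕ) [Fact p.Prime] [CharP k p] (h : A) (n : ℕ) :
    dl k h ^ p ^ n = dl k (p ^ n • h) := by
  by_cases hk : Nontrivial (Module.End k (A → k))
  · haveI : CharP (Module.End k (A → k)) p := by
      refine ⟨fun x => ?_⟩
      rw [← CharP.cast_eq_zero_iff k p x]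
      constructor
      · intro hx
        have := congrFun (LinearMap.congr_fun hx (fun _ => 1)) 0
        simpa using this
      · intro hx
        rw [← map_natCast (algebraMap k (Module.End k (A → k))), hx, map_zero]
    rw [dl, dl, sh_nsmul, sub_pow_char_pow_of_commute p n (Commute.one_right _), one_pow]
  · rw [not_nontrivial_iff_subsingleton] at hk
    exact Subsingleton.elim _ _

end Ring

section Field
variable [Field k] {p : ℕ} [Fact p.Prime] [CharP k p]

theorem card_supp [DecidableEq k] (g : ZMod p →+ A) (x0 : A) (u : A → k) (l : ℕ) (hl : l < p)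
    (h : (dl k (g 1) ^ (l + 1)) u = 0) (y0 : ZMod p) (h0 : u (x0 + g y0) ≠ 0) :
    p ≤ l + #{y : ZMod p | u (x0 + g y) ≠ 0} := by
  classical
  set P : Polynomial k := ∑ r ∈ range (l + 1),
    Polynomial.C ((dl k (g 1) ^ r) u x0 / (r.factorial : k)) * descPochhammer k r with hP
  have hev : ∀ y : ZMod p, P.eval (y.val : k) = u (x0 + g y) := by
    intro y
    have e1 : g y = y.val • g 1 := by rw [← map_nsmul]; simp
    have e2 : sh k (g 1) = dl k (g 1) + 1 := by simp [dl]
    have e3 : u (x0 + g y) = (sh k (g 1) ^ y.val) u x0 := by rw [← sh_nsmul, e1]; rfl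
    rw [e3, e2, (Commute.one_right _).add_pow, LinearMap.sum_apply, Finset.sum_apply, hP,
      Polynomial.eval_finsetSum]
    have e4 : ∀ r, r < p → Polynomial.eval (y.val : k)
        (Polynomial.C ((dl k (g 1) ^ r) u x0 / (r.factorial : k)) * descPochhammer k r) =
        (dl k (g 1) ^ r * 1 ^ (y.val - r) * (y.val.choose r : Module.End k (A → k))) u x0 := by
      intro r hr
      have hf : (r.factorial : k) ≠ 0 := by
        rw [Ne, CharP.cast_eq_zero_iff k p, (Fact.out : p.Prime).dvd_factorial]; omega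
      rw [Polynomial.eval_mul, Polynomial.eval_C, descPochhammer_eval_eq_descFactorial,
        Nat.descFactorial_eq_factorial_mul_choose]
      simp only [one_pow, mul_one, Module.End.mul_apply, Module.End.natCast_apply, map_nsmul,
        Pi.smul_apply]
      rw [nsmul_eq_mul]
      push_cast
      field_simp
    have hy := ZMod.val_lt y
    rw [sum_congr rfl (fun r hr => e4 r (by have := mem_range.1 hr; omega))]
    have z1 : ∀ r, l < r →
        (dl k (g 1) ^ r * 1 ^ (y.val - r) * (y.val.choose r : Module.End k (A → k))) u x0 = 0 := by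
      intro r hr
      obtain ⟨c, rfl⟩ := Nat.exists_eq_add_of_lt hr
      simp only [one_pow, mul_one, Module.End.mul_apply, Module.End.natCast_apply, map_nsmul]
      rw [show l + c + 1 = c + (l + 1) by ring, pow_add, Module.End.mul_apply, h]; simp
    have z2 : ∀ r, y.val < r →
        (dl k (g 1) ^ r * 1 ^ (y.val - r) * (y.val.choose r : Module.End k (A → k))) u x0 = 0 := by
      intro r hr
      simp [Nat.choose_eq_zero_of_lt hr]
    rcases le_total l y.val with hle | hle
    · refine sum_subset (range_subset_range.2 (by omega)) fun r _ hr => z1 r ?_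
      simpa [Nat.lt_succ_iff] using hr
    · refine (sum_subset (range_subset_range.2 (by omega)) fun r _ hr => z2 r ?_).symm
      simpa [Nat.lt_succ_iff] using hr
  have hP0 : P ≠ 0 := fun h => h0 (by rw [← hev, h]; simp)
  have hdeg : P.natDegree ≤ l := by
    refine Polynomial.natDegree_sum_le_of_forall_le _ _ fun r hr => ?_
    refine (Polynomial.natDegree_C_mul_le _ _).trans ?_
    rw [descPochhammer_natDegree]
    have := mem_range.1 hr; omega
  have hz : #{y : ZMod p | ¬ u (x0 + g y) ≠ 0} ≤ l := by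
    refine le_trans ?_ ((Multiset.toFinset_card_le _).trans (P.card_roots'.trans hdeg))
    refine card_le_card_of_injOn (fun y : ZMod p => (y.val : k)) (fun y hy => ?_) ?_
    · have hy' : u (x0 + g y) = 0 := by simpa using hy
      rw [mem_coe, Multiset.mem_toFinset, Polynomial.mem_roots hP0, Polynomial.IsRoot, hev, hy']
    · intro a _ b _ hab
      have := (CharP.natCast_injOn_Iio k p) (ZMod.val_lt a) (ZMod.val_lt b) hab
      exact ZMod.val_injective p this
  have := card_filter_add_card_filter_not (s := (univ : Finset (ZMod p)))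
    (fun y => u (x0 + g y) ≠ 0)
  rw [card_univ, ZMod.card] at this
  omega

end Field

end Pool.Agent.StarkC
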