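import Pool.Agent.Lib.MP_ca56d1_nt.C.Dich

namespace Pool.Agent.StarkC

open Finset

variable {p : ℕ} [Fact p.Prime]

theorem second_moment (φ : Pl p → ℚ) :
    ∑ s : ZMod p, ∑ t : ZMod p, (∑ x : ZMod p, φ (x, s * x + t)) ^ 2 +
      ∑ x : ZMod p, (∑ y : ZMod p, φ (x, y)) ^ 2 =
    p * ∑ x : ZMod p, ∑ y : ZMod p, φ (x, y) ^ 2 + (∑ x : ZMod p, ∑ y : ZMod p, φ (x, y)) ^ 2 := by
  have key : ∀ x x' : ZMod p, ∑ s : ZMod p, ∑ t : ZMod p, φ (x, s * x + t) * φ (x', s * x' + t) =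
      (∑ y, φ (x, y)) * (∑ y, φ (x', y)) +
        if x' = x then p * ∑ y, φ (x, y) ^ 2 - (∑ y, φ (x, y)) ^ 2 else 0 := by
    intro x x'
    split_ifs with h
    · subst h
      have : ∀ s : ZMod p, ∑ t : ZMod p, φ (x', s * x' + t) * φ (x', s * x' + t) =
          ∑ y, φ (x', y) ^ 2 := fun s =>
        Fintype.sum_equiv (Equiv.addLeft (s * x')) _ _ fun t => by simp [sq]
      rw [sum_congr rfl fun s _ => this s, sum_const, card_univ, ZMod.card, nsmul_eq_mul]
      ring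
    · have h' : x - x' ≠ 0 := sub_ne_zero.2 (Ne.symm h)
      rw [add_zero, sum_mul_sum, ← sum_product', ← sum_product', univ_product_univ]
      refine Fintype.sum_bijective (fun z : ZMod p × ZMod p => (z.1 * x + z.2, z.1 * x' + z.2)) ?_
        _ _ fun z => rfl
      refine Finite.injective_iff_bijective.1 fun z w hzw => ?_
      have a := congrArg Prod.fst hzw
      have b := congrArg Prod.snd hzw
      simp only at a b
      have c : z.1 = w.1 := mul_right_cancel₀ h' (by linear_combination a - b)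
      rw [c] at a
      exact Prod.ext c (add_left_cancel a)
  have e : ∑ s : ZMod p, ∑ t : ZMod p, (∑ x : ZMod p, φ (x, s * x + t)) ^ 2 =
      ∑ x : ZMod p, ∑ x' : ZMod p, ∑ s : ZMod p, ∑ t : ZMod p,
        φ (x, s * x + t) * φ (x', s * x' + t) := by
    simp only [sq, sum_mul_sum]
    rw [sum_congr rfl fun s _ => sum_comm, sum_comm]
    refine sum_congr rfl fun x _ => ?_
    rw [sum_congr rfl fun s _ => sum_comm, sum_comm]
  rw [e]
  simp only [key, sum_add_distrib, sum_ite_eq', mem_univ, if_true, sum_sub_distrib]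
  rw [← sum_mul_sum, ← mul_sum]
  ring

theorem moment_le {φ : Pl p → ℚ} {m : ℚ} (hR : ∀ s t, |∑ x : ZMod p, φ (x, s * x + t)| ≤ m) :
    p * ∑ x : ZMod p, ∑ y : ZMod p, φ (x, y) ^ 2 + (∑ x : ZMod p, ∑ y : ZMod p, φ (x, y)) ^ 2 ≤
      p ^ 2 * m ^ 2 + ∑ x : ZMod p, (∑ y : ZMod p, φ (x, y)) ^ 2 := by
  rw [← second_moment]
  have : ∑ s : ZMod p, ∑ t : ZMod p, (∑ x : ZMod p, φ (x, s * x + t)) ^ 2 ≤
      ∑ s : ZMod p, ∑ t : ZMod p, m ^ 2 :=
    sum_le_sum fun s _ => sum_le_sum fun t _ => by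
      rw [← sq_abs]; exact pow_le_pow_left₀ (abs_nonneg _) (hR s t) 2
  simp only [sum_const, card_univ, ZMod.card, nsmul_eq_mul] at this
  linarith

theorem not_all_lines {φ : Pl p → ℚ} {m : ℚ} (hm : 0 < m)
    (hR : ∀ s t, |∑ x : ZMod p, φ (x, s * x + t)| ≤ m) (h : ∀ x, ∃ y, φ (x, y) = m) : False := by
  classical
  choose b hb using h
  have hp : (2 : ℚ) ≤ p := by exact_mod_cast (Fact.out : p.Prime).two_le
  have h1 : ∀ x, (∑ y, φ (x, y) - m) ^ 2 + p * m ^ 2 ≤ p * ∑ y, φ (x, y) ^ 2 := by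
    intro x
    have e1 := add_sum_erase univ (fun y => φ (x, y)) (mem_univ (b x))
    have e2 := add_sum_erase univ (fun y => φ (x, y) ^ 2) (mem_univ (b x))
    have e3 := sq_sum_le_card_mul_sum_sq (s := univ.erase (b x)) (f := fun y => φ (x, y))
    have e4 : (#(univ.erase (b x)) : ℚ) ≤ p := by
      have := card_le_univ (univ.erase (b x))
      rw [ZMod.card] at this
      exact_mod_cast this
    have e5 : 0 ≤ ∑ y ∈ univ.erase (b x), φ (x, y) ^ 2 := sum_nonneg fun _ _ => sq_nonneg _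
    simp only [hb] at e1 e2
    rw [← e1, ← e2]
    nlinarith [mul_le_mul_of_nonneg_right e4 e5]
  have h2 := sum_le_sum fun x (_ : x ∈ (univ : Finset (ZMod p))) => h1 x
  have h3 := moment_le hR
  have h4 : ∀ x, (∑ y, φ (x, y) - m) ^ 2 + p * m ^ 2 =
      (∑ y, φ (x, y)) ^ 2 - 2 * m * (∑ y, φ (x, y)) + (p + 1) * m ^ 2 := fun x => by ring
  simp only [h4, sum_add_distrib, sum_sub_distrib, ← mul_sum, sum_const, card_univ, ZMod.card,
    nsmul_eq_mul] at h2
  generalize ∑ x : ZMod p, ∑ y : ZMod p, φ (x, y) = θ at *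
  nlinarith [sq_nonneg (θ - m), mul_pos hm hm]

theorem card_top_le {φ : Pl p → ℚ} {m : ℚ} (hm : 0 < m)
    (hR : ∀ s t, |∑ x : ZMod p, φ (x, s * x + t)| ≤ m) (hC : ∀ x, |∑ y, φ (x, y)| ≤ m) :
    ∑ x : ZMod p, #{y : ZMod p | φ (x, y) = m} ≤ p + 1 := by
  have hp : (0 : ℚ) < p := by exact_mod_cast (Fact.out : p.Prime).pos
  have h1 : ∀ x, (#{y : ZMod p | φ (x, y) = m} : ℚ) * m ^ 2 ≤ ∑ y, φ (x, y) ^ 2 := by
    intro x
    refine le_trans ?_ (sum_le_sum_of_subset_of_nonneg (filter_subset (fun y => φ (x, y) = m) _)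
      fun _ _ _ => sq_nonneg _)
    rw [sum_congr rfl (g := fun _ => m ^ 2) fun y hy => by rw [(mem_filter.1 hy).2]]
    simp
  have h2 := sum_le_sum fun x (_ : x ∈ (univ : Finset (ZMod p))) => h1 x
  have h3 := moment_le hR
  have h4 : ∑ x : ZMod p, (∑ y : ZMod p, φ (x, y)) ^ 2 ≤ ∑ x : ZMod p, m ^ 2 :=
    sum_le_sum fun x _ => by rw [← sq_abs]; exact pow_le_pow_left₀ (abs_nonneg _) (hC x) 2
  simp only [sum_const, card_univ, ZMod.card, nsmul_eq_mul] at h4
  rw [← sum_mul, ← Nat.cast_sum] at h2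
  have h5 : (p : ℚ) * m ^ 2 * (∑ x : ZMod p, #{y : ZMod p | φ (x, y) = m} : ℕ) ≤
      p * m ^ 2 * (p + 1) := by
    nlinarith [mul_le_mul_of_nonneg_left h2 hp.le,
      sq_nonneg (∑ x : ZMod p, ∑ y : ZMod p, φ (x, y))]
  have h6 := le_of_mul_le_mul_left h5 (by positivity)
  exact_mod_cast h6

theorem line_ge {ψ : ZMod p → ℚ} {m : ℚ} (hm : 0 < m) (hψ : ∀ y, -m ≤ ψ y) {l : ℕ}
    (h : p ≤ l + #{y | ψ y = m}) : ((p : ℚ) - 2 * l) * m ≤ ∑ y, ψ y := by
  have h1 : ∑ y, (ψ y + m) = ∑ y, ψ y + p * m := by simp [sum_add_distrib]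
  have h2 : (#{y | ψ y = m} : ℚ) * (2 * m) ≤ ∑ y, (ψ y + m) := by
    refine le_trans ?_ (sum_le_sum_of_subset_of_nonneg (filter_subset (fun y => ψ y = m) _)
      fun y _ _ => by linarith [hψ y])
    rw [sum_congr rfl (g := fun _ => 2 * m) fun y hy => by rw [(mem_filter.1 hy).2]; ring]
    simp
  have h3 : (p : ℚ) ≤ l + #{y | ψ y = m} := by exact_mod_cast h
  nlinarith

theorem radon (hp : 5 ≤ p) {k : Type*} [Field k] [CharP k p] {φ : Pl p → ℚ} {m : ℚ} (hm : 0 < m)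
    {f : Pl p → k} (hf : ∀ z, f z ≠ 0 ↔ φ z = m) (f0 : f ≠ 0) (hφ : ∀ z, -m ≤ φ z)
    (hR : ∀ s t, |∑ x : ZMod p, φ (x, s * x + t)| ≤ m) (hC : ∀ x, |∑ y, φ (x, y)| ≤ m)
    (hd : ∀ i l, i ≤ l → p ≤ i + l → D i l f = 0) :
    ∃ x i l, l < i ∧ D i l f ≠ 0 ∧ ((p : ℚ) - 2 * l) * m ≤ ∑ y, φ (x, y) := by
  classical
  obtain ⟨i, l, ht⟩ := exists_top (sep3 (p := p)).swap f0
  obtain ⟨hi, hl⟩ := D_lt ht.1
  have h1 : D 0 (l + 1) f = 0 := by
    by_contra h
    have := ht.ge h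
    rw [mul_add] at this
    omega
  have h2 : D 0 l f ≠ 0 := D_mono ht.1 (Nat.zero_le _) le_rfl
  have h3 : D (i + 1) 0 (D 0 l f) = 0 := by
    rw [D_D, add_zero, zero_add]; exact ht.max1 one_pos
  have line : ∀ x, (∃ y, φ (x, y) = m) → p ≤ l + #{y | φ (x, y) = m} := by
    rintro x ⟨y, hy⟩
    have := card_supp (AddMonoidHom.inr (ZMod p) (ZMod p)) (x, 0) f l hl
      (by simpa [D, dd] using h1) y (by simpa using (hf _).2 hy)
    simpa [hf] using this
  obtain ⟨z, hz⟩ := Function.ne_iff.1 h2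
  have h4 := card_supp (AddMonoidHom.inl (ZMod p) (ZMod p)) (0, z.2) (D 0 l f) i hi
    (by simpa [D, dd] using h3) z.1 (by simpa using hz)
  have h5 : p ≤ i + #{x : ZMod p | ∃ y, φ (x, y) = m} := by
    refine h4.trans (Nat.add_le_add_left (card_le_card fun x hx => ?_) _)
    simp only [mem_filter, mem_univ, true_and] at hx ⊢
    by_contra hc
    apply hx
    have e := dd_comp (k := k) (AddMonoidHom.inr (ZMod p) (ZMod p)) (x, 0) 0 1 0 l f
    have e0 : (fun y => f ((x, 0) + AddMonoidHom.inr (ZMod p) (ZMod p) y)) = 0 := by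
      ext y
      by_contra h
      exact hc ⟨y, (hf _).1 (by simpa using h)⟩
    rw [e0, map_zero] at e
    have := congrFun e z.2
    simpa [D, dd] using this.symm
  by_cases hli : l < i
  · obtain ⟨x, hx⟩ : (univ.filter fun x : ZMod p => ∃ y, φ (x, y) = m).Nonempty :=
      card_pos.1 (by omega)
    exact ⟨x, i, l, hli, ht.1, line_ge hm (fun y => hφ _) (line x (mem_filter.1 hx).2)⟩
  exfalso
  have h6 : i + l < p := by
    by_contra h
    exact ht.1 (hd i l (by omega) (by omega))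
  rcases Nat.eq_zero_or_pos i with rfl | hi0
  · refine not_all_lines hm hR fun x => ?_
    have : (univ.filter fun x : ZMod p => ∃ y, φ (x, y) = m) = univ :=
      eq_univ_of_card _ (le_antisymm (card_le_univ _) (by rw [ZMod.card]; omega))
    have hx := mem_univ x
    rw [← this] at hx
    exact (mem_filter.1 hx).2
  · have h7 := card_top_le hm hR hC
    have h8 : #{x : ZMod p | ∃ y, φ (x, y) = m} * (i + 1) ≤
        ∑ x : ZMod p, #{y : ZMod p | φ (x, y) = m} := by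
      refine le_trans ?_ (sum_le_sum_of_subset (filter_subset (fun x => ∃ y, φ (x, y) = m) _))
      rw [← smul_eq_mul]
      refine card_nsmul_le_sum _ _ _ fun x hx => ?_
      have := line x (mem_filter.1 hx).2
      omega
    obtain ⟨n, hn⟩ : ∃ n, p = i + n := ⟨p - i, by omega⟩
    have h9 : n * (i + 1) ≤ p + 1 :=
      (Nat.mul_le_mul_right _ (by omega)).trans (h8.trans h7)
    have : i + 1 ≤ n := by omega
    nlinarith

end Pool.Agent.StarkC
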