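import Pool.Agent.Lib.MP_ca56d1_nt.RM.StA

/-! Interface of part C: units at primes dividing the level and the Kronecker congruence. -/

namespace Pool.Agent.RM

open Complex

variable {K : Type*} [Field K] [CharZero K]

/-- `L` is a lattice in `K` stable under `ε` and its inverse. -/
structure ELat (ε : K) (L : Submodule ℤ K) : Prop where
  fg : L.FG
  full : ∀ y : K, ∃ n : ℕ, n ≠ 0 ∧ (n : K) * y ∈ L
  stab : ∀ y, ε * y ∈ L ↔ y ∈ L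

/-- The value `F⁻` at the class of `x` modulo `L`. -/
noncomputable def Fm (σ σ' : K →+* ℝ) (ε : K) (L : Submodule ℤ K) (x : K) : ℂ :=
  cexp (LX σ σ' ε (coset L x))

open Classical in
/-- The value `F⁺` at the class of `x` modulo `L`. -/
noncomputable def Fp (σ σ' : K →+* ℝ) (ε : K) (L : Submodule ℤ K) (x : K) : ℂ :=
  if x ∈ L then (σ ε : ℝ) * Fm σ σ' ε L x else Fm σ σ' ε L x

/-- The finite Fourier identities, in the form used by part C. -/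
def Fourier (σ σ' : K →+* ℝ) (ε : K) (L : Submodule ℤ K) : Prop :=
  ∃ (d μ : ℂ) (s : Finset K) (B : K → K → ℂ),
    d ^ 2 = ((σ ε + σ' ε - 2 : ℝ) : ℂ) ∧ (∃ n : ℕ, n ≠ 0 ∧ μ ^ n = 1) ∧
    (∀ g ∈ s, (ε - 1) * g ∈ L) ∧
    (∀ g ∈ s, ∀ h h', (ε - 1) * h ∈ L → (ε - 1) * h' ∈ L → B g (h + h') = B g h * B g h') ∧
    (∀ g ∈ s, ∀ h ∈ L, B g h = 1) ∧
    (∀ h, (ε - 1) * h ∈ L → d * Fp σ σ' ε L h = ∑ g ∈ s, μ / Fm σ σ' ε L g * B g h) ∧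
    (∀ a, (ε - 1) * a ∈ L → a ∉ L → ∀ h, (ε - 1) * h ∈ L →
      d * (Fp σ σ' ε L a * Fp σ σ' ε L h / Fm σ σ' ε L (a + h)) =
        ∑ g ∈ s, μ * (Fp σ σ' ε L (g + a) / Fm σ σ' ε L g) * B g h) ∧
    (∀ g, (ε - 1) * g ∈ L → ∃ n : ℕ, n ≠ 0 ∧ (Fp σ σ' ε L g * Fm σ σ' ε L (-g)) ^ n = 1)

/-- What part C needs from part B. -/
structure PartBC (σ σ' : K →+* ℝ) : Prop where
  four : ∀ ε L, Eps σ σ' ε → ELat ε L → Fourier σ σ' ε L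
  alg : ∀ ε L, Eps σ σ' ε → ELat ε L → ∀ x, (ε - 1) * x ∈ L → IsAlgebraic ℚ (Fm σ σ' ε L x)

/-- What part C needs from part B, without algebraicity. -/
def PartB (σ σ' : K →+* ℝ) : Prop := ∀ ε L, Eps σ σ' ε → ELat ε L → Fourier σ σ' ε L

/-- A complex number lying in all valuation rings of positive residue characteristic is
integral. -/
def IntSt : Prop :=
  ∀ z : ℂ, (∀ p : ℕ, p.Prime → ∀ O : ValuationSubring ℂ, O.valuation p < 1 →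
    O.valuation z ≤ 1) → IsIntegral ℤ z

/-- The induction over the tree of stable lattices at `p`. -/
def VolSt (σ σ' : K →+* ℝ) : Prop :=
  ∀ (G : Type) [AddCommGroup G] [LinearOrder G] [IsOrderedAddMonoid G] (ε : K) (p : ℕ)
    [Fact p.Prime] (m : Submodule ℤ K → K → G), Eps σ σ' ε →
    (∃ L₀, ELat ε L₀ ∧ ∀ y ∈ L₀, (ε - 1) * y / p ∈ L₀) →
    {g | ∃ L z, ELat ε L ∧ (ε - 1) * z ∈ L ∧ g = m L z}.Finite →
    (∀ L z y, ELat ε L → y ∈ L → m L (z + y) = m L z) →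
    (∀ L s z, ELat ε L → (p : K) * s ∈ L → s ∉ L → (ε - 1) * s ∈ L → (ε - 1) * z ∈ L →
      m (L ⊔ Submodule.span ℤ {s}) z = ∑ y : ZMod p, m L (z + (y.val : K) * s)) →
    (∀ L f z, ELat ε L → f ∈ L → (ε - 1) * f / p ∉ L → (ε - 1) * z ∈ L →
      m L (z + (ε - 1) * f / p) = m L z) →
    ∀ L z, ELat ε L → (ε - 1) * z ∈ L → m L z = 0

/-- Finiteness of the set of values of a given level. -/
def FinSt (σ σ' : K →+* ℝ) : Prop :=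
  ∀ ε, Eps σ σ' ε → {z | ∃ L x, ELat ε L ∧ (ε - 1) * x ∈ L ∧ z = Fm σ σ' ε L x}.Finite

/-- A stable lattice has a basis with two elements, and the trace of `ε` is an integer. -/
def BasSt (σ σ' : K →+* ℝ) : Prop :=
  ∀ ε L, Eps σ σ' ε → ELat ε L → ∃ (w₁ w₂ : K) (N : ℕ),
    (∀ a b : ℤ, (a : K) * w₁ + b * w₂ = 0 → a = 0 ∧ b = 0) ∧
    (∀ z, z ∈ L ↔ ∃ a b : ℤ, z = a * w₁ + b * w₂) ∧
    0 < N ∧ σ ε + σ' ε - 2 = N ∧ (ε - 1) ^ 2 = N * ε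

/-- A rational logarithm of a valuation on algebraic numbers. -/
def LgSt : Prop :=
  ∀ (O : ValuationSubring ℂ) (p : ℕ), p.Prime → O.valuation p < 1 → ∃ lg : ℂ → ℚ,
    ∀ x y : ℂ, x ≠ 0 → y ≠ 0 → IsAlgebraic ℚ x → IsAlgebraic ℚ y →
      lg (x * y) = lg x + lg y ∧ (lg x ≤ lg y ↔ O.valuation x ≤ O.valuation y)

/-- From invariance along an eigenline to the Kronecker congruence. -/
def OrbSt (σ σ' : K →+* ℝ) : Prop :=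
  ∀ ε L, Eps σ σ' ε → ELat ε L → ∀ p : ℕ, p.Prime → ∀ (s : K) (η : ℤ), (p : K) * s ∈ L → s ∉ L →
    ε * s - η * s ∈ L → ∀ n : ℕ, n ≠ 0 → (p : ℤ) ∣ η ^ n - 1 →
    (∀ k, 0 < k → k < n → ¬ (p : ℤ) ∣ η ^ k - 1) → ∀ (O : ValuationSubring ℂ) (x : K),
    (ε - 1) * x ∈ L → O.valuation (Fm σ σ' ε L x) = 1 →
    (∀ i : ℤ, O.valuation (Fm σ σ' (ε ^ n) L (x + i * s) - Fm σ σ' (ε ^ n) L x) < 1) →
    O.valuation (Fm σ σ' ε (L ⊔ Submodule.span ℤ {s}) x - Fm σ σ' ε L x ^ p) < 1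

/-- A lattice with two distinct eigenlines at `p` is balanced. -/
def BalSt (σ σ' : K →+* ℝ) : Prop :=
  ∀ ε L, Eps σ σ' ε → ELat ε L → ∀ p : ℕ, p.Prime → ∀ (s t : K) (η η' : ℤ),
    (p : K) * s ∈ L → (p : K) * t ∈ L →
    (∀ a b : ℤ, (a : K) * s + b * t ∈ L → (p : ℤ) ∣ a ∧ (p : ℤ) ∣ b) →
    ε * s - η * s ∈ L → ε * t - η' * t ∈ L → (p : ℤ) ∣ η * η' - 1 → ¬ (p : ℤ) ∣ η ^ 2 - 1 →
    ∀ n : ℕ, n ≠ 0 → (p : ℤ) ∣ η ^ n - 1 → ∃ c N' : ℕ, ¬ p ∣ N' ∧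
      σ (ε ^ n) + σ' (ε ^ n) - 2 = (p ^ (2 * (c + 1)) * N' : ℕ) ∧
      ∀ y ∈ L, (ε ^ n - 1) * y / p ^ (c + 1) ∈ L

/-- The conclusions of part C. -/
structure PartC (σ σ' : K →+* ℝ) : Prop where
  /-- units at every finite place -/
  unit : ∀ ε L, Eps σ σ' ε → ELat ε L → ∀ p : ℕ, p.Prime → ∀ O : ValuationSubring ℂ,
    O.valuation p < 1 → ∀ x, (ε - 1) * x ∈ L → O.valuation (Fm σ σ' ε L x) = 1
  /-- the values are algebraic units -/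
  integral : ∀ ε L, Eps σ σ' ε → ELat ε L → ∀ x, (ε - 1) * x ∈ L →
    IsIntegral ℤ (Fm σ σ' ε L x) ∧ IsIntegral ℤ (Fm σ σ' ε L x)⁻¹
  /-- invariance of the reduction along one eigenline, uniformly in the base point -/
  inv : ∀ ε L, Eps σ σ' ε → ELat ε L → ∀ p : ℕ, p.Prime → 5 ≤ p → ∀ (s t : K) (η η' : ℤ),
    (p : K) * s ∈ L → (p : K) * t ∈ L →
    (∀ a b : ℤ, (a : K) * s + b * t ∈ L → (p : ℤ) ∣ a ∧ (p : ℤ) ∣ b) →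
    ε * s - η * s ∈ L → ε * t - η' * t ∈ L → (p : ℤ) ∣ η * η' - 1 → ¬ (p : ℤ) ∣ η ^ 2 - 1 →
    ∀ n : ℕ, n ≠ 0 → (p : ℤ) ∣ η ^ n - 1 → ∀ O : ValuationSubring ℂ, O.valuation p < 1 →
    (∀ x, (ε ^ n - 1) * x ∈ L → O.valuation (Fm σ σ' (ε ^ n) L x) = 1) ∧
    ((∀ x, (ε - 1) * x ∈ L → ∀ i : ℤ,
        O.valuation (Fm σ σ' (ε ^ n) L (x + i * s) - Fm σ σ' (ε ^ n) L x) < 1) ∨
      (∀ x, (ε - 1) * x ∈ L → ∀ i : ℤ,
        O.valuation (Fm σ σ' (ε ^ n) L (x + i * t) - Fm σ σ' (ε ^ n) L x) < 1))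
  /-- invariance along `s` or the Kronecker congruence along `t` -/
  both : ∀ ε L, Eps σ σ' ε → ELat ε L → ∀ p : ℕ, p.Prime → 5 ≤ p → ∀ (s t : K) (η η' : ℤ),
    (p : K) * s ∈ L → (p : K) * t ∈ L →
    (∀ a b : ℤ, (a : K) * s + b * t ∈ L → (p : ℤ) ∣ a ∧ (p : ℤ) ∣ b) →
    ε * s - η * s ∈ L → ε * t - η' * t ∈ L → (p : ℤ) ∣ η * η' - 1 → ¬ (p : ℤ) ∣ η ^ 2 - 1 →
    ∀ n : ℕ, n ≠ 0 → (p : ℤ) ∣ η ^ n - 1 → (∀ k, 0 < k → k < n → ¬ (p : ℤ) ∣ η ^ k - 1) →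
    ∀ O : ValuationSubring ℂ, O.valuation p < 1 →
    (∀ x, (ε - 1) * x ∈ L → ∀ i : ℤ,
        O.valuation (Fm σ σ' (ε ^ n) L (x + i * s) - Fm σ σ' (ε ^ n) L x) < 1) ∨
      (∀ x, (ε - 1) * x ∈ L →
        O.valuation (Fm σ σ' ε (L ⊔ Submodule.span ℤ {t}) x - Fm σ σ' ε L x ^ p) < 1)
  /-- the Kronecker congruence -/
  cong : ∀ ε L, Eps σ σ' ε → ELat ε L → ∀ p : ℕ, p.Prime → 5 ≤ p → ∀ (s t : K) (η η' : ℤ),
    (p : K) * s ∈ L → (p : K) * t ∈ L →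
    (∀ a b : ℤ, (a : K) * s + b * t ∈ L → (p : ℤ) ∣ a ∧ (p : ℤ) ∣ b) →
    ε * s - η * s ∈ L → ε * t - η' * t ∈ L → (p : ℤ) ∣ η * η' - 1 → ¬ (p : ℤ) ∣ η ^ 2 - 1 →
    ∀ O : ValuationSubring ℂ, O.valuation p < 1 →
    (∀ x, (ε - 1) * x ∈ L → O.valuation (Fm σ σ' ε L x) = 1) ∧
    ((∀ x, (ε - 1) * x ∈ L →
        O.valuation (Fm σ σ' ε (L ⊔ Submodule.span ℤ {s}) x - Fm σ σ' ε L x ^ p) < 1) ∨
      (∀ x, (ε - 1) * x ∈ L →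
        O.valuation (Fm σ σ' ε (L ⊔ Submodule.span ℤ {t}) x - Fm σ σ' ε L x ^ p) < 1))

end Pool.Agent.RM
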