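import Pool.Agent.Lib.MP_ca56d1_nt.C.Fin

/-! Lattice algebra for the induction over the tree of stable lattices. -/

namespace Pool.Agent.RM.Vol

variable {K : Type*} [Field K] [CharZero K]

/-- `L` has a basis with two elements. -/
def HasB (L : Submodule ℤ K) : Prop :=
  ∃ w₁ w₂ : K, (∀ a b : ℤ, (a : K) * w₁ + b * w₂ = 0 → a = 0 ∧ b = 0) ∧
    ∀ z, z ∈ L ↔ ∃ a b : ℤ, z = a * w₁ + b * w₂

theorem imem {L : Submodule ℤ K} {x : K} (hx : x ∈ L) (i : ℤ) : (i : K) * x ∈ L := by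
  rw [← zsmul_eq_mul]
  exact zsmul_mem hx i

theorem nmem {L : Submodule ℤ K} {x : K} (hx : x ∈ L) (i : ℕ) : (i : K) * x ∈ L := by
  rw [← nsmul_eq_mul]
  exact nsmul_mem hx i

theorem mem_of_eq {L : Submodule ℤ K} {x y : K} (hx : x ∈ L) (e : y = x) : y ∈ L := e ▸ hx

theorem mem_ext {L : Submodule ℤ K} {s x : K} :
    x ∈ L ⊔ Submodule.span ℤ {s} ↔ ∃ i : ℤ, x - i * s ∈ L := by
  rw [Submodule.mem_sup]
  constructor
  · rintro ⟨y, hy, z, hz, rfl⟩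
    obtain ⟨i, rfl⟩ := Submodule.mem_span_singleton.1 hz
    exact ⟨i, mem_of_eq hy (by rw [zsmul_eq_mul]; ring)⟩
  · rintro ⟨i, hi⟩
    exact ⟨_, hi, i * s, Submodule.mem_span_singleton.2 ⟨i, zsmul_eq_mul _ _⟩, by ring⟩

theorem mem_ext_left {L : Submodule ℤ K} {s x : K} (hx : x ∈ L) :
    x ∈ L ⊔ Submodule.span ℤ {s} := mem_ext.2 ⟨0, by simpa using hx⟩

theorem mem_ext_self {L : Submodule ℤ K} {s : K} : s ∈ L ⊔ Submodule.span ℤ {s} :=
  mem_ext.2 ⟨1, by simp⟩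

/-- The lattice `p⁻¹ L`. -/
def top (p : ℕ) (L : Submodule ℤ K) : Submodule ℤ K := L.comap (LinearMap.mulLeft ℤ (p : K))

theorem mem_top {p : ℕ} {L : Submodule ℤ K} {x : K} : x ∈ top p L ↔ (p : K) * x ∈ L := Iff.rfl

/-- The lattice `L + a L`. -/
def up (a : K) (L : Submodule ℤ K) : Submodule ℤ K := L ⊔ L.map (LinearMap.mulLeft ℤ a)

theorem mem_up {a : K} {L : Submodule ℤ K} {x : K} : x ∈ up a L ↔ ∃ l ∈ L, x - a * l ∈ L := by
  rw [up, Submodule.mem_sup]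
  constructor
  · rintro ⟨y, hy, z, ⟨l, hl, rfl⟩, rfl⟩
    exact ⟨l, hl, mem_of_eq hy (by simp)⟩
  · rintro ⟨l, hl, h⟩
    exact ⟨_, h, a * l, ⟨l, hl, rfl⟩, by ring⟩

/-- `u, v` give a basis of `L / p L`. -/
structure Bas (p : ℕ) (L : Submodule ℤ K) (u v : K) : Prop where
  hu : u ∈ L
  hv : v ∈ L
  ind : ∀ x y : ℤ, (x * u + y * v) / p ∈ L → (p : ℤ) ∣ x ∧ (p : ℤ) ∣ y
  sp : ∀ z ∈ L, ∃ x y : ℤ, (z - x * u - y * v) / p ∈ L

variable {p : ℕ} [hp : Fact p.Prime]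

theorem p_ne : (p : K) ≠ 0 := by exact_mod_cast hp.out.ne_zero

theorem dvd_of_mem {L : Submodule ℤ K} {s : K} {i : ℤ} (h1 : (p : K) * s ∈ L)
    (h2 : (i : K) * s ∈ L) (h3 : s ∉ L) : (p : ℤ) ∣ i := by
  by_contra h
  obtain ⟨a, b, e⟩ := (Int.prime_iff_natAbs_prime.2 (by simpa using hp.out) :
    Prime (p : ℤ)).irreducible.coprime_iff_not_dvd.2 h
  have e' : (a : K) * p + b * i = 1 := by exact_mod_cast congrArg (Int.cast : ℤ → K) e
  exact h3 (mem_of_eq (L.add_mem (imem h1 a) (imem h2 b)) (by linear_combination -s * e'))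

theorem coord {L : Submodule ℤ K} {w₁ w₂ : K}
    (hi : ∀ a b : ℤ, (a : K) * w₁ + b * w₂ = 0 → a = 0 ∧ b = 0)
    (hm : ∀ z, z ∈ L ↔ ∃ a b : ℤ, z = a * w₁ + b * w₂) (a b : ℤ) :
    ((a : K) * w₁ + b * w₂) / p ∈ L ↔ (a : ZMod p) = 0 ∧ (b : ZMod p) = 0 := by
  have hp0 : (p : K) ≠ 0 := p_ne
  rw [ZMod.intCast_zmod_eq_zero_iff_dvd, ZMod.intCast_zmod_eq_zero_iff_dvd, hm]
  constructor
  · rintro ⟨c, d, e⟩
    rw [div_eq_iff hp0] at e
    obtain ⟨h1, h2⟩ := hi (a - p * c) (b - p * d) (by push_cast; linear_combination e)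
    exact ⟨⟨c, by linarith⟩, ⟨d, by linarith⟩⟩
  · rintro ⟨⟨c, rfl⟩, ⟨d, rfl⟩⟩
    exact ⟨c, d, by push_cast; field_simp⟩

theorem bas_of {L : Submodule ℤ K} (hB : HasB L) {u v : K} (hu : u ∈ L) (hv : v ∈ L)
    (h1 : u / p ∉ L) (h2 : ∀ i : ℤ, (v - i * u) / p ∉ L) : Bas p L u v := by
  obtain ⟨w₁, w₂, hi, hm⟩ := hB
  obtain ⟨a, b, rfl⟩ := (hm u).1 hu
  obtain ⟨c, d, rfl⟩ := (hm v).1 hv
  rw [coord hi hm] at h1
  have h3 : ∀ i : ZMod p, ¬ ((c : ZMod p) - i * a = 0 ∧ (d : ZMod p) - i * b = 0) := by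
    intro i hi'
    obtain ⟨i, rfl⟩ := ZMod.intCast_surjective i
    refine h2 i (mem_of_eq ((coord (p := p) hi hm (c - i * a) (d - i * b)).2 ?_) ?_)
    · push_cast
      exact hi'
    · push_cast
      ring
  have hdet : (a : ZMod p) * d - b * c ≠ 0 := by
    intro e
    by_cases ha : (a : ZMod p) = 0
    · have hb : (b : ZMod p) ≠ 0 := fun hb => h1 ⟨ha, hb⟩
      refine h3 (d / b) ⟨?_, ?_⟩
      · field_simp
        linear_combination -e
      · field_simp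
        ring
    · refine h3 (c / a) ⟨?_, ?_⟩
      · field_simp
        ring
      · field_simp
        linear_combination e
  refine ⟨hu, hv, fun x y h => ?_, fun z hz => ?_⟩
  · have h4 := (coord (p := p) hi hm (x * a + y * c) (x * b + y * d)).1
      (mem_of_eq h (by push_cast; ring))
    push_cast at h4
    rw [← ZMod.intCast_zmod_eq_zero_iff_dvd, ← ZMod.intCast_zmod_eq_zero_iff_dvd]
    constructor
    · refine mul_right_cancel₀ hdet ?_
      linear_combination (d : ZMod p) * h4.1 - (c : ZMod p) * h4.2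
    · refine mul_right_cancel₀ hdet ?_
      linear_combination (a : ZMod p) * h4.2 - (b : ZMod p) * h4.1
  · obtain ⟨e, g, rfl⟩ := (hm z).1 hz
    obtain ⟨x, hx⟩ := ZMod.intCast_surjective (n := p)
      (((e : ZMod p) * d - g * c) / ((a : ZMod p) * d - b * c))
    obtain ⟨y, hy⟩ := ZMod.intCast_surjective (n := p)
      (((a : ZMod p) * g - b * e) / ((a : ZMod p) * d - b * c))
    refine ⟨x, y, mem_of_eq
      ((coord (p := p) hi hm (e - x * a - y * c) (g - x * b - y * d)).2 ?_) ?_⟩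
    · push_cast
      rw [eq_div_iff hdet] at hx hy
      constructor <;> refine mul_right_cancel₀ hdet ?_
      · linear_combination -(a : ZMod p) * hx - (c : ZMod p) * hy
      · linear_combination -(b : ZMod p) * hx - (d : ZMod p) * hy
    · push_cast
      ring

theorem top_eq {L : Submodule ℤ K} {u v : K} (h : Bas p L u v) :
    (L ⊔ Submodule.span ℤ {u / p}) ⊔ Submodule.span ℤ {v / p} = top p L := by
  have hp0 : (p : K) ≠ 0 := p_ne
  ext x
  rw [mem_top, mem_ext]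
  constructor
  · rintro ⟨j, hj⟩
    obtain ⟨i, hi⟩ := mem_ext.1 hj
    exact mem_of_eq (L.add_mem (L.add_mem (nmem hi p) (imem h.hu i)) (imem h.hv j))
      (by field_simp; ring)
  · intro hx
    obtain ⟨i, j, e⟩ := h.sp _ hx
    exact ⟨j, mem_ext.2 ⟨i, mem_of_eq e (by field_simp; ring)⟩⟩

/-- Cayley and Hamilton. -/
theorem quad {L : Submodule ℤ K} (hB : HasB L) {A : K} (hA : ∀ y ∈ L, A * y ∈ L) :
    ∃ t n : ℤ, A ^ 2 = t * A - n := by
  obtain ⟨w₁, w₂, hi, hm⟩ := hB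
  have hw : w₁ ≠ 0 := fun e => one_ne_zero (hi 1 0 (by simp [e])).1
  obtain ⟨a, b, h1⟩ := (hm _).1 (hA w₁ ((hm _).2 ⟨1, 0, by simp⟩))
  obtain ⟨c, d, h2⟩ := (hm _).1 (hA w₂ ((hm _).2 ⟨0, 1, by simp⟩))
  refine ⟨a + d, a * d - b * c, mul_right_cancel₀ hw ?_⟩
  push_cast
  linear_combination (A - d) * h1 + b * h2

/-- A cyclic vector. -/
theorem cyc {L : Submodule ℤ K} (hB : HasB L) {A : K} (hA : ∀ y ∈ L, A * y ∈ L)
    (hN : ∀ e : ℤ, ¬ ∀ y ∈ L, (A - e) * y / p ∈ L) : ∃ f, Bas p L f (A * f) := by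
  obtain ⟨w₁, w₂, hi, hm⟩ := id hB
  have m1 : w₁ ∈ L := (hm _).2 ⟨1, 0, by simp⟩
  have m2 : w₂ ∈ L := (hm _).2 ⟨0, 1, by simp⟩
  obtain ⟨a, b, h1⟩ := (hm _).1 (hA w₁ m1)
  obtain ⟨c, d, h2⟩ := (hm _).1 (hA w₂ m2)
  have key : ∀ x y : ℤ, ¬ ((x : ZMod p) = 0 ∧ (y : ZMod p) = 0) →
      (∀ i : ZMod p, ¬ ((x : ZMod p) * a + y * c - i * x = 0 ∧
        (x : ZMod p) * b + y * d - i * y = 0)) → ∃ f, Bas p L f (A * f) := by
    intro x y h3 h4
    have m3 : (x : K) * w₁ + y * w₂ ∈ L := (hm _).2 ⟨x, y, rfl⟩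
    refine ⟨_, bas_of hB m3 (hA _ m3) (by rwa [coord hi hm]) fun i h5 => h4 i ?_⟩
    have h6 := (coord (p := p) hi hm (x * a + y * c - i * x) (x * b + y * d - i * y)).1
      (mem_of_eq h5 (by
        congr 1
        push_cast
        linear_combination -(x : K) * h1 - (y : K) * h2))
    push_cast at h6
    exact h6
  by_cases hb : (b : ZMod p) = 0
  · by_cases hc : (c : ZMod p) = 0
    · refine key 1 1 (by simp) fun i h3 => hN a fun y hy => ?_
      obtain ⟨x, y, rfl⟩ := (hm _).1 hy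
      refine mem_of_eq ((coord (p := p) hi hm (y * c) (x * b + y * (d - a))).2 ?_) ?_
      · push_cast at h3 ⊢
        constructor
        · rw [hc, mul_zero]
        · linear_combination (x - y : ZMod p) * hb + (y : ZMod p) * hc + (y : ZMod p) * h3.2 -
            (y : ZMod p) * h3.1
      · congr 1
        push_cast
        linear_combination (x : K) * h1 + (y : K) * h2
    · exact key 0 1 (by simp) fun i h3 => hc (by simpa using h3.1)
  · exact key 1 0 (by simp) fun i h3 => hb (by simpa using h3.2)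

omit hp in
theorem elat_ext {ε : K} {t : ℤ} (ht : ε ^ 2 = t * ε - 1) {L : Submodule ℤ K} (hL : ELat ε L)
    {s : K} (hs : (ε - 1) * s ∈ L) : ELat ε (L ⊔ Submodule.span ℤ {s}) := by
  have key : ∀ y ∈ L ⊔ Submodule.span ℤ {s}, ε * y ∈ L ⊔ Submodule.span ℤ {s} := by
    intro y hy
    obtain ⟨i, hi⟩ := mem_ext.1 hy
    exact mem_ext.2 ⟨i, mem_of_eq (L.add_mem ((hL.stab _).2 hi) (imem hs i)) (by ring)⟩
  refine ⟨hL.fg.sup (Submodule.fg_span_singleton s), fun y => ?_, fun y => ⟨fun h => ?_, key y⟩⟩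
  · obtain ⟨n, hn, h⟩ := hL.full y
    exact ⟨n, hn, mem_ext_left h⟩
  · exact mem_of_eq (Submodule.sub_mem _ (imem h t) (key _ h)) (by linear_combination y * ht)

omit hp in
theorem sup0 {G : Type*} [AddCommGroup G] [LinearOrder G] [IsOrderedAddMonoid G] {X : Type*}
    (P : X → Prop) (y : X → G) (hf : {g | ∃ a, P a ∧ g = y a}.Finite)
    (hs : ∀ a, P a → ∃ b, P b ∧ ∃ k : ℕ, 2 ≤ k ∧ y b = k • y a) : ∀ a, P a → y a = 0 := by
  intro a ha
  obtain ⟨_, ⟨a0, h0, rfl⟩, hmax⟩ := Set.exists_max_image _ (fun g : G => |g|) hf ⟨_, a, ha, rfl⟩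
  obtain ⟨b, hb, k, hk, e⟩ := hs a0 h0
  have h1 := hmax _ ⟨b, hb, rfl⟩
  have h2 := hmax _ ⟨a, ha, rfl⟩
  rw [e, abs_nsmul] at h1
  have h3 : 2 • |y a0| ≤ k • |y a0| := nsmul_le_nsmul_left (abs_nonneg _) hk
  have h4 : |y a0| ≤ 0 := by
    rw [two_nsmul] at h3
    exact add_le_iff_nonpos_left.1 (h3.trans h1)
  exact abs_nonpos_iff.1 (h2.trans h4)

end Pool.Agent.RM.Vol
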