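import Pool.Agent.Lib.MP_ca56d1_nt.C.Vol1

/-! The sum over the lines and the induction from the leaves. -/

namespace Pool.Agent.RM.Vol

variable {K : Type*} [Field K] [CharZero K]

/-- The standing assumptions. -/
structure Hyp {G : Type*} [AddCommGroup G] (ε : K) (p : ℕ) [Fact p.Prime]
    (m : Submodule ℤ K → K → G) : Prop where
  bas : ∀ L, ELat ε L → HasB L
  sq : ∃ N : ℤ, (ε - 1) ^ 2 = p * N * ε
  irr : ∀ i j : ℤ, (i : K) * ε = j → i = 0
  per : ∀ L z y, ELat ε L → y ∈ L → m L (z + y) = m L z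
  dist : ∀ L s z, ELat ε L → (p : K) * s ∈ L → s ∉ L → (ε - 1) * s ∈ L → (ε - 1) * z ∈ L →
      m (L ⊔ Submodule.span ℤ {s}) z = ∑ y : ZMod p, m L (z + (y.val : K) * s)
  leaf : ∀ L f z, ELat ε L → f ∈ L → (ε - 1) * f / p ∉ L → (ε - 1) * z ∈ L →
      m L (z + (ε - 1) * f / p) = m L z

variable {G : Type*} [AddCommGroup G] {ε : K} {p : ℕ} [hp : Fact p.Prime]
  {m : Submodule ℤ K → K → G}

theorem Hyp.ext (H : Hyp ε p m) {L : Submodule ℤ K} (hL : ELat ε L) {s : K}
    (hs : (ε - 1) * s ∈ L) : ELat ε (L ⊔ Submodule.span ℤ {s}) := by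
  obtain ⟨N, hN⟩ := H.sq
  exact elat_ext (t := p * N + 2) (by push_cast; linear_combination hN) hL hs

theorem Bas.not_mem {L : Submodule ℤ K} {u v : K} (h : Bas p L u v) : u / p ∉ L := fun e =>
  (Int.prime_iff_natAbs_prime.2 (by simpa using hp.out) : Prime (p : ℤ)).not_dvd_one
    (h.ind 1 0 (mem_of_eq e (by simp))).1

theorem Bas.not_mem' {L : Submodule ℤ K} {u v : K} (h : Bas p L u v) (i : ℤ) :
    (i * u + v) / p ∉ L := fun e =>
  (Int.prime_iff_natAbs_prime.2 (by simpa using hp.out) : Prime (p : ℤ)).not_dvd_one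
    (h.ind i 1 (mem_of_eq e (by simp))).2

theorem Hyp.elat_top (H : Hyp ε p m) {L : Submodule ℤ K} (hL : ELat ε L)
    (hd : ∀ y ∈ L, (ε - 1) * y / p ∈ L) {u v : K} (hB : Bas p L u v) : ELat ε (top p L) := by
  rw [← top_eq hB]
  exact H.ext (H.ext hL (mem_of_eq (hd u hB.hu) (by ring)))
    (mem_ext_left (mem_of_eq (hd v hB.hv) (by ring)))

/-- The sum over the `p + 1` lines. -/
theorem Hyp.sum (H : Hyp ε p m) {L : Submodule ℤ K} (hL : ELat ε L)
    (hd : ∀ y ∈ L, (ε - 1) * y / p ∈ L) {u v z : K} (hB : Bas p L u v) (hz : (ε - 1) * z ∈ L) :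
    ∑ x : ZMod p, m (L ⊔ Submodule.span ℤ {((x.val : K) * u + v) / p}) z +
      m (L ⊔ Submodule.span ℤ {u / p}) z = p • m L z + m (top p L) z := by
  have hp0 : (p : K) ≠ 0 := p_ne
  have du : (ε - 1) * (u / p) ∈ L := mem_of_eq (hd u hB.hu) (by ring)
  have dv : (ε - 1) * (v / p) ∈ L := mem_of_eq (hd v hB.hv) (by ring)
  let φ : ZMod p → ZMod p → G := fun x y => m L (z + (y.val : K) * (v / p) + (x.val : K) * (u / p))
  have e1 : ∀ y : ZMod p, m (L ⊔ Submodule.span ℤ {u / p}) (z + (y.val : K) * (v / p)) =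
      ∑ x, φ x y := fun y =>
    H.dist L _ _ hL (mem_of_eq hB.hu (by field_simp)) hB.not_mem du
      (mem_of_eq (L.add_mem hz (nmem dv y.val)) (by ring))
  have e2 : m (top p L) z = ∑ y, ∑ x, φ x y := by
    rw [← top_eq hB, H.dist _ _ _ (H.ext hL du) (mem_ext_left (mem_of_eq hB.hv (by field_simp)))
      ?_ (mem_ext_left dv) (mem_ext_left hz)]
    · exact Finset.sum_congr rfl fun y _ => e1 y
    · intro h
      obtain ⟨i, hi⟩ := mem_ext.1 h
      exact hB.not_mem' (-i) (mem_of_eq hi (by push_cast; ring))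
  have e3 : ∀ x : ZMod p, m (L ⊔ Submodule.span ℤ {((x.val : K) * u + v) / p}) z =
      ∑ y, φ (y * x) y := by
    intro x
    rw [H.dist L _ _ hL (mem_of_eq (L.add_mem (nmem hB.hu x.val) hB.hv) (by field_simp))
      (fun h => hB.not_mem' x.val (mem_of_eq h (by push_cast; rfl)))
      (mem_of_eq (L.add_mem (nmem du x.val) dv) (by ring)) hz]
    refine Finset.sum_congr rfl fun y _ => ?_
    have h1 : ((y.val * x.val : ℕ) : K) = (y * x).val + p * (y.val * x.val / p : ℕ) := by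
      rw [ZMod.val_mul]
      exact_mod_cast congrArg (Nat.cast : ℕ → K) (Nat.mod_add_div (y.val * x.val) p).symm
    refine Eq.trans ?_ (H.per L _ _ hL (nmem hB.hu (y.val * x.val / p)))
    congr 1
    generalize ((y.val * x.val / p : ℕ) : K) = q at h1
    push_cast at h1
    field_simp
    linear_combination u * h1
  have e0 := e1 0
  rw [ZMod.val_zero, Nat.cast_zero, zero_mul, add_zero] at e0
  have e4 : ∑ x : ZMod p, φ (0 * x) 0 = p • m L z := by
    simp [φ, ZMod.card]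
  have e5 : ∑ y : ZMod p, (∑ x, φ (y * x) y - ∑ x, φ x y) = p • m L z - ∑ x, φ x 0 := by
    rw [Finset.sum_eq_single 0, e4]
    · intro y _ hy
      rw [sub_eq_zero]
      exact Equiv.sum_comp (Equiv.mulLeft₀ y hy) fun x => φ x y
    · simp
  rw [Finset.sum_sub_distrib] at e5
  rw [Finset.sum_congr rfl fun x _ => e3 x, Finset.sum_comm, e0, e2]
  rw [sub_eq_sub_iff_add_eq_add] at e5
  exact e5

/-- The relation along the nilpotent line, at height `k` above the leaves. -/
def Dk (ε : K) (p : ℕ) (m : Submodule ℤ K → K → G) (k : ℕ) : Prop :=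
  ∀ (c : ℤ) (A : K) (L : Submodule ℤ K) (f z : K), (p : K) ^ k * A = ε - 1 - p * c → ELat ε L →
    (∀ y ∈ L, A * y ∈ L) → (∀ y ∈ L, A * (A * y) / p ∈ L) → f ∈ L → A * f / p ∉ L →
    (ε - 1) * z ∈ L → m (L ⊔ Submodule.span ℤ {A * f / p}) z = p • m L z

theorem Hyp.d0 (H : Hyp ε p m) : Dk ε p m 0 := by
  intro c A L f z hA hL h1 h2 hf h3 hz
  have hp0 : (p : K) ≠ 0 := p_ne
  rw [pow_zero, one_mul] at hA
  have h4 : (ε - 1) * (A * f / p) ∈ L :=
    mem_of_eq (L.add_mem (h2 f hf) (imem (h1 f hf) c)) (by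
      field_simp
      linear_combination -(A * f) * hA)
  rw [H.dist L _ _ hL (mem_of_eq (h1 f hf) (by field_simp)) h3 h4 hz]
  have h5 : ∀ y : ZMod p, m L (z + (y.val : K) * (A * f / p)) = m L z := by
    intro y
    have hy := nmem hf y.val
    have e : z + (y.val : K) * (A * f / p) =
        z + (ε - 1) * (y.val * f) / p + (-c : ℤ) * (y.val * f) := by
      rw [hA]
      push_cast
      field_simp
      ring
    rw [e, H.per L _ _ hL (imem hy _)]
    by_cases h6 : (ε - 1) * (y.val * f) / p ∈ L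
    · exact H.per L _ _ hL h6
    · exact H.leaf L _ _ hL hy h6 hz
  rw [Finset.sum_congr rfl fun y _ => h5 y, Finset.sum_const, Finset.card_univ, ZMod.card]

theorem div_mem {L : Submodule ℤ K} {k : ℕ} {c : ℤ} {A : K}
    (hA : (p : K) ^ (k + 1) * A = ε - 1 - p * c) (h1 : ∀ y ∈ L, A * y ∈ L) :
    ∀ y ∈ L, (ε - 1) * y / p ∈ L := by
  intro y hy
  have hp0 : (p : K) ≠ 0 := p_ne
  refine mem_of_eq (L.add_mem (nmem (h1 y hy) (p ^ k)) (imem hy c)) ?_
  push_cast
  field_simp
  linear_combination -y * hA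

/-- A line which is not stable. -/
theorem Hyp.child (H : Hyp ε p m) {k : ℕ} (hD : Dk ε p m k) {c : ℤ} {A : K} {L : Submodule ℤ K}
    {u z : K} (hA : (p : K) ^ (k + 1) * A = ε - 1 - p * c) (hL : ELat ε L)
    (h1 : ∀ y ∈ L, A * y ∈ L) (hu : u ∈ L) (h2 : ∀ i : ℤ, (A * u - i * u) / p ∉ L)
    (hz : (ε - 1) * z ∈ L) : p • m (L ⊔ Submodule.span ℤ {u / p}) z = m (top p L) z := by
  have hp0 : (p : K) ≠ 0 := p_ne
  have hB : Bas p L u (A * u) := bas_of (H.bas L hL) hu (h1 u hu)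
    (fun h => h2 0 (mem_of_eq (h1 _ h) (by push_cast; ring))) h2
  have e : (p : K) * A * (u / p) / p = A * u / p := by field_simp
  rw [← top_eq hB, ← e]
  refine (hD c (p * A) _ _ z (by linear_combination hA)
    (H.ext hL (mem_of_eq (div_mem hA h1 u hu) (by ring))) (fun y hy => ?_) (fun y hy => ?_)
    mem_ext_self (fun h => ?_) (mem_ext_left hz)).symm
  · obtain ⟨i, hi⟩ := mem_ext.1 hy
    exact mem_ext_left (mem_of_eq (L.add_mem (nmem (h1 _ hi) p) (imem (h1 u hu) i))
      (by field_simp; ring))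
  · obtain ⟨i, hi⟩ := mem_ext.1 hy
    exact mem_ext_left (mem_of_eq (L.add_mem (nmem (h1 _ (h1 _ hi)) p) (imem (h1 _ (h1 u hu)) i))
      (by field_simp; ring))
  · obtain ⟨i, hi⟩ := mem_ext.1 h
    exact h2 i (mem_of_eq hi (by rw [e]; ring))

/-- The relation between the stable lines. -/
theorem Hyp.star (H : Hyp ε p m) {k : ℕ} (hD : Dk ε p m k) {c : ℤ} {A : K} {L : Submodule ℤ K}
    {f z : K} (hA : (p : K) ^ (k + 1) * A = ε - 1 - p * c) (hL : ELat ε L)
    (h1 : ∀ y ∈ L, A * y ∈ L) (hB : Bas p L f (A * f)) (hz : (ε - 1) * z ∈ L)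
    (R : Finset (ZMod p)) (hR : ∀ x ∉ R, ∀ i : ℤ,
      (A * ((x.val : K) * f + A * f) - i * ((x.val : K) * f + A * f)) / p ∉ L) :
    ∑ x ∈ R, p • m (L ⊔ Submodule.span ℤ {((x.val : K) * f + A * f) / p}) z + m (top p L) z =
      p • p • m L z + R.card • m (top p L) z := by
  have e1 := congrArg (fun g => p • g) (H.sum hL (div_mem hA h1) hB hz)
  have e2 := H.child hD hA hL h1 hB.hu
    (fun i h => hB.not_mem' (-i) (mem_of_eq h (by push_cast; ring))) hz
  have e3 : ∑ x ∈ Rᶜ, p • m (L ⊔ Submodule.span ℤ {((x.val : K) * f + A * f) / p}) z =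
      Rᶜ.card • m (top p L) z := by
    rw [← Finset.sum_const]
    exact Finset.sum_congr rfl fun x hx => H.child hD hA hL h1
      (L.add_mem (nmem hB.hu _) hB.hv) (hR x (Finset.mem_compl.1 hx)) hz
  simp only [smul_add, Finset.smul_sum] at e1
  rw [← Finset.sum_add_sum_compl R, e2, e3] at e1
  have e4 : p • m (top p L) z = R.card • m (top p L) z + Rᶜ.card • m (top p L) z := by
    rw [← add_smul, Finset.card_add_card_compl, ZMod.card]
  rw [e4] at e1
  refine add_right_cancel (b := Rᶜ.card • m (top p L) z) ?_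
  rw [add_assoc _ (R.card • m (top p L) z), ← e1]
  abel

theorem Hyp.dk [LinearOrder G] [IsOrderedAddMonoid G] (H : Hyp ε p m) (k : ℕ) : Dk ε p m k := by
  induction k with
  | zero => exact H.d0
  | succ k ih =>
    intro c A L f z hA hL h1 h2 hf h3 hz
    have hp0 : (p : K) ≠ 0 := p_ne
    have hpA : (p : K) * (A * f / p) ∈ L := mem_of_eq (h1 f hf) (by field_simp)
    have hB : Bas p L f (A * f) := by
      refine bas_of (H.bas L hL) hf (h1 f hf) (fun h => h3 (mem_of_eq (h1 _ h) (by ring)))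
        fun i h => ?_
      obtain ⟨j, rfl⟩ := dvd_of_mem hpA
        (mem_of_eq (L.sub_mem (h2 f hf) (h1 _ h)) (by ring) : (i : K) * (A * f / p) ∈ L) h3
      exact h3 (mem_of_eq (L.add_mem h (imem hf j)) (by push_cast; field_simp; ring))
    have e := H.star ih hA hL h1 hB hz {0} fun x hx i h => by
      have h4 := hB.ind (-(i * x.val)) (x.val - i)
        (mem_of_eq (L.sub_mem h (h2 f hf)) (by push_cast; ring))
      rw [← ZMod.intCast_zmod_eq_zero_iff_dvd, ← ZMod.intCast_zmod_eq_zero_iff_dvd] at h4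
      push_cast at h4
      rw [ZMod.natCast_zmod_val] at h4
      refine hx (Finset.mem_singleton.2 ((pow_eq_zero_iff two_ne_zero).1 ?_))
      linear_combination x * h4.2 - h4.1
    rw [Finset.sum_singleton, Finset.card_singleton, one_smul, add_left_inj, ZMod.val_zero,
      Nat.cast_zero, zero_mul, zero_add] at e
    exact nsmul_right_injective hp.out.ne_zero e

end Pool.Agent.RM.Vol
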