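import Pool.Agent.Lib.MP_ca56d1_nt.C.Ops

set_option linter.unusedSectionVars false
set_option linter.style.haveILetI false

namespace Pool.Agent.StarkC

open Finset Polynomial

section Roots
variable {E : Type*} [Field E] (O : ValuationSubring E) {p : ℕ}

theorem val_root {x : E} {n : ℕ} (hn : n ≠ 0) (h : x ^ n = 1) : O.valuation x = 1 := by
  have := congrArg O.valuation h
  rw [map_pow, map_one] at this
  exact (pow_eq_one_iff_of_nonneg zero_le hn).1 this

theorem val_nat (n : ℕ) : O.valuation n ≤ 1 := (O.valuation_le_one_iff _).2 (natCast_mem O n)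

theorem val_int (n : ℤ) : O.valuation n ≤ 1 := (O.valuation_le_one_iff _).2 (intCast_mem O n)

theorem val_pow_sub_one {x : E} (hx : O.valuation x ≤ 1) (n : ℕ) :
    O.valuation (x ^ n - 1) ≤ O.valuation (x - 1) := by
  induction n with
  | zero => simp
  | succ n ih =>
    rw [show x ^ (n + 1) - 1 = x * (x ^ n - 1) + (x - 1) by ring]
    refine Valuation.map_add_le _ ?_ le_rfl
    rw [map_mul]
    exact (mul_le_of_le_one_left' hx).trans ih

theorem frob_sub (hp : p.Prime) {x y : E} (hx : O.valuation x ≤ 1) (hy : O.valuation y ≤ 1) :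
    ∃ r : E, O.valuation r ≤ 1 ∧ (x - y) ^ p = x ^ p - y ^ p - p * (x - y) * r := by
  lift x to O using (O.valuation_le_one_iff _).1 hx
  lift y to O using (O.valuation_le_one_iff _).1 hy
  obtain ⟨r, hr⟩ := exists_add_pow_prime_eq hp (x - y) y
  refine ⟨(y * r : O), O.valuation_le_one _, ?_⟩
  have := congrArg O.subtype hr
  simp only [sub_add_cancel, map_pow, map_add, map_mul, map_sub, map_natCast,
    ValuationSubring.coe_subtype] at this
  push_cast
  linear_combination -this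

theorem val_root_sub_one (hp : p.Prime) {x : E} (h : x ^ p = 1) :
    O.valuation (x - 1) ^ (p - 1) ≤ O.valuation p := by
  have h2 := hp.two_le
  by_cases h1 : x - 1 = 0
  · rw [h1, map_zero, zero_pow (by omega)]; exact zero_le
  obtain ⟨r, hr, e⟩ := frob_sub O hp (val_root O hp.ne_zero h).le (map_one O.valuation).le
  have e2 : (x - 1) ^ (p - 1) = -(p * r) := by
    refine mul_right_cancel₀ h1 ?_
    rw [← pow_succ, Nat.sub_add_cancel (by omega), e, h]; ring
  rw [← map_pow, e2, Valuation.map_neg, map_mul]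
  exact mul_le_of_le_one_right' hr

theorem val_le_root (hp : p.Prime) (c : ℕ) : ∀ x : E, x ^ p ^ c = 1 → x ≠ 1 →
    O.valuation p ≤ O.valuation (x - 1) := by
  induction c with
  | zero => intro x h h1; exact absurd (by simpa using h) h1
  | succ c ih =>
    intro x h h1
    have hx := (val_root O (pow_ne_zero _ hp.ne_zero) h).le
    by_cases h2 : x ^ p = 1
    · have e : ∑ i ∈ range p, x ^ i = 0 := by
        have := geom_sum_mul x p
        rw [h2, sub_self] at this
        exact (mul_eq_zero.1 this).resolve_right (sub_ne_zero.2 h1)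
      have e2 : (p : E) = -∑ i ∈ range p, (x ^ i - 1) := by simp [sum_sub_distrib, e]
      rw [e2, Valuation.map_neg]
      exact Valuation.map_sum_le _ fun i _ => val_pow_sub_one O hx i
    · exact (ih (x ^ p) (by rw [← pow_mul, ← pow_succ', h]) h2).trans (val_pow_sub_one O hx p)

theorem val_lt_root (hp : p.Prime) (hO : O.valuation p < 1) (c : ℕ) : ∀ x : E, x ^ p ^ c = 1 →
    O.valuation (x - 1) < 1 := by
  induction c with
  | zero => intro x h; have : x = 1 := by simpa using h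
            simp [this]
  | succ c ih =>
    intro x h
    have hx := (val_root O (pow_ne_zero _ hp.ne_zero) h).le
    obtain ⟨r, hr, e⟩ := frob_sub O hp hx (map_one O.valuation).le
    refine lt_of_pow_lt_pow_left₀ p zero_le ?_
    rw [← map_pow, e, one_pow, one_pow]
    refine Valuation.map_sub_lt _ (ih _ (by rw [← pow_mul, ← pow_succ', h])) ?_
    rw [map_mul, map_mul]
    exact ((mul_le_of_le_one_right' hr).trans (mul_le_of_le_one_right'
      (Valuation.map_sub_le _ hx (map_one O.valuation).le))).trans_lt hO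

theorem prod_erase_root {α : E} {m : ℕ} (hα : IsPrimitiveRoot α m) {n : ℕ} (hn : n < m) :
    ∏ j ∈ (range m).erase n, (α ^ n - α ^ j) = m * (α ^ n) ^ (m - 1) := by
  have h := Lagrange.eval_nodal_derivative_eval_node_eq (s := range m) (v := fun j => α ^ j)
    (mem_range.2 hn)
  have e : Lagrange.nodal (range m) (fun j => α ^ j) = X ^ m - C 1 := by
    rw [X_pow_sub_C_eq_prod hα (α := 1) (by omega) (one_pow m), Lagrange.nodal_eq]
    simp
  rw [e, Lagrange.eval_nodal] at h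
  rw [← h]
  simp [derivative_X_pow]

theorem val_prod_root (hp : p.Prime) {c : ℕ} {ζ ξ : E} (hζ : IsPrimitiveRoot ζ (p ^ (c + 1)))
    (hξ : ξ ^ p ^ (c + 1) = 1) :
    O.valuation (∏ j ∈ range (p ^ c), (ξ - ζ ^ j)) ^ (p * (p - 1)) ≤
      O.valuation p ^ (p + c * (p - 1)) := by
  have hq : p ^ (c + 1) ≠ 0 := pow_ne_zero _ hp.ne_zero
  have hq' : 0 < p ^ c := pow_pos hp.pos _
  haveI : NeZero (p ^ (c + 1)) := ⟨hq⟩
  obtain ⟨n, -, rfl⟩ := hζ.eq_pow_of_pow_eq_one hξ
  have hn := Nat.mod_lt n hq'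
  have hz : ∀ j, O.valuation (ζ ^ j) = 1 := fun j => by
    rw [map_pow, val_root O hq hζ.pow_eq_one, one_pow]
  have hα : IsPrimitiveRoot (ζ ^ p) (p ^ c) := hζ.pow (Nat.pos_of_ne_zero hq) (pow_succ' _ _)
  have h1 : O.valuation (ζ ^ n - ζ ^ (n % p ^ c)) ^ (p - 1) ≤ O.valuation p := by
    have e : ζ ^ n - ζ ^ (n % p ^ c) = ζ ^ (n % p ^ c) * (ζ ^ (p ^ c * (n / p ^ c)) - 1) := by
      rw [mul_sub, ← pow_add, Nat.mod_add_div, mul_one]
    rw [e, map_mul, hz, one_mul]
    refine val_root_sub_one O hp ?_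
    rw [← pow_mul, mul_right_comm, ← pow_succ, pow_mul, hζ.pow_eq_one, one_pow]
  have e0 : (ζ ^ n) ^ p = (ζ ^ p) ^ (n % p ^ c) := by
    conv_lhs => rw [← pow_mul, mul_comm, pow_mul, ← Nat.mod_add_div n (p ^ c), pow_add, pow_mul,
      hα.pow_eq_one, one_pow, mul_one]
  have h2 : O.valuation (∏ j ∈ (range (p ^ c)).erase (n % p ^ c), (ζ ^ n - ζ ^ j)) ^ p ≤
      O.valuation p ^ c := by
    have e1 : O.valuation p ^ c = O.valuation (∏ j ∈ (range (p ^ c)).erase (n % p ^ c),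
        ((ζ ^ p) ^ (n % p ^ c) - (ζ ^ p) ^ j)) := by
      rw [prod_erase_root hα hn, map_mul, ← pow_mul, ← pow_mul, hz, mul_one, Nat.cast_pow, map_pow]
    rw [e1, map_prod, map_prod, ← prod_pow]
    refine prod_le_prod' fun j hj => ?_
    obtain ⟨r, hr, e⟩ := frob_sub O hp (hz n).le (hz j).le
    have e3 : (ζ ^ j) ^ p = (ζ ^ p) ^ j := by rw [← pow_mul, mul_comm, pow_mul]
    rw [← map_pow, e, e0, e3]
    refine Valuation.map_sub_le _ le_rfl ?_
    rw [map_mul, map_mul]
    refine ((mul_le_of_le_one_right' hr).trans (mul_le_of_le_one_right'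
      (Valuation.map_sub_le _ (hz n).le (hz j).le))).trans ?_
    have hj0 : (ζ ^ p) ^ j ≠ 0 := pow_ne_zero _ (hα.ne_zero hq'.ne')
    have e4 : (ζ ^ p) ^ (n % p ^ c) - (ζ ^ p) ^ j =
        (ζ ^ p) ^ j * ((ζ ^ p) ^ (n % p ^ c) / (ζ ^ p) ^ j - 1) := by field_simp
    rw [e4, map_mul, ← pow_mul ζ p j, hz, one_mul, pow_mul]
    refine val_le_root O hp c _ ?_ fun h => ?_
    · rw [div_pow, ← pow_mul (ζ ^ p), ← pow_mul (ζ ^ p), mul_comm _ (p ^ c), mul_comm _ (p ^ c),
        pow_mul (ζ ^ p), pow_mul (ζ ^ p), hα.pow_eq_one]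
      simp
    · rw [div_eq_one_iff_eq hj0] at h
      exact (mem_erase.1 hj).1 (hα.pow_inj hn (mem_range.1 (mem_erase.1 hj).2) h).symm
  rw [← mul_prod_erase _ _ (mem_range.2 hn), map_mul, mul_pow, pow_add]
  refine mul_le_mul' ?_ ?_
  · rw [mul_comm, pow_mul]; exact pow_le_pow_left₀ zero_le h1 p
  · rw [pow_mul, pow_mul]; exact pow_le_pow_left₀ zero_le h2 _

end Roots

section Ops
variable {A : Type*} [AddCommGroup A]

def pp (R : Type*) [CommRing R] (g : A) (z : ℕ → R) : ℕ → Module.End R (A → R)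
  | 0 => 1
  | n + 1 => (sh R g - z n • (1 : Module.End R (A → R))) * pp R g z n

def Rel {R S : Type*} [CommRing R] [CommRing S] (ψ : R →+* S) (T : Module.End R (A → R))
    (T' : Module.End S (A → S)) : Prop := ∀ U, ψ ∘ T U = T' (ψ ∘ U)

variable {R S : Type*} [CommRing R] [CommRing S] {ψ : R →+* S}

theorem Rel.mul {T T₁ : Module.End R (A → R)} {T' T₁' : Module.End S (A → S)} (h : Rel ψ T T')
    (h₁ : Rel ψ T₁ T₁') : Rel ψ (T * T₁) (T' * T₁') := fun U => by
  rw [Module.End.mul_apply, h, h₁, Module.End.mul_apply]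

theorem Rel.pow {T : Module.End R (A → R)} {T' : Module.End S (A → S)} (h : Rel ψ T T') (n : ℕ) :
    Rel ψ (T ^ n) (T' ^ n) := by
  induction n with
  | zero => intro U; simp
  | succ n ih => rw [pow_succ, pow_succ]; exact ih.mul h

theorem rel_pp (ψ : R →+* S) (g : A) (z : ℕ → R) (n : ℕ) :
    Rel ψ (pp R g z n) (pp S g (fun j => ψ (z j)) n) := by
  induction n with
  | zero => intro U; simp [pp]
  | succ n ih =>
    refine Rel.mul (fun U => ?_) ih
    ext x; simp

theorem pp_one (g : A) (n : ℕ) : pp S g (fun _ => 1) n = dl S g ^ n := by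
  induction n with
  | zero => simp [pp]
  | succ n ih => rw [pp, ih, pow_succ', one_smul, dl]

theorem pp_eigen {g : A} {χ : A → S} {ξ : S} (h : ∀ x, χ (x + g) = χ x * ξ) (z : ℕ → S) (n : ℕ) :
    pp S g z n χ = (∏ j ∈ range n, (ξ - z j)) • χ := by
  induction n with
  | zero => simp [pp]
  | succ n ih =>
    rw [pp, Module.End.mul_apply, ih, map_smul, prod_range_succ]
    ext x; simp [h]; ring

theorem pow_eigen {T : Module.End S (A → S)} {χ : A → S} {a : S} (h : T χ = a • χ) (n : ℕ) :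
    (T ^ n) χ = a ^ n • χ := by
  induction n with
  | zero => simp
  | succ n ih => rw [pow_succ, Module.End.mul_apply, h, map_smul, ih, smul_smul, ← pow_succ']

end Ops

theorem charP_res {E : Type*} [Field E] (O : ValuationSubring E) {p : ℕ} (hp : p.Prime)
    (hO : O.valuation p < 1) : CharP (IsLocalRing.ResidueField O) p := by
  refine (CharP.charP_iff_prime_eq_zero (R := IsLocalRing.ResidueField O) hp).2 ?_
  rw [← map_natCast (IsLocalRing.residue O), IsLocalRing.residue_eq_zero_iff,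
    O.valuation_lt_one_iff]
  simpa using hO

theorem weight {A ι : Type*} [AddCommGroup A] (O : ValuationSubring ℂ) {p : ℕ} (hp : p.Prime)
    (hO : O.valuation p < 1) (U : A → O) (s : Finset ι) (c : ι → ℂ) (χ : ι → A → ℂ) (d : ℂ)
    (hU : ∀ x, d * U x = ∑ i ∈ s, c i * χ i x) (hc : ∀ i ∈ s, O.valuation (c i) ≤ 1)
    (hχ : ∀ i ∈ s, ∀ x y, χ i (x + y) = χ i x * χ i y) (hv : ∀ i ∈ s, ∀ x, O.valuation (χ i x) ≤ 1)
    {a : ℕ} (hd : O.valuation d ^ 2 = O.valuation p ^ a) (g₁ g₂ : A) (b₁ b₂ : ℕ)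
    (h₁ : ∀ i ∈ s, χ i g₁ ^ p ^ (b₁ + 1) = 1) (h₂ : ∀ i ∈ s, χ i g₂ ^ p ^ (b₂ + 1) = 1) (i l : ℕ)
    (hw : a * (p * (p - 1)) < 2 * (i * (p + b₁ * (p - 1)) + l * (p + b₂ * (p - 1)))) :
    dd (IsLocalRing.ResidueField O) (p ^ b₁ • g₁) (p ^ b₂ • g₂) i l
      (IsLocalRing.residue O ∘ U) = 0 := by
  haveI := Fact.mk hp
  haveI := charP_res O hp hO
  have hp0 : O.valuation p ≠ 0 := by simp [hp.ne_zero]
  have root : ∀ b : ℕ, ∃ ζ : O, IsPrimitiveRoot (ζ : ℂ) (p ^ (b + 1)) ∧
      ∀ j, IsLocalRing.residue O (ζ ^ j) = 1 := by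
    intro b
    have hq : p ^ (b + 1) ≠ 0 := pow_ne_zero _ hp.ne_zero
    have h := Complex.isPrimitiveRoot_exp _ hq
    refine ⟨⟨_, (O.valuation_le_one_iff _).1 (val_root O hq h.pow_eq_one).le⟩, h, fun j => ?_⟩
    rw [map_pow]
    convert one_pow j
    rw [← sub_eq_zero, ← map_one (IsLocalRing.residue O), ← map_sub,
      IsLocalRing.residue_eq_zero_iff, O.valuation_lt_one_iff]
    exact val_lt_root O hp hO _ _ h.pow_eq_one
  obtain ⟨ζ₁, hζ₁, r₁⟩ := root b₁
  obtain ⟨ζ₂, hζ₂, r₂⟩ := root b₂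
  set T := pp O g₁ (fun j => ζ₁ ^ j) (p ^ b₁) ^ i * pp O g₂ (fun j => ζ₂ ^ j) (p ^ b₂) ^ l with hT
  have e1 := (((rel_pp (IsLocalRing.residue O) g₁ (fun j => ζ₁ ^ j) (p ^ b₁)).pow i).mul
    ((rel_pp (IsLocalRing.residue O) g₂ (fun j => ζ₂ ^ j) (p ^ b₂)).pow l)) U
  have e2 := (((rel_pp O.subtype g₁ (fun j => ζ₁ ^ j) (p ^ b₁)).pow i).mul
    ((rel_pp O.subtype g₂ (fun j => ζ₂ ^ j) (p ^ b₂)).pow l)) U
  simp only [r₁, r₂, pp_one, dl_pow_char] at e1
  rw [dd, ← e1, ← hT]
  rw [← hT] at e2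
  ext x
  rw [Function.comp_apply, Pi.zero_apply, IsLocalRing.residue_eq_zero_iff, O.valuation_lt_one_iff]
  have e3 : d • (Subtype.val ∘ U) = ∑ i ∈ s, c i • χ i := by
    ext x; simpa using hU x
  have e4 : d * (T U x : ℂ) = ∑ n ∈ s, c n * ((∏ j ∈ range (p ^ b₁), (χ n g₁ - ζ₁ ^ j)) ^ i *
      (∏ j ∈ range (p ^ b₂), (χ n g₂ - ζ₂ ^ j)) ^ l * χ n x) := by
    have := congrFun e2 x
    rw [Function.comp_apply, ValuationSubring.coe_subtype] at this
    rw [this, ← smul_eq_mul, ← Pi.smul_apply, ← map_smul, e3, map_sum, Finset.sum_apply]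
    refine sum_congr rfl fun n hn => ?_
    rw [map_smul, Module.End.mul_apply, pow_eigen (pp_eigen (fun x => hχ n hn x g₂) _ _), map_smul,
      pow_eigen (pp_eigen (fun x => hχ n hn x g₁) _ _)]
    simp only [ValuationSubring.coe_subtype, Pi.smul_apply, smul_eq_mul, SubmonoidClass.coe_pow]
    ring
  have hd0 : O.valuation d ≠ 0 := fun h => pow_ne_zero a hp0 (by rw [← hd, h]; simp)
  have e5 : O.valuation (d * (T U x : ℂ)) < O.valuation d := by
    rw [e4]
    refine Valuation.map_sum_lt _ hd0 fun n hn => ?_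
    rw [map_mul, map_mul, map_mul, map_pow, map_pow]
    refine ((mul_le_of_le_one_left' (hc n hn)).trans
      (mul_le_of_le_one_right' (hv n hn x))).trans_lt ?_
    refine lt_of_pow_lt_pow_left₀ (p * (p - 1) * 2) zero_le ?_
    rw [mul_comm _ 2, pow_mul (O.valuation d), hd, ← pow_mul (O.valuation p), mul_comm 2,
      pow_mul _ _ 2, mul_pow _ _ (p * (p - 1)), ← pow_mul _ i, ← pow_mul _ l, mul_comm i,
      mul_comm l, pow_mul _ _ i, pow_mul _ _ l]
    refine (pow_le_pow_left₀ zero_le (mul_le_mul'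
      (pow_le_pow_left₀ zero_le (val_prod_root O hp hζ₁ (h₁ n hn)) i)
      (pow_le_pow_left₀ zero_le (val_prod_root O hp hζ₂ (h₂ n hn)) l)) 2).trans_lt ?_
    rw [← pow_mul, ← pow_mul, ← pow_add, ← pow_mul]
    exact pow_lt_pow_right_of_lt_one₀ (zero_lt_iff.2 hp0) hO (by linarith)
  rw [map_mul] at e5
  exact lt_of_mul_lt_mul_left (by rwa [mul_one]) (zero_le (a := O.valuation d))

end Pool.Agent.StarkC
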